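import Pool.Agent.Lib.MP_185394_co.All.Weights

/-!
The large indivisible plex in the lifted square.
-/

namespace Pool.Agent.Lib.MP_185394_co.All

open Finset Near

set_option linter.unusedSectionVars false

section odd

variable {H : Type} [AddCommGroup H] [Fintype H] [DecidableEq H]

lemma two_inj_of_odd (h : Odd (Fintype.card H)) (x y : H) (hxy : x + x = y + y) : x = y := by
  obtain ⟨k, hk⟩ := h
  have h1 : (x - y) + (x - y) = 0 := by
    have : (x - y) + (x - y) = (x + x) - (y + y) := by abel
    rw [this, hxy, sub_self]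
  have h2 : Fintype.card H • (x - y) = 0 := card_nsmul_eq_zero
  rw [hk, add_smul, one_smul, mul_comm, mul_smul, two_smul, h1, smul_zero, zero_add] at h2
  exact sub_eq_zero.mp h2

lemma sum_univ_of_odd (h : Odd (Fintype.card H)) : ∑ x : H, x = 0 := by
  apply two_inj_of_odd h
  rw [add_zero]
  have h1 : ∑ x : H, x = ∑ x : H, -x := (Equiv.sum_comp (Equiv.neg H) (fun x => x)).symm
  nth_rewrite 1 [h1]
  rw [Finset.sum_neg_distrib]
  exact neg_add_cancel _

lemma sum_ind_inj (K : Finset H) (φ : H → H) (hφ : Function.Injective φ) :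
    ∑ x, ind (φ x ∈ K) = K.card := by
  have h := Function.Bijective.sum_comp ((Finite.injective_iff_bijective).mp hφ)
    (fun v => ind (v ∈ K))
  rw [h, sum_ind_mem]

end odd

variable {G H : Type} [AddCommGroup G] [Fintype G] [DecidableEq G] [AddCommGroup H] [Fintype H]
  [DecidableEq H]

lemma sum_prod_zero (h1 : ∑ x : G, x = 0) (h2 : ∑ x : H, x = 0) : ∑ a : G × H, a = 0 := by
  rw [Fintype.sum_prod_type]
  refine Prod.ext ?_ ?_
  · rw [Prod.fst_sum]
    simp only [Prod.fst_sum, Finset.sum_const, Finset.card_univ]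
    rw [← Finset.smul_sum, h1, smul_zero]
    rfl
  · rw [Prod.snd_sum]
    simp only [Prod.snd_sum, Finset.sum_const, Finset.card_univ]
    rw [h2, smul_zero]
    rfl

lemma sum_ind_eq_mul (x : G) (f : G → ℤ) : ∑ X, ind (X = x) * f X = f x := by
  unfold ind
  simp

/-- counting in a set given by its indicator -/
lemma card_filter_mult {E : Type} [Fintype E] [DecidableEq E] (f : E → ℤ)
    (hf : ∀ e, f e = 0 ∨ f e = 1) (p : E → Prop) [DecidablePred p] :
    ((((univ.filter fun e => f e = 1).filter p).card : ℕ) : ℤ) = ∑ e, f e * ind (p e) := by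
  rw [Finset.filter_filter, Finset.card_filter]
  push_cast
  apply Finset.sum_congr rfl
  intro e _
  unfold ind
  rcases hf e with h | h
  · rw [if_neg (by rw [h]; rintro ⟨h', -⟩; norm_num at h'), h, zero_mul]
  · by_cases hp : p e
    · rw [if_pos ⟨h, hp⟩, if_pos hp, h, one_mul]
    · rw [if_neg (fun h' => hp h'.2), if_neg hp, mul_zero]

lemma sum_form (f a i j : H → ℤ) (α β γ A' I' J' : ℤ) (g : ℕ) (hg : Fintype.card H = g)
    (hf : ∀ y, f y = a y - α - β * i y - γ * j y) (ha : ∑ y, a y = A') (hi : ∑ y, i y = I')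
    (hj : ∑ y, j y = J') : ∑ y, f y = A' - g * α - β * I' - γ * J' := by
  simp only [hf, Finset.sum_sub_distrib, ← Finset.mul_sum, ha, hi, hj, Finset.sum_const,
    Finset.card_univ, hg]
  rw [nsmul_eq_mul]

theorem le_kappa_of_weight {d : Dat G H} (hd : d.Ok) (A : Finset G) (τ g s : ℕ)
    (hg : Fintype.card H = g) (hs : d.D.card = s)
    (hA0 : (0 : G) ∈ A) (hAκ : d.κ ∈ A) (hAxs : d.xs ∈ A) (hAs : ∀ X, X ∈ A ↔ d.κ - X ∈ A)
    (hGs : ∑ X : G, X = 0) (hH : Odd (Fintype.card H))
    (X0 Y0 Y1 : G) (hX0κ : X0 ≠ d.κ) (hY1 : Y1 ≠ 0)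
    (hXY1 : X0 + Y1 ≠ d.κ) (hT : Touched d.κ d.M X0 Y0) (δ0 : H) (hδ : δ0 ∈ d.D)
    (q : G → G → ℤ) (hq : IsWeight d.κ d.M A τ s X0 Y0 (d.M X0 Y0) Y1 g q)
    (hsg : d.sg Y0 = d.sg (d.M X0 Y0)) (hex1 : d.M X0 Y0 = X0 + Y0 + (τ * s) • d.κ)
    (hex2 : d.η (d.M X0 Y0) - d.η Y0 = τ • (s • d.o - ∑ i ∈ d.D, i))
    (hord : addOrderOf ((s • d.κ, s • d.o - ∑ i ∈ d.D, i) : G × H) = Fintype.card G * g)
    (hτ : τ < Fintype.card G) (n : ℕ) (hn : n + s = Fintype.card G * g) (hn0 : 0 < n) :
    (Fintype.card G - τ) * g ≤ kappa n := by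
  classical
  have hX0 : X0 ≠ 0 := hT.1
  have hY0 : Y0 ≠ 0 := hT.2.1
  have hXY0 : X0 + Y0 ≠ d.κ := hT.2.2.1
  have hg1 : 1 ≤ g := by
    rw [← hg]
    exact Fintype.card_pos
  -- the lines
  have hKex : ∀ X Y, ∃ K : Finset H, (K.card : ℤ) = g - q X Y := by
    intro X Y
    obtain ⟨h1, h2⟩ := hq.bd X Y
    obtain ⟨K, -, hK⟩ := Finset.exists_subset_card_eq (s := (univ : Finset H))
      (n := (g - q X Y).toNat) (by
        rw [Finset.card_univ, hg]
        omega)
    exact ⟨K, by rw [hK]; omega⟩
  choose K hK using hKex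
  have hKu : ∀ X Y, q X Y = 0 → K X Y = univ := by
    intro X Y h
    rw [← Finset.card_eq_iff_eq_univ, hg]
    have h1 := hK X Y
    rw [h, sub_zero] at h1
    exact_mod_cast h1
  have hKe : ∀ X Y, q X Y = g → K X Y = ∅ := by
    intro X Y h
    rw [← Finset.card_eq_zero]
    have h1 := hK X Y
    rw [h, sub_self] at h1
    exact_mod_cast h1
  have hKA : ∀ X Y, ∀ p : Prop, ∀ [Decidable p], q X Y = g * ind p →
      ∀ v, ind (v ∈ K X Y) = 1 - ind p := by
    intro X Y p _ h v
    by_cases hp : p
    · rw [ind_true hp, mul_one] at h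
      rw [hKe X Y h, ind_false (Finset.notMem_empty v), ind_true hp, sub_self]
    · rw [ind_false hp, mul_zero] at h
      rw [hKu X Y h, ind_true (mem_univ v), ind_false hp, sub_zero]
  have hK0 := fun Y => hKA 0 Y (Y ∈ A) (hq.row0 Y)
  have hK1 := fun X => hKA X 0 (X ∈ A) (hq.col0 X)
  have hK2 := fun X => hKA X (d.κ - X) (X ∈ A) (hq.hole X)
  have hK3 := hKu X0 Y1 hq.free
  have hK4 := hKe X0 Y0 (hq.touched X0 Y0 hT)
  have hY01 : Y0 ≠ Y1 := by
    intro h
    rw [h, hK3] at hK4
    exact Finset.univ_nonempty.ne_empty hK4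
  -- the strip
  obtain ⟨st, hst⟩ : ∃ st : G → H → G → ℤ, ∀ X x Y, st X x Y =
      ind (X = X0) * (ind (x = δ0) * ind (Y = Y0)) := ⟨_, fun _ _ _ => rfl⟩
  obtain ⟨f, hf⟩ : ∃ f : G → H → G → H → ℤ, ∀ X x Y y, f X x Y y =
      ind (y - x ∈ K X Y) - ind (X = 0) * (ind (x ∈ d.D) * (1 - ind (Y ∈ A))) -
      ind (Y = 0) * (ind (y ∈ d.D) * (1 - ind (X ∈ A))) -
      ind (X + Y = d.κ) * (ind (x + y - d.o ∈ d.D) * (1 - ind (X ∈ A))) -
      ind (X = X0) * (ind (x = δ0) * ind (Y = Y1)) + st X x Y := ⟨_, fun _ _ _ _ => rfl⟩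
  have hkey : ∀ X x Y y, (f X x Y y = 0 ∧ st X x Y = 0) ∨
      (f X x Y y = 1 ∧ st X x Y = 1 ∧ X = X0 ∧ x = δ0 ∧ Y = Y0) ∨
      (f X x Y y = 1 ∧ st X x Y = 0 ∧ ¬ (X = 0 ∧ x ∈ d.D) ∧ ¬ (Y = 0 ∧ y ∈ d.D) ∧
        d.cell X x Y y = (X + Y, x + y)) := by
    intro X x Y y
    by_cases h1 : X = 0
    · subst h1
      have hs0 : st 0 x Y = 0 := by rw [hst, ind_false hX0.symm, zero_mul]
      have e3 : ind (Y = 0) * (ind (y ∈ d.D) * (1 - ind ((0 : G) ∈ A))) = 0 := by
        rw [ind_true hA0]
        ring
      have e4 : ind (0 + Y = d.κ) * (ind (x + y - d.o ∈ d.D) * (1 - ind ((0 : G) ∈ A))) = 0 := by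
        rw [ind_true hA0]
        ring
      have e5 : f 0 x Y y = (1 - ind (x ∈ d.D)) * (1 - ind (Y ∈ A)) := by
        rw [hf, e3, e4, hs0, hK0, ind_true rfl, ind_false hX0.symm]
        ring
      by_cases h2 : Y ∈ A
      · left
        rw [e5, ind_true h2]
        exact ⟨by ring, hs0⟩
      by_cases h3 : x ∈ d.D
      · left
        rw [e5, ind_true h3]
        exact ⟨by ring, hs0⟩
      · right; right
        rw [e5, ind_false h2, ind_false h3]
        refine ⟨by ring, hs0, fun h => h3 h.2, fun h => h2 (h.1 ▸ hA0), ?_⟩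
        rw [hd.cell_row0 (ne_of_mem_of_not_mem hAκ h2).symm (ne_of_mem_of_not_mem hAxs h2).symm,
          zero_add]
    by_cases h2 : Y = 0
    · subst h2
      have hs0 : st X x 0 = 0 := by rw [hst, ind_false hY0.symm, mul_zero, mul_zero]
      have e4 : ind (X + 0 = d.κ) * (ind (x + y - d.o ∈ d.D) * (1 - ind (X ∈ A))) = 0 := by
        by_cases h : X + 0 = d.κ
        · rw [add_zero] at h
          rw [h, ind_true hAκ]
          ring
        · rw [ind_false h, zero_mul]
      have e5 : f X x 0 y = (1 - ind (y ∈ d.D)) * (1 - ind (X ∈ A)) := by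
        rw [hf, e4, hs0, hK1, ind_false h1, ind_true rfl, ind_false hY1.symm]
        ring
      by_cases h3 : X ∈ A
      · left
        rw [e5, ind_true h3]
        exact ⟨by ring, hs0⟩
      by_cases h4 : y ∈ d.D
      · left
        rw [e5, ind_true h4]
        exact ⟨by ring, hs0⟩
      · right; right
        rw [e5, ind_false h3, ind_false h4]
        refine ⟨by ring, hs0, fun h => h1 h.1, fun h => h4 h.2, ?_⟩
        rw [hd.cell_col0 (ne_of_mem_of_not_mem hAκ h3).symm, add_zero]
    by_cases h3 : X + Y = d.κ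
    · have hYX : Y = d.κ - X := by rw [← h3]; abel
      have hs0 : st X x Y = 0 := by
        rw [hst]
        by_cases h4 : X = X0
        · have h5 : Y ≠ Y0 := by
            rintro rfl
            rw [h4] at h3
            exact hXY0 h3
          rw [ind_false h5, mul_zero, mul_zero]
        · rw [ind_false h4, zero_mul]
      have hs1 : ind (X = X0) * (ind (x = δ0) * ind (Y = Y1)) = 0 := by
        by_cases h4 : X = X0
        · have h5 : Y ≠ Y1 := by
            rintro rfl
            rw [h4] at h3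
            exact hXY1 h3
          rw [ind_false h5, mul_zero, mul_zero]
        · rw [ind_false h4, zero_mul]
      have e5 : f X x Y y = (1 - ind (x + y - d.o ∈ d.D)) * (1 - ind (X ∈ A)) := by
        rw [hf, hs1, hs0, ind_false h1, ind_false h2, ind_true h3]
        have h4 : ind (y - x ∈ K X Y) = 1 - ind (X ∈ A) := by
          rw [hYX]
          exact hK2 X _
        rw [h4]
        ring
      by_cases h4 : X ∈ A
      · left
        rw [e5, ind_true h4]
        exact ⟨by ring, hs0⟩
      by_cases h5 : x + y - d.o ∈ d.D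
      · left
        rw [e5, ind_true h5]
        exact ⟨by ring, hs0⟩
      · right; right
        rw [e5, ind_false h4, ind_false h5]
        refine ⟨by ring, hs0, fun h => h1 h.1, fun h => h2 h.1, ?_⟩
        rw [hd.cell_hole (ne_of_mem_of_not_mem hAκ h4).symm h3 h5, h3]
    · have e5 : f X x Y y = ind (y - x ∈ K X Y) - ind (X = X0) * (ind (x = δ0) * ind (Y = Y1)) +
          st X x Y := by
        rw [hf, ind_false h1, ind_false h2, ind_false h3]
        ring
      by_cases h4 : X = X0 ∧ x = δ0
      · by_cases h5 : Y = Y1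
        · left
          have hs0 : st X x Y = 0 := by
            rw [hst, h5, ind_false hY01.symm, mul_zero, mul_zero]
          rw [e5, hs0, h4.1, h4.2, h5, hK3, ind_true rfl, ind_true rfl, ind_true rfl,
            ind_true (mem_univ _)]
          exact ⟨by ring, rfl⟩
        by_cases h6 : Y = Y0
        · right; left
          have hs0 : st X x Y = 1 := by
            rw [hst, h4.1, h4.2, h6, ind_true rfl, ind_true rfl, ind_true rfl]
            ring
          rw [e5, hs0, h6, h4.1, hK4, ind_false hY01, ind_false (Finset.notMem_empty _)]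
          exact ⟨by ring, rfl, rfl, h4.2, rfl⟩
        · have hs0 : st X x Y = 0 := by
            rw [hst, ind_false h6, mul_zero, mul_zero]
          rw [ind_false h5, mul_zero, mul_zero, sub_zero, hs0, add_zero] at e5
          rw [e5, hs0]
          by_cases h7 : y - x ∈ K X Y
          · right; right
            refine ⟨ind_true h7, rfl, fun h => h1 h.1, fun h => h2 h.1, ?_⟩
            apply hd.cell_good h1 h2 h3
            by_contra h8
            rw [hKe X Y (hq.touched X Y ⟨h1, h2, h3, h8⟩)] at h7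
            exact Finset.notMem_empty _ h7
          · left
            exact ⟨ind_false h7, rfl⟩
      · have hs0 : ∀ p : Prop, ∀ [Decidable p], ind (X = X0) * (ind (x = δ0) * ind p) = 0 := by
          intro p _
          by_cases h5 : X = X0
          · rw [ind_false (fun h => h4 ⟨h5, h⟩), zero_mul, mul_zero]
          · rw [ind_false h5, zero_mul]
        rw [hs0, sub_zero] at e5
        have hs1 : st X x Y = 0 := by rw [hst, hs0]
        rw [hs1, add_zero] at e5
        rw [e5, hs1]
        by_cases h7 : y - x ∈ K X Y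
        · right; right
          refine ⟨ind_true h7, rfl, fun h => h1 h.1, fun h => h2 h.1, ?_⟩
          apply hd.cell_good h1 h2 h3
          by_contra h8
          rw [hKe X Y (hq.touched X Y ⟨h1, h2, h3, h8⟩)] at h7
          exact Finset.notMem_empty _ h7
        · left
          exact ⟨ind_false h7, rfl⟩
  obtain ⟨F, hF⟩ : ∃ F : (G × H) × (G × H) → ℤ, ∀ e, F e = f e.1.1 e.1.2 e.2.1 e.2.2 :=
    ⟨_, fun _ => rfl⟩
  have hF01 : ∀ e, F e = 0 ∨ F e = 1 := by
    intro e
    rw [hF]
    rcases hkey e.1.1 e.1.2 e.2.1 e.2.2 with h | h | h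
    · exact Or.inl h.1
    · exact Or.inr h.1
    · exact Or.inr h.1
  have hkz : (((Fintype.card G - τ) * g : ℕ) : ℤ) = g * Fintype.card G - g * τ := by
    rw [Nat.cast_mul, Nat.cast_sub hτ.le]
    ring
  have hstrip : ∀ y, d.cell X0 δ0 Y0 y = (d.M X0 Y0, δ0 + y + (d.η (d.M X0 Y0) - d.η Y0)) := by
    intro y
    rw [Dat.Ok.cell_strip hX0κ hT y hδ]
    unfold Dat.phi
    rw [if_pos hsg]
    refine Prod.ext rfl ?_
    show δ0 + y + d.η (d.M X0 Y0) - d.η Y0 = _
    abel
  refine le_kappa_of_holey d.R d.R d.S d.sq hd.holey ((Fintype.card G - τ) * g) (g * τ)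
    (Fintype.card G * g) n ?_ ?_ ?_ hn0 ?_ ?_ ?_ (univ.filter fun e => F e = 1) ?_ ?_ ?_ ?_
    (s • d.κ, s • d.o - ∑ i ∈ d.D, i) ?_ hord
    (fun e => if e.1.1 = X0 ∧ e.1.2 = δ0 ∧ e.2.1 = Y0 then τ else 0) ?_ ?_
  · have : 1 ≤ Fintype.card G - τ := by omega
    nlinarith
  · rw [Fintype.card_prod, hg]
  · have : g * τ = τ * g := mul_comm _ _
    rw [this, ← Nat.add_mul, Nat.add_sub_cancel' hτ.le]
  · unfold Dat.R
    rw [Finset.card_product, Finset.card_singleton, one_mul, hs]
    exact hn
  · unfold Dat.R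
    rw [Finset.card_product, Finset.card_singleton, one_mul, hs]
    exact hn
  · unfold Dat.S
    rw [Finset.card_product, Finset.card_singleton, one_mul,
      Finset.card_image_of_injective _ (fun a b h => add_left_cancel h), hs]
    exact hn
  · -- the cells are cells
    intro e he
    rw [mem_filter, hF] at he
    rw [d.mem_R, d.mem_R]
    rcases hkey e.1.1 e.1.2 e.2.1 e.2.2 with h | h | h
    · rw [h.1] at he
      exact absurd he.2 (by norm_num)
    · rw [h.2.2.1, h.2.2.2.2]
      exact ⟨fun h => hX0 h.1, fun h => hY0 h.1⟩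
    · exact ⟨h.2.2.1, h.2.2.2.1⟩
  · -- rows
    rintro ⟨X, x⟩ hr
    rw [d.mem_R] at hr
    have h1 := card_filter_mult F hF01 (fun e => e.1 = (X, x))
    have h2 : ∑ e : (G × H) × (G × H), F e * ind (e.1 = (X, x)) = ∑ Y, ∑ y, f X x Y y := by
      rw [Fintype.sum_prod_type]
      have h3 : ∀ r : G × H, ∑ s, F (r, s) * ind ((r, s).1 = (X, x)) =
          ind (r = (X, x)) * ∑ s, F (r, s) := by
        intro r
        rw [Finset.mul_sum]
        apply Finset.sum_congr rfl
        intro s _
        exact mul_comm _ _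
      simp only [h3]
      have h4 : ∑ r : G × H, ind (r = (X, x)) * ∑ s, F (r, s) = ∑ s, F ((X, x), s) := by
        unfold ind
        simp
      rw [h4, Fintype.sum_prod_type]
      apply Finset.sum_congr rfl
      intro Y _
      apply Finset.sum_congr rfl
      intro y _
      rw [hF]
    have h3 : ∑ Y, ∑ y, f X x Y y = g * Fintype.card G - g * τ := by
      have e0 : ∀ Y, ∑ y, f X x Y y = (g - q X Y) - g * (ind (X = X0) * (ind (x = δ0) *
          ind (Y = Y1))) + g * (ind (X = X0) * (ind (x = δ0) * ind (Y = Y0))) -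
          (s * (1 - ind (X ∈ A))) * ind (Y = 0) - (s * (1 - ind (X ∈ A))) * ind (Y = d.κ - X) := by
        intro Y
        have e2 : ind (X = 0) * ind (x ∈ d.D) = 0 := by
          by_cases h4 : X = 0
          · rw [ind_false (fun h => hr ⟨h4, h⟩), mul_zero]
          · rw [ind_false h4, zero_mul]
        have e5 : ind (X + Y = d.κ) = ind (Y = d.κ - X) := by
          apply ind_congr
          constructor
          · intro h
            rw [← h]
            abel
          · intro h
            rw [h]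
            abel
        rw [sum_form (f X x Y) (fun y => ind (y - x ∈ K X Y)) (fun y => ind (y ∈ d.D))
          (fun y => ind (x + y - d.o ∈ d.D)) (ind (X = X0) * (ind (x = δ0) * ind (Y = Y1)) -
          ind (X = X0) * (ind (x = δ0) * ind (Y = Y0))) (ind (Y = 0) * (1 - ind (X ∈ A)))
          (ind (Y = d.κ - X) * (1 - ind (X ∈ A))) (g - q X Y) s s g hg ?_ ?_ ?_ ?_]
        · ring
        · intro y
          rw [hf, hst, e5, ← mul_assoc (ind (X = 0)), e2]
          ring
        · rw [sum_ind_inj (K X Y) (fun y => y - x) (fun a b h => sub_left_inj.mp h), hK]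
        · rw [sum_ind_mem, hs]
        · rw [sum_ind_inj d.D (fun y => x + y - d.o) (fun a b h => add_left_cancel
            (sub_left_inj.mp h)), hs]
      simp only [e0, Finset.sum_add_distrib, Finset.sum_sub_distrib, ← Finset.mul_sum, sum_ind_eq,
        hq.rowSum, Finset.sum_const, Finset.card_univ]
      rw [nsmul_eq_mul]
      ring
    have h4 : ((((univ.filter fun e => F e = 1).filter (fun e => e.1 = (X, x))).card : ℕ) : ℤ) =
        (((Fintype.card G - τ) * g : ℕ) : ℤ) := by
      rw [h1, h2, h3, hkz]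
    exact_mod_cast h4
  · -- columns
    rintro ⟨Y, y⟩ hr
    rw [d.mem_R] at hr
    have h1 := card_filter_mult F hF01 (fun e => e.2 = (Y, y))
    have h2 : ∑ e : (G × H) × (G × H), F e * ind (e.2 = (Y, y)) = ∑ X, ∑ x, f X x Y y := by
      rw [Fintype.sum_prod_type]
      have h3 : ∀ r : G × H, ∑ s, F (r, s) * ind ((r, s).2 = (Y, y)) = F (r, (Y, y)) := by
        intro r
        have h4 : ∀ s : G × H, F (r, s) * ind ((r, s).2 = (Y, y)) =
          ind (s = (Y, y)) * F (r, s) := fun s => mul_comm _ _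
        simp only [h4]
        exact sum_ind_eq_mul (Y, y) (fun s => F (r, s))
      simp only [h3]
      rw [Fintype.sum_prod_type]
      apply Finset.sum_congr rfl
      intro X _
      apply Finset.sum_congr rfl
      intro x _
      rw [hF]
    have h3 : ∑ X, ∑ x, f X x Y y = g * Fintype.card G - g * τ := by
      have e0 : ∀ X, ∑ x, f X x Y y = (g - q X Y) - (s * (1 - ind (Y ∈ A))) * ind (X = 0) -
          (s * (1 - ind (Y ∈ A))) * ind (X = d.κ - Y) - ind (Y = Y1) * ind (X = X0) +
          ind (Y = Y0) * ind (X = X0) := by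
        intro X
        have e2 : ind (Y = 0) * ind (y ∈ d.D) = 0 := by
          by_cases h4 : Y = 0
          · rw [ind_false (fun h => hr ⟨h4, h⟩), mul_zero]
          · rw [ind_false h4, zero_mul]
        have e5 : ind (X + Y = d.κ) * (1 - ind (X ∈ A)) =
            ind (X = d.κ - Y) * (1 - ind (Y ∈ A)) := by
          by_cases h4 : X = d.κ - Y
          · have h5 : ind (X ∈ A) = ind (Y ∈ A) := by
              rw [h4]
              exact ind_congr (hAs Y).symm
            rw [ind_true h4, ind_true (by rw [h4]; abel), h5]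
          · rw [ind_false h4, ind_false (fun h => h4 (by rw [← h]; abel)), zero_mul, zero_mul]
        rw [sum_form (fun x => f X x Y y) (fun x => ind (y - x ∈ K X Y) +
          (ind (X = X0) * ind (Y = Y0) - ind (X = X0) * ind (Y = Y1)) * ind (x = δ0))
          (fun x => ind (x ∈ d.D))
          (fun x => ind (x + y - d.o ∈ d.D)) 0 (ind (X = 0) * (1 - ind (Y ∈ A)))
          (ind (X = d.κ - Y) * (1 - ind (Y ∈ A))) (g - q X Y + (ind (X = X0) * ind (Y = Y0) -
            ind (X = X0) * ind (Y = Y1))) s s g hg ?_ ?_ ?_ ?_]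
        · ring
        · intro x
          rw [hf, hst, ← mul_assoc (ind (Y = 0)), e2, zero_mul, ← e5]
          ring
        · simp only [Finset.sum_add_distrib, ← Finset.mul_sum, sum_ind_eq]
          rw [sum_ind_inj (K X Y) (fun x => y - x) (fun a b h => sub_right_inj.mp h), hK]
          ring
        · rw [sum_ind_mem, hs]
        · rw [sum_ind_inj d.D (fun x => x + y - d.o) (fun a b h => add_right_cancel
            (sub_left_inj.mp h)), hs]
      simp only [e0, Finset.sum_add_distrib, Finset.sum_sub_distrib, ← Finset.mul_sum, sum_ind_eq,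
        hq.colSum, Finset.sum_const, Finset.card_univ]
      rw [nsmul_eq_mul]
      ring
    have h4 : ((((univ.filter fun e => F e = 1).filter (fun e => e.2 = (Y, y))).card : ℕ) : ℤ) =
        (((Fintype.card G - τ) * g : ℕ) : ℤ) := by
      rw [h1, h2, h3, hkz]
    exact_mod_cast h4
  · -- symbols
    rintro ⟨Z, z⟩ hr
    rw [d.mem_S] at hr
    have h1 := card_filter_mult F hF01 (fun e => d.sq e.1 e.2 = (Z, z))
    have h2 : ∀ e : (G × H) × (G × H), F e * ind (d.sq e.1 e.2 = (Z, z)) =
        (F e - st e.1.1 e.1.2 e.2.1) * ind (e.1 + e.2 = (Z, z)) +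
        st e.1.1 e.1.2 e.2.1 * ind (d.sq e.1 e.2 = (Z, z)) := by
      intro e
      rw [hF]
      rcases hkey e.1.1 e.1.2 e.2.1 e.2.2 with h | h | h
      · rw [h.1, h.2]
        ring
      · rw [h.1, h.2.1]
        ring
      · have h3 : d.sq e.1 e.2 = e.1 + e.2 := h.2.2.2.2
        rw [h.1, h.2.1, h3]
        ring
    have h3 : ∑ e : (G × H) × (G × H), (F e - st e.1.1 e.1.2 e.2.1) * ind (e.1 + e.2 = (Z, z)) =
        ∑ X, ∑ x, (f X x (Z - X) (z - x) - st X x (Z - X)) := by
      rw [Fintype.sum_prod_type]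
      have h3 : ∀ r : G × H, ∑ s : G × H, (F (r, s) - st r.1 r.2 s.1) * ind (r + s = (Z, z)) =
          F (r, (Z, z) - r) - st r.1 r.2 (Z - r.1) := by
        intro r
        have h4 : ∀ s : G × H, (F (r, s) - st r.1 r.2 s.1) * ind (r + s = (Z, z)) =
            ind (s = (Z, z) - r) * (F (r, s) - st r.1 r.2 s.1) := by
          intro s
          have h5 : ind (r + s = (Z, z)) = ind (s = (Z, z) - r) := by
            apply ind_congr
            constructor
            · intro h
              rw [← h]
              abel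
            · intro h
              rw [h]
              abel
          rw [h5, mul_comm]
        simp only [h4]
        exact sum_ind_eq_mul ((Z, z) - r) (fun s => F (r, s) - st r.1 r.2 s.1)
      simp only [h3]
      rw [Fintype.sum_prod_type]
      apply Finset.sum_congr rfl
      intro X _
      apply Finset.sum_congr rfl
      intro x _
      rw [hF]
      rfl
    have h4 : ∑ e : (G × H) × (G × H), st e.1.1 e.1.2 e.2.1 * ind (d.sq e.1 e.2 = (Z, z)) =
        ind (Z = d.M X0 Y0) := by
      rw [Fintype.sum_prod_type]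
      have h3 : ∀ r : G × H, ∑ s : G × H, st r.1 r.2 s.1 * ind (d.sq r s = (Z, z)) =
          ind (r = (X0, δ0)) * ∑ s : G × H, ind (s.1 = Y0) * ind (d.sq r s = (Z, z)) := by
        intro r
        rw [Finset.mul_sum]
        apply Finset.sum_congr rfl
        intro s _
        rw [hst]
        have h4 : ind (r = (X0, δ0)) = ind (r.1 = X0) * ind (r.2 = δ0) := by
          by_cases h5 : r.1 = X0
          · by_cases h6 : r.2 = δ0
            · rw [ind_true h5, ind_true h6, ind_true (Prod.ext h5 h6)]
              rfl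
            · rw [ind_false h6, ind_false (fun h => h6 (Prod.ext_iff.mp h).2), mul_zero]
          · rw [ind_false h5, ind_false (fun h => h5 (Prod.ext_iff.mp h).1), zero_mul]
        rw [h4]
        ring
      simp only [h3]
      rw [sum_ind_eq_mul (X0, δ0) (fun r => ∑ s : G × H, ind (s.1 = Y0) * ind (d.sq r s = (Z, z))),
        Fintype.sum_prod_type]
      have h7 : ∀ Y, ∑ y, ind (((Y, y) : G × H).1 = Y0) * ind (d.sq (X0, δ0) (Y, y) = (Z, z)) =
          ind (Y = Y0) * ∑ y, ind (d.sq (X0, δ0) (Y, y) = (Z, z)) := by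
        intro Y
        rw [Finset.mul_sum]
      rw [Finset.sum_congr rfl fun Y _ => h7 Y,
        sum_ind_eq_mul Y0 (fun Y => ∑ y, ind (d.sq (X0, δ0) (Y, y) = (Z, z)))]
      have h5 : ∀ y, ind (d.sq (X0, δ0) (Y0, y) = (Z, z)) = ind (Z = d.M X0 Y0) *
          ind (y = z - (d.η (d.M X0 Y0) - d.η Y0) - δ0) := by
        intro y
        have h6 : d.sq (X0, δ0) (Y0, y) =
          (d.M X0 Y0, δ0 + y + (d.η (d.M X0 Y0) - d.η Y0)) := hstrip y
        rw [h6]
        by_cases h7 : Z = d.M X0 Y0
        · rw [ind_true h7, one_mul]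
          apply ind_congr
          constructor
          · intro h
            have h8 : δ0 + y + (d.η (d.M X0 Y0) - d.η Y0) = z := (Prod.ext_iff.mp h).2
            rw [← h8]
            abel
          · intro h
            refine Prod.ext h7.symm ?_
            show δ0 + y + (d.η (d.M X0 Y0) - d.η Y0) = z
            rw [h]
            abel
        · rw [ind_false h7, ind_false (fun h => h7 (Prod.ext_iff.mp h).1.symm), zero_mul]
      simp only [h5, ← Finset.mul_sum, sum_ind_eq, mul_one]
    have h5 : ∑ X, ∑ x, (f X x (Z - X) (z - x) - st X x (Z - X)) =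
        g * Fintype.card G - g * τ - ind (Z = d.M X0 Y0) := by
      have e0 : ∀ X, ∑ x, (f X x (Z - X) (z - x) - st X x (Z - X)) = (g - q X (Z - X)) -
          (s * (1 - ind (Z ∈ A))) * ind (X = 0) -
          (s * (1 - ind (Z ∈ A))) * ind (X = Z) - ind (Z = X0 + Y1) * ind (X = X0) := by
        intro X
        have e2 : ∀ x, ind (X + (Z - X) = d.κ) * (ind (x + (z - x) - d.o ∈ d.D) *
            (1 - ind (X ∈ A))) = 0 := by
          intro x
          rw [add_sub_cancel, add_sub_cancel]
          by_cases h4 : Z = d.κ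
          · rw [ind_false (fun h => hr ⟨h4, h⟩), zero_mul, mul_zero]
          · rw [ind_false h4, zero_mul]
        have e3 : ind (X = 0) * (1 - ind (Z - X ∈ A)) = ind (X = 0) * (1 - ind (Z ∈ A)) := by
          by_cases h4 : X = 0
          · rw [h4, sub_zero]
          · rw [ind_false h4, zero_mul, zero_mul]
        have e4 : ind (Z - X = 0) * (1 - ind (X ∈ A)) = ind (X = Z) * (1 - ind (Z ∈ A)) := by
          by_cases h4 : X = Z
          · rw [h4, sub_self, ind_true rfl, ind_true rfl]
          · rw [ind_false h4, ind_false (fun h => h4 (sub_eq_zero.mp h).symm), zero_mul, zero_mul]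
        have e5 : ind (X = X0) * ind (Z - X = Y1) = ind (Z = X0 + Y1) * ind (X = X0) := by
          by_cases h4 : X = X0
          · rw [h4, ind_true rfl, one_mul, mul_one]
            apply ind_congr
            rw [sub_eq_iff_eq_add, add_comm]
          · rw [ind_false h4, zero_mul, mul_zero]
        rw [sum_form (fun x => f X x (Z - X) (z - x) - st X x (Z - X))
          (fun x => ind (z - x - x ∈ K X (Z - X)) - (ind (Z = X0 + Y1) * ind (X = X0)) *
            ind (x = δ0)) (fun x => ind (x ∈ d.D))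
          (fun x => ind (z - x ∈ d.D)) 0 (ind (X = 0) * (1 - ind (Z ∈ A)))
          (ind (X = Z) * (1 - ind (Z ∈ A))) (g - q X (Z - X) - ind (Z = X0 + Y1) * ind (X = X0))
          s s g hg ?_ ?_ ?_ ?_]
        · ring
        · intro x
          show f X x (Z - X) (z - x) - st X x (Z - X) = _
          rw [hf, e2, ← e3, ← e4, ← e5]
          ring
        · simp only [Finset.sum_sub_distrib, ← Finset.mul_sum, sum_ind_eq]
          rw [sum_ind_inj (K X (Z - X)) (fun x => z - x - x) (fun a b h => ?_), hK]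
          · ring
          · apply two_inj_of_odd hH
            have h6 : z - a - a = z - b - b := h
            rw [sub_sub, sub_sub] at h6
            exact sub_right_inj.mp h6
        · rw [sum_ind_mem, hs]
        · rw [sum_ind_inj d.D (fun x => z - x) (fun a b h => sub_right_inj.mp h), hs]
      simp only [e0, Finset.sum_sub_distrib, ← Finset.mul_sum, sum_ind_eq, hq.symSum,
        Finset.sum_const, Finset.card_univ]
      rw [nsmul_eq_mul]
      ring
    have h6 : ((((univ.filter fun e => F e = 1).filter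
        (fun e => d.sq e.1 e.2 = (Z, z))).card : ℕ) : ℤ) =
        (((Fintype.card G - τ) * g : ℕ) : ℤ) := by
      rw [h1]
      simp only [h2, Finset.sum_add_distrib]
      rw [h3, h4, h5, hkz]
      ring
    exact_mod_cast h6
  · -- the defect
    have h1 : ∑ a : G × H, a = 0 := sum_prod_zero hGs (sum_univ_of_odd hH)
    rw [h1, add_zero]
    have h2 : ∑ a ∈ d.R, a = (0, ∑ i ∈ d.D, i) := by
      unfold Dat.R
      rw [Finset.sum_product, Finset.sum_singleton]
      refine Prod.ext ?_ ?_
      · rw [Prod.fst_sum]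
        exact Finset.sum_const_zero
      · rw [Prod.snd_sum]
    have h3 : ∑ a ∈ d.S, a = (s • d.κ, s • d.o + ∑ i ∈ d.D, i) := by
      unfold Dat.S
      rw [Finset.sum_product, Finset.sum_singleton,
        Finset.sum_image (fun a _ b _ h => add_left_cancel h)]
      refine Prod.ext ?_ ?_
      · rw [Prod.fst_sum]
        simp only [Finset.sum_const, hs]
      · rw [Prod.snd_sum]
        show ∑ x ∈ d.D, (d.o + x) = s • d.o + ∑ i ∈ d.D, i
        rw [Finset.sum_add_distrib, Finset.sum_const, hs]
    rw [h2, h3]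
    refine Prod.ext ?_ ?_
    · show s • d.κ + (0 + 0) = s • d.κ
      abel
    · show (s • d.o - ∑ i ∈ d.D, i) + ((∑ i ∈ d.D, i) + ∑ i ∈ d.D, i) =
        s • d.o + ∑ i ∈ d.D, i
      abel
  · -- the excesses
    rintro ⟨⟨X, x⟩, ⟨Y, y⟩⟩ he
    rw [mem_filter, hF] at he
    show d.cell X x Y y = (X, x) + (Y, y) + (if X = X0 ∧ x = δ0 ∧ Y = Y0 then τ else 0) • _
    rcases hkey X x Y y with h | h | h
    · have h1 := he.2
      rw [show f X x Y y = 0 from h.1] at h1
      exact absurd h1 (by norm_num)
    · obtain ⟨-, -, h1, h2, h3⟩ := h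
      rw [if_pos ⟨h1, h2, h3⟩, h1, h2, h3, hstrip y, hex2]
      refine Prod.ext ?_ ?_
      · show d.M X0 Y0 = X0 + Y0 + τ • (s • d.κ)
        rw [hex1, mul_smul]
      · rfl
    · have h1 : ¬ (X = X0 ∧ x = δ0 ∧ Y = Y0) := by
        rintro ⟨h1, h2, h3⟩
        have h4 := h.2.1
        rw [hst, h1, h2, h3, ind_true rfl, ind_true rfl, ind_true rfl] at h4
        norm_num at h4
      rw [if_neg h1, zero_smul, add_zero, h.2.2.2.2]
      rfl
  · -- the total excess
    refine (Finset.sum_le_sum_of_subset (Finset.subset_univ _)).trans ?_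
    rw [← Finset.sum_filter, Finset.sum_const, smul_eq_mul]
    apply Nat.mul_le_mul_right
    have h1 : (univ.filter fun e : (G × H) × (G × H) => e.1.1 = X0 ∧ e.1.2 = δ0 ∧ e.2.1 = Y0) ⊆
        (univ : Finset H).image fun y => ((X0, δ0), (Y0, y)) := by
      rintro ⟨⟨X, x⟩, ⟨Y, y⟩⟩ he
      obtain ⟨h1, h2, h3⟩ := (mem_filter.mp he).2
      simp only at h1 h2 h3
      rw [mem_image]
      exact ⟨y, mem_univ _, by rw [h1, h2, h3]⟩
    refine (Finset.card_le_card h1).trans (Finset.card_image_le.trans ?_)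
    rw [Finset.card_univ, hg]

end Pool.Agent.Lib.MP_185394_co.All
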