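import Pool.Agent.Lib.MP_185394_co.All.Base
import Pool.Agent.Lib.MP_185394_co.All.Plex

/-!
The large indivisible plexes: everything put together.
-/

namespace Pool.Agent.Lib.MP_185394_co.All

open Finset

set_option linter.unusedSectionVars false

lemma exists_sub_sum {g s : ℕ} [NeZero g] (hs : 2 ≤ s) (hg : 2 * s + 1 ≤ g) (hodd : Odd g)
    (c : ZMod g) : ∃ D : Finset (ZMod g), D.card = s ∧ ∑ i ∈ D, i = c := by
  classical
  obtain ⟨D0, -, hD0⟩ := Finset.exists_subset_card_eq (s := (univ : Finset (ZMod g)))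
    (n := s - 2) (by rw [Finset.card_univ, ZMod.card]; omega)
  obtain ⟨c', hc'⟩ : ∃ c', c' = c - ∑ i ∈ D0, i := ⟨_, rfl⟩
  obtain ⟨t, ht⟩ : ∃ t, t ∉ D0 ∪ (D0.image (fun i => c' - i) ∪
      univ.filter fun t => t + t = c') := by
    by_contra hno
    push Not at hno
    have h1 : (D0 ∪ (D0.image (fun i => c' - i) ∪ univ.filter fun t => t + t = c')) = univ := by
      ext t
      simp only [mem_univ, iff_true]
      exact hno t
    have h2 := congrArg Finset.card h1
    rw [Finset.card_univ, ZMod.card] at h2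
    have h3 := Finset.card_union_le D0 (D0.image (fun i => c' - i) ∪
      univ.filter fun t => t + t = c')
    have h4 := Finset.card_union_le (D0.image (fun i => c' - i))
      (univ.filter fun t => t + t = c')
    have h5 : (D0.image (fun i => c' - i)).card ≤ D0.card := Finset.card_image_le
    have h6 := card_double_odd hodd c'
    omega
  simp only [mem_union, mem_image, mem_filter, mem_univ, true_and, not_or, not_exists,
    not_and] at ht
  obtain ⟨h1, h2, h3⟩ := ht
  have h4 : c' - t ∉ D0 := fun h => h2 _ h (by rw [sub_sub_cancel])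
  have h5 : t ∉ insert (c' - t) D0 := by
    rw [mem_insert, not_or]
    exact ⟨fun h => h3 (by linear_combination h), h1⟩
  refine ⟨insert t (insert (c' - t) D0), ?_, ?_⟩
  · rw [Finset.card_insert_of_notMem h5, Finset.card_insert_of_notMem h4, hD0]
    omega
  · rw [Finset.sum_insert h5, Finset.sum_insert h4, hc']
    ring

section

variable {G : Type} [AddCommGroup G] [Fintype G] [DecidableEq G]

lemma exists_sym_set {κ xs : G} (hxs : xs + xs = κ) (huniq : ∀ x, x + x = κ → x = xs)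
    (h0 : κ ≠ 0) (hx0 : xs ≠ 0) (hxκ : xs ≠ κ) (j : ℕ)
    (hj : 2 * j + 3 ≤ Fintype.card G) :
    ∃ A : Finset G, A.card = 2 * j + 3 ∧ 0 ∈ A ∧ κ ∈ A ∧ xs ∈ A ∧ ∀ X, X ∈ A ↔ κ - X ∈ A := by
  induction j with
  | zero =>
    refine ⟨{0, κ, xs}, ?_, by simp, by simp, by simp, ?_⟩
    · rw [Finset.card_insert_of_notMem, Finset.card_insert_of_notMem, Finset.card_singleton]
      · rw [mem_singleton]
        exact hxκ.symm
      · rw [mem_insert, mem_singleton, not_or]
        exact ⟨h0.symm, hx0.symm⟩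
    · intro X
      simp only [mem_insert, mem_singleton]
      constructor
      · rintro (h | h | h)
        · right; left
          rw [h, sub_zero]
        · left
          rw [h, sub_self]
        · right; right
          rw [h, ← hxs]
          abel
      · rintro (h | h | h)
        · right; left
          exact (sub_eq_zero.mp h).symm
        · left
          exact sub_eq_self.mp h
        · right; right
          have : X = κ - (κ - X) := by abel
          rw [this, h, ← hxs]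
          abel
  | succ j ih =>
    obtain ⟨A, h1, h2, h3, h4, h5⟩ := ih (by omega)
    obtain ⟨X, hX⟩ : ∃ X, X ∉ A := by
      by_contra hno
      push Not at hno
      have h6 : A = univ := by
        ext X
        simp [hno X]
      rw [h6, Finset.card_univ] at h1
      omega
    have hX' : κ - X ∉ A := fun h => hX ((h5 X).mpr h)
    have hXX : X ≠ κ - X := by
      intro h
      have h6 : X + X = κ := by
        nth_rewrite 1 [h]
        abel
      exact hX (huniq X h6 ▸ h4)
    refine ⟨insert X (insert (κ - X) A), ?_, by simp [h2], by simp [h3], by simp [h4], ?_⟩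
    · rw [Finset.card_insert_of_notMem, Finset.card_insert_of_notMem hX', h1]
      · ring
      · rw [mem_insert, not_or]
        exact ⟨hXX, hX⟩
    · intro Y
      simp only [mem_insert]
      have e1 : ∀ U V : G, U = κ - V ↔ κ - U = V := by
        intro U V
        constructor
        · intro h
          rw [h]
          abel
        · intro h
          rw [← h]
          abel
      rw [h5 Y]
      constructor
      · rintro (h | h | h)
        · right; left
          rw [h]
        · left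
          rw [h]
          abel
        · exact Or.inr (Or.inr h)
      · rintro (h | h | h)
        · right; left
          exact (e1 Y X).mpr h
        · left
          have : Y = κ - (κ - Y) := by abel
          rw [this, h]
          abel
        · exact Or.inr (Or.inr h)

lemma exists_signs {κ xs Y0 Z0 : G} (huniq : ∀ x, x + x = κ → x = xs) (h1 : Z0 ≠ Y0)
    (h2 : Z0 ≠ κ - Y0) (h3 : Z0 ≠ κ - Z0) :
    ∃ sg : G → Bool, (∀ X, X ≠ xs → sg (κ - X) ≠ sg X) ∧ sg Y0 = sg Z0 := by
  classical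
  let e : G ≃ Fin (Fintype.card G) := Fintype.equivFin G
  let sg0 : G → Bool := fun X => decide (e X < e (κ - X))
  have hsg0 : ∀ X, X ≠ xs → sg0 (κ - X) ≠ sg0 X := by
    intro X hX
    have h4 : X ≠ κ - X := by
      intro h
      apply hX
      apply huniq
      nth_rewrite 1 [h]
      abel
    have h5 : e X ≠ e (κ - X) := fun h => h4 (e.injective h)
    simp only [sg0, sub_sub_cancel]
    rcases lt_or_gt_of_ne h5 with h | h
    · rw [decide_eq_true h, decide_eq_false (not_lt.mpr h.le)]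
      exact Bool.false_ne_true
    · rw [decide_eq_true h, decide_eq_false (not_lt.mpr h.le)]
      exact Bool.false_ne_true.symm
  let sg : G → Bool := fun X => if X = Z0 then sg0 Y0 else if X = κ - Z0 then !(sg0 Y0) else sg0 X
  have e1 : sg Z0 = sg0 Y0 := if_pos rfl
  have e2 : sg (κ - Z0) = !(sg0 Y0) := by
    simp only [sg]
    rw [if_neg h3.symm, if_pos trivial]
  have e3 : ∀ X, X ≠ Z0 → X ≠ κ - Z0 → sg X = sg0 X := by
    intro X hX hX'
    simp only [sg]
    rw [if_neg hX, if_neg hX']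
  refine ⟨sg, ?_, ?_⟩
  · intro X hX
    by_cases g1 : X = Z0
    · rw [g1, e1, e2]
      cases sg0 Y0 <;> decide
    by_cases g2 : X = κ - Z0
    · rw [g2, sub_sub_cancel, e1, e2]
      cases sg0 Y0 <;> decide
    · rw [e3 X g1 g2, e3 (κ - X) (fun h => g2 (by rw [← h]; abel)) (fun h => g1 (by
        have : X = κ - (κ - X) := by abel
        rw [this, h]
        abel))]
      exact hsg0 X hX
  · rw [e1, e3 Y0 h1.symm]
    intro h
    apply h2
    rw [h]
    abel

end

/-- The lower bound. -/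
theorem kappa_ge {h γ s g : ℕ} (hp : γ.Prime) (hh : 200 ≤ h)
    (hγ : h * (2 * h) + (h * (2 * h * (2 * h)) + h * (2 * h * (2 * h))) + 2 ≤ γ)
    (hs : 2 ≤ s) (hsb : Nat.Coprime s ((2 * h + 1) * γ)) (hg : Odd g)
    (hgb : Nat.Coprime ((2 * h + 1) * γ) g) (hg1 : 238 * ((2 * h + 1) * γ) ^ 3 ≤ g)
    (hgs : 2 * s + 1 ≤ g) :
    ∃ τ ≤ 41 * γ, ((2 * h + 1) * γ - τ) * g ≤ kappa ((2 * h + 1) * γ * g - s) := by
  classical
  have hγh : 400 * h ≤ γ := by
    have h1 : 200 * (2 * h) ≤ h * (2 * h) := Nat.mul_le_mul_right _ hh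
    omega
  have : NeZero γ := ⟨by omega⟩
  have : NeZero (2 * h + 1) := ⟨by omega⟩
  have : NeZero g := ⟨by omega⟩
  have : Fact γ.Prime := ⟨hp⟩
  have : Fact (1 < g) := ⟨by omega⟩
  obtain ⟨β, hβ⟩ : ∃ β, β = 2 * h + 1 := ⟨_, rfl⟩
  have hγs : ¬ γ ∣ s := by
    intro h'
    have h1 : γ ∣ Nat.gcd s ((2 * h + 1) * γ) := Nat.dvd_gcd h' (Dvd.intro_left _ rfl)
    rw [hsb] at h1
    exact hp.one_lt.ne' (Nat.dvd_one.mp h1)
  have hγβ : ¬ γ ∣ 2 * h + 1 := by
    intro h'
    have := Nat.le_of_dvd (by omega) h'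
    omega
  -- the excess
  obtain ⟨q0, hq0⟩ : ∃ q0, q0 = (40 * γ + 62) / (2 * (2 * h + 1)) := ⟨_, rfl⟩
  have hq1 : 40 * γ + 62 < 2 * (2 * h + 1) * (q0 + 1) := by
    rw [hq0]
    exact Nat.lt_mul_div_succ (40 * γ + 62) (by omega)
  have hq2 : 2 * (2 * h + 1) * q0 ≤ 40 * γ + 62 := by
    rw [hq0]
    exact Nat.mul_div_le _ _
  obtain ⟨w, hw⟩ : ∃ w, w = 2 * q0 + 3 := ⟨_, rfl⟩
  obtain ⟨τ, hτ⟩ : ∃ τ, τ = (2 * h + 1) * w := ⟨_, rfl⟩
  have hτ' : τ = 2 * (2 * h + 1) * q0 + 3 * (2 * h + 1) := by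
    rw [hτ, hw]
    ring
  have hτlo : 40 * γ + 62 ≤ τ := by
    have : 2 * (2 * h + 1) * (q0 + 1) = 2 * (2 * h + 1) * q0 + 2 * (2 * h + 1) := by ring
    omega
  have hτhi : τ ≤ 41 * γ := by omega
  have hwγ : w < γ := by
    have h1 : (2 * h + 1) * w ≤ 41 * γ := hτ ▸ hτhi
    by_contra h2
    push Not at h2
    have h3 : 401 * γ ≤ (2 * h + 1) * w := Nat.mul_le_mul (by omega) h2
    omega
  have hτγ : ¬ γ ∣ τ := by
    intro h'
    rw [hτ] at h'
    rcases (hp.dvd_mul).mp h' with h1 | h1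
    · exact hγβ h1
    · have := Nat.le_of_dvd (by omega) h1
      omega
  obtain ⟨e, he⟩ : ∃ e : ZMod γ, e = ((τ * s : ℕ) : ZMod γ) := ⟨_, rfl⟩
  have he0 : e ≠ 0 := by
    rw [he]
    intro h'
    rw [ZMod.natCast_eq_zero_iff] at h'
    rcases (hp.dvd_mul).mp h' with h1 | h1
    · exact hτγ h1
    · exact hγs h1
  obtain ⟨M, X0, Y0, Y1, hB⟩ := exists_base hp (by omega) hγ e he0
  obtain ⟨κ, hκ⟩ : ∃ κ : ZMod (2 * h + 1) × ZMod γ, κ = (1, 1) := ⟨_, rfl⟩
  rw [← hκ] at hB
  have hcardG : Fintype.card (ZMod (2 * h + 1) × ZMod γ) = (2 * h + 1) * γ := by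
    rw [Fintype.card_prod, ZMod.card, ZMod.card]
  have hco : Nat.Coprime (2 * h + 1) γ := by
    rw [Nat.coprime_comm]
    exact (Nat.Prime.coprime_iff_not_dvd hp).mpr hγβ
  have hord : addOrderOf κ = (2 * h + 1) * γ := by
    rw [hκ, Prod.addOrderOf_mk, ZMod.addOrderOf_one, ZMod.addOrderOf_one,
      Nat.Coprime.lcm_eq_mul hco]
  have hoddγ : Odd γ := hp.odd_of_ne_two (by omega)
  have hoddG : Odd (Fintype.card (ZMod (2 * h + 1) × ZMod γ)) := by
    rw [hcardG]
    exact Odd.mul ⟨h, rfl⟩ hoddγ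
  have hτs : (τ * s) • κ = (0, e) := by
    rw [hκ]
    refine Prod.ext ?_ ?_
    · show (τ * s) • (1 : ZMod (2 * h + 1)) = 0
      rw [nsmul_one, hτ, ZMod.natCast_eq_zero_iff]
      exact Dvd.intro _ (by rw [mul_assoc])
    · show (τ * s) • (1 : ZMod γ) = e
      rw [nsmul_one, he]
  -- the half of `κ`
  have hinj : Function.Injective (fun x : ZMod (2 * h + 1) × ZMod γ => x + x) :=
    fun a b h' => two_inj_of_odd hoddG a b h'
  obtain ⟨xs, hxs⟩ := (Finite.injective_iff_surjective.mp hinj) κ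
  simp only at hxs
  have huniq : ∀ x, x + x = κ → x = xs := fun x hx => hinj (hx.trans hxs.symm)
  have hκ0 : κ ≠ 0 := by
    rintro rfl
    rw [addOrderOf_zero] at hord
    have : (2 * h + 1) * 1 ≤ (2 * h + 1) * γ := Nat.mul_le_mul_left _ (by omega)
    omega
  have hκ2 : κ + κ ≠ 0 := by
    intro h'
    apply hκ0
    exact two_inj_of_odd hoddG κ 0 (by rw [h', add_zero])
  -- the deleted elements
  obtain ⟨D, hD1, hD2⟩ := exists_sub_sum hs hgs hg ((s : ZMod g) - 1)
  obtain ⟨Λ, hΛ1, hΛ2, hΛ3⟩ := exists_latin_outside D (1 : ZMod g) (by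
    rw [hD1, ZMod.card]
    omega)
  obtain ⟨δ0, hδ0⟩ : D.Nonempty := by
    rw [← Finset.card_pos, hD1]
    omega
  obtain ⟨sg, hsg1, hsg2⟩ := exists_signs huniq hB.ne1 hB.ne2 hB.ne3
  obtain ⟨θ, hθ⟩ : ∃ θ : ZMod g, θ = τ • (1 : ZMod g) := ⟨_, rfl⟩
  let η : ZMod (2 * h + 1) × ZMod γ → ZMod g := fun X =>
    if X = M X0 Y0 then θ else if X = κ - M X0 Y0 then -θ else 0
  have η1 : η (M X0 Y0) = θ := if_pos rfl
  have η2 : η (κ - M X0 Y0) = -θ := by
    simp only [η]
    rw [if_neg hB.ne3.symm, if_pos trivial]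
  have η3 : ∀ X, X ≠ M X0 Y0 → X ≠ κ - M X0 Y0 → η X = 0 := by
    intro X hX hX'
    simp only [η]
    rw [if_neg hX, if_neg hX']
  let d : Dat (ZMod (2 * h + 1) × ZMod γ) (ZMod g) :=
    { κ := κ, xs := xs, o := 1, M := M, D := D, sg := sg, η := η, Λ := Λ }
  have hxs0 : xs ≠ 0 := by
    rintro rfl
    exact hκ0 (by rw [← hxs, add_zero])
  have hxsκ : xs ≠ κ := by
    intro h'
    rw [h'] at hxs
    exact hκ0 (add_eq_left.mp hxs)
  have hd : d.Ok :=
    { ne := hB.punct.ne
      row := hB.punct.row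
      col := hB.punct.col
      kk := hB.kk
      hole := hB.hole
      k0 := hκ0
      k2 := hκ2
      xs2 := hxs
      sg := hsg1
      η := by
        intro X _
        show η (κ - X) + η X = 0
        by_cases g1 : X = M X0 Y0
        · rw [g1, η1, η2]
          exact neg_add_cancel θ
        by_cases g2 : X = κ - M X0 Y0
        · rw [g2, sub_sub_cancel, η1, η2]
          exact add_neg_cancel θ
        · rw [η3 X g1 g2, η3 (κ - X) (fun h => g2 (by rw [← h]; abel)) (fun h => g1 (by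
            have : X = κ - (κ - X) := by abel
            rw [this, h]
            abel)), add_zero]
      two := fun x y h' => two_inj_of_odd (by rw [ZMod.card]; exact hg) x y h'
      Λne := hΛ1
      Λrow := hΛ2
      Λcol := hΛ3 }
  -- the blocks left out
  have h401 : 401 * γ ≤ (2 * h + 1) * γ := Nat.mul_le_mul_right γ (by omega)
  obtain ⟨A, hA1, hA2, hA3, hA4, hA5⟩ := exists_sym_set hxs huniq hκ0 hxs0 hxsκ
    ((τ - 3) / 2) (by
      rw [hcardG]
      omega)
  have hτodd : 2 * ((τ - 3) / 2) + 3 = τ := by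
    have : Odd τ := by
      rw [hτ]
      exact Odd.mul ⟨h, rfl⟩ ⟨q0 + 1, by rw [hw]; ring⟩
    obtain ⟨j, hj⟩ := this
    omega
  rw [hτodd] at hA1
  have hGs := sum_univ_of_odd hoddG
  have hA6 : ∑ X ∈ A, X + ∑ X ∈ A, X = τ • κ := by
    have h1 : ∑ X ∈ A, X = ∑ X ∈ A, (κ - X) := by
      apply Finset.sum_bij (fun X _ => κ - X)
      · intro X hX
        exact (hA5 X).mp hX
      · intro X _ Y _ h'
        exact sub_right_inj.mp h'
      · intro X hX
        exact ⟨κ - X, (hA5 X).mp hX, by abel⟩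
      · intro X _
        abel
    nth_rewrite 1 [h1]
    rw [Finset.sum_sub_distrib, Finset.sum_const, hA1]
    abel
  have hMXY : M X0 Y0 = X0 + Y0 + (τ * s) • κ := by rw [hτs]; exact hB.exc
  obtain ⟨q, hq⟩ := exists_isWeight (κ := κ) (M := M) hB.punct.ne hB.punct.row hB.punct.col
    (fun X Y h' => h'.1.2.2.2) hB.dense (by rw [hcardG]; omega) (by rw [hcardG]; omega) τ s A hA1
    hA2 hA3 hA6 hGs X0 Y0 (M X0 Y0) Y1 hB.touched.1 hB.touched.2.1 hB.good.2.1
    (hB.punct.ne _ _ hB.touched.1 hB.touched.2.1) hB.good.2.2.1 hMXY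
    (fun h' => h'.2 ⟨rfl, rfl⟩) hB.good.2.2.2 (by omega) (by rw [hcardG]; omega) g
    (by rw [hcardG]; exact hg1) hgs
  refine ⟨τ, hτhi, ?_⟩
  have hgle : g ≤ (2 * h + 1) * γ * g := Nat.le_mul_of_pos_left g
    (Nat.mul_pos (by omega) (by omega))
  have hμ : s • (1 : ZMod g) - ∑ i ∈ D, i = 1 := by
    rw [hD2, nsmul_one]
    ring
  have key := le_kappa_of_weight (d := d) hd A τ g s (ZMod.card g) hD1 hA2 hA3 hA4 hA5 hGs
    (by rw [ZMod.card]; exact hg) X0 Y0 Y1 hB.X0κ hB.good.2.1 hB.good.2.2.1 hB.touched δ0 hδ0 q hq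
    hsg2 hMXY ?_ ?_ (by rw [hcardG]; omega) ((2 * h + 1) * γ * g - s)
    (by rw [hcardG]; omega) (by omega)
  · rw [hcardG] at key
    exact key
  · show η (M X0 Y0) - η Y0 = τ • (s • (1 : ZMod g) - ∑ i ∈ D, i)
    rw [hμ, η1, η3 Y0 hB.ne1.symm (fun h' => hB.ne2 (eq_sub_iff_add_eq.mpr
      ((add_comm _ _).trans (eq_sub_iff_add_eq.mp h')))), sub_zero, hθ]
  · show addOrderOf ((s • κ, s • (1 : ZMod g) - ∑ i ∈ D, i) :
      (ZMod (2 * h + 1) × ZMod γ) × ZMod g) = _
    rw [hμ, Prod.addOrderOf_mk, ZMod.addOrderOf_one, hcardG,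
      Nat.Coprime.addOrderOf_nsmul (by rw [hord]; exact hsb.symm), hord,
      Nat.Coprime.lcm_eq_mul hgb]

end Pool.Agent.Lib.MP_185394_co.All
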