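import Pool.Agent.Lib.MP_185394_co.Near.Jobs

/-!
The class permutations of the special rows, for an odd number of classes.
-/

namespace Pool.Agent.Lib.MP_185394_co.All

open Finset Near

set_option linter.unusedSectionVars false

/-- the special rows of the first type -/
def jobsP (h : ℕ) : Finset (ℕ × ℕ) := range h ×ˢ Ico 1 (2 * h - 1)

/-- the special rows of the second type -/
def jobsQ (h : ℕ) : Finset (ℕ × ℕ × ℕ) :=
  (Ico 2 (h + 1) ×ˢ (Ico 1 (2 * h) ×ˢ Ico 2 (2 * h + 1))).filter fun x =>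
    ¬ (x.1 ≤ x.2.1 ∧ x.2.1 < 2 * h + 2 - x.1 ∧ x.1 ≤ x.2.2 ∧ x.2.2 < 2 * h + 2 - x.1)

/-- the special rows of the third type -/
def jobsR (h : ℕ) : Finset (ℕ × ℕ × ℕ) := range h ×ˢ (Ico 2 (2 * h - 1) ×ˢ Ico 2 (2 * h + 1))

lemma tele' (k : ℕ → ℤ) {a b : ℕ} (hab : a ≤ b) :
    ∑ z ∈ Ico a b, (k (z + 1) - k z) = k b - k a := by
  have := tele k hab
  have h3 : ∑ z ∈ Ico a b, (k (z + 1) - k z) = - ∑ z ∈ Ico a b, (k z - k (z + 1)) := by
    rw [← Finset.sum_neg_distrib]
    apply Finset.sum_congr rfl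
    intro z _
    ring
  rw [h3, this]
  ring

lemma tele2 (f : ℕ → ℤ) {a b : ℕ} (hab : a ≤ b) :
    ∑ n ∈ Ico a b, (f n - f (n + 2)) = f a + f (a + 1) - f b - f (b + 1) := by
  induction b, hab using Nat.le_induction with
  | base => simp
  | succ b hb ih =>
    rw [Finset.sum_Ico_succ_top hb, ih]
    ring

lemma sum_jobsQ (f k : ℕ → ℤ) {h : ℕ} (hh : 2 ≤ h) :
    ∑ x ∈ jobsQ h, (f x.2.1 - f (x.2.1 + 1)) * (k (x.2.2 + 1) - k x.2.2) =
      (h - 1) * ((f 1 - f (2 * h)) * (k (2 * h + 1) - k 2)) +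
      ∑ C ∈ Ico 2 (h + 1), (f C - f (2 * h + 2 - C)) * (k C - k (2 * h + 2 - C)) := by
  unfold jobsQ
  rw [Finset.sum_filter, Finset.sum_product]
  have key : ∀ C ∈ Ico 2 (h + 1), (∑ x ∈ Ico 1 (2 * h) ×ˢ Ico 2 (2 * h + 1),
      if ¬ ((C, x).1 ≤ (C, x).2.1 ∧ (C, x).2.1 < 2 * h + 2 - (C, x).1 ∧ (C, x).1 ≤ (C, x).2.2 ∧
        (C, x).2.2 < 2 * h + 2 - (C, x).1)
      then (f (C, x).2.1 - f ((C, x).2.1 + 1)) * (k ((C, x).2.2 + 1) - k (C, x).2.2) else 0) =
      (f 1 - f (2 * h)) * (k (2 * h + 1) - k 2) +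
      (f C - f (2 * h + 2 - C)) * (k C - k (2 * h + 2 - C)) := by
    intro C hC
    rw [Finset.mem_Ico] at hC
    rw [← Finset.sum_filter]
    have e1 : ∑ x ∈ (Ico 1 (2 * h) ×ˢ Ico 2 (2 * h + 1)).filter (fun x =>
        ¬ (C ≤ x.1 ∧ x.1 < 2 * h + 2 - C ∧ C ≤ x.2 ∧ x.2 < 2 * h + 2 - C)),
        (f x.1 - f (x.1 + 1)) * (k (x.2 + 1) - k x.2) =
        ∑ x ∈ Ico 1 (2 * h) ×ˢ Ico 2 (2 * h + 1), (f x.1 - f (x.1 + 1)) * (k (x.2 + 1) - k x.2) -
        ∑ x ∈ Ico C (2 * h + 2 - C) ×ˢ Ico C (2 * h + 2 - C),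
          (f x.1 - f (x.1 + 1)) * (k (x.2 + 1) - k x.2) := by
      rw [eq_sub_iff_add_eq, add_comm, ← Finset.sum_filter_add_sum_filter_not
        (Ico 1 (2 * h) ×ˢ Ico 2 (2 * h + 1)) (fun x => C ≤ x.1 ∧ x.1 < 2 * h + 2 - C ∧ C ≤ x.2 ∧
          x.2 < 2 * h + 2 - C)]
      congr 1
      apply Finset.sum_congr _ (fun _ _ => rfl)
      ext ⟨y, z⟩
      simp only [Finset.mem_product, Finset.mem_Ico, Finset.mem_filter]
      omega
    refine e1.trans ?_
    rw [sum_rect (fun y => f y - f (y + 1)) (fun z => k (z + 1) - k z),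
      sum_rect (fun y => f y - f (y + 1)) (fun z => k (z + 1) - k z), tele f (by omega),
      tele f (by omega), tele' k (by omega), tele' k (by omega)]
    ring
  refine (Finset.sum_congr rfl key).trans ?_
  rw [Finset.sum_add_distrib, Finset.sum_const, Nat.card_Ico, nsmul_eq_mul]
  have : ((h + 1 - 2 : ℕ) : ℤ) = h - 1 := by omega
  rw [this]

lemma sum_jobsR (f k : ℕ → ℤ) {h : ℕ} (hh : 2 ≤ h) :
    ∑ x ∈ jobsR h, (f x.2.1 - f (x.2.1 + 1)) * (k (x.2.2 + 1) - k x.2.2) =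
      h * ((f 2 - f (2 * h - 1)) * (k (2 * h + 1) - k 2)) := by
  unfold jobsR
  rw [Finset.sum_product]
  have key : ∀ C ∈ range h, (∑ x ∈ Ico 2 (2 * h - 1) ×ˢ Ico 2 (2 * h + 1),
      (f (C, x).2.1 - f ((C, x).2.1 + 1)) * (k ((C, x).2.2 + 1) - k (C, x).2.2)) =
      (f 2 - f (2 * h - 1)) * (k (2 * h + 1) - k 2) := by
    intro C hC
    show ∑ x ∈ Ico 2 (2 * h - 1) ×ˢ Ico 2 (2 * h + 1),
      (f x.1 - f (x.1 + 1)) * (k (x.2 + 1) - k x.2) = _
    rw [sum_rect (fun y => f y - f (y + 1)) (fun z => k (z + 1) - k z), tele f (by omega),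
      tele' k (by omega)]
  refine (Finset.sum_congr rfl key).trans ?_
  rw [Finset.sum_const, Finset.card_range, nsmul_eq_mul]

lemma sum_jobsP (f : ℕ → ℤ) (c : ℤ) {h : ℕ} (hh : 2 ≤ h) :
    ∑ x ∈ jobsP h, (f x.2 - f (x.2 + 2)) * c =
      h * ((f 1 + f 2 - f (2 * h - 1) - f (2 * h)) * c) := by
  unfold jobsP
  rw [Finset.sum_product]
  simp only [← Finset.sum_mul, tele2 f (show 1 ≤ 2 * h - 1 by omega), Finset.sum_const,
    Finset.card_range, nsmul_eq_mul]
  have e2 : 2 * h - 1 + 1 = 2 * h := by omega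
  rw [e2]
  ring

lemma sum_pairs' {h : ℕ} [NeZero (2 * h + 1)] (hh : 2 ≤ h) (Y Z : ZMod (2 * h + 1)) :
    ∑ C ∈ Ico 2 (h + 1), (ind (Y = (C : ZMod (2 * h + 1))) - ind (Y = ((2 * h + 2 - C : ℕ) :
      ZMod (2 * h + 1)))) * (ind (Z = (C : ZMod (2 * h + 1))) - ind (Z = ((2 * h + 2 - C : ℕ) :
      ZMod (2 * h + 1)))) =
    (1 - ind (Y = 0) - ind (Y = 1)) * (ind (Z = Y) - ind (Z = 1 - Y)) := by
  have hv := ZMod.val_lt Y
  have hYv : Y = (Y.val : ZMod (2 * h + 1)) := (ZMod.natCast_zmod_val Y).symm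
  have h0 : Y = 0 ↔ Y.val = 0 := by
    have := castEq Y (n := 0) (by omega)
    rwa [Nat.cast_zero] at this
  have h1 : Y = 1 ↔ Y.val = 1 := by
    have := castEq Y (n := 1) (by omega)
    rwa [Nat.cast_one] at this
  have hcast : ∀ C : ℕ, C ≤ 2 * h + 2 → ((2 * h + 2 - C : ℕ) : ZMod (2 * h + 1)) = 1 - C := by
    intro C hC
    have : (2 * h + 2 - C : ℕ) = (2 * h + 1) + 1 - C := by omega
    rw [this, Nat.cast_sub (by omega), Nat.cast_add (2 * h + 1) 1, Nat.cast_one,
      ZMod.natCast_self, zero_add]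
  by_cases g0 : Y.val = 0 ∨ Y.val = 1
  · have e1 : 1 - ind (Y = 0) - ind (Y = 1) = 0 := by
      rcases g0 with g | g
      · rw [ind_true (h0.mpr g), ind_false (fun h' => by rw [h1.mp h'] at g; omega)]
        ring
      · rw [ind_true (h1.mpr g), ind_false (fun h' => by rw [h0.mp h'] at g; omega)]
        ring
    rw [e1, zero_mul]
    apply Finset.sum_eq_zero
    intro C hC
    rw [Finset.mem_Ico] at hC
    rw [ind_false (fun h' => by rw [castEq Y (by omega)] at h'; omega),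
      ind_false (fun h' => by rw [castEq Y (by omega)] at h'; omega)]
    ring
  · rw [not_or] at g0
    rw [ind_false (fun h' => g0.1 (h0.mp h')), ind_false (fun h' => g0.2 (h1.mp h'))]
    by_cases g1 : Y.val ≤ h
    · rw [Finset.sum_eq_single Y.val]
      · rw [hcast _ (by omega), ← hYv, ind_true (rfl : Y = Y), ind_false (p := Y = 1 - Y)]
        · ring
        · intro h'
          have h2 : Y = ((2 * h + 2 - Y.val : ℕ) : ZMod (2 * h + 1)) := by
            rw [hcast _ (by omega), ← hYv]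
            exact h'
          rw [castEq Y (by omega)] at h2
          omega
      · intro C hC hne
        rw [Finset.mem_Ico] at hC
        rw [ind_false (fun h' => by rw [castEq Y (by omega)] at h'; omega),
          ind_false (fun h' => by rw [castEq Y (by omega)] at h'; omega)]
        ring
      · intro h'
        exact absurd (Finset.mem_Ico.mpr ⟨by omega, by omega⟩) h'
    · by_cases g2 : Y.val = h + 1
      · -- the fixed class
        have hfix : 1 - Y = Y := by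
          have h2 : ((2 * h + 2 - Y.val : ℕ) : ZMod (2 * h + 1)) = 1 - Y := by
            rw [hcast _ (by omega), ← hYv]
          rw [← h2, show 2 * h + 2 - Y.val = Y.val by omega, ← hYv]
        rw [hfix, sub_self, mul_zero]
        apply Finset.sum_eq_zero
        intro C hC
        rw [Finset.mem_Ico] at hC
        rw [ind_false (fun h' => by rw [castEq Y (by omega)] at h'; omega),
          ind_false (fun h' => by rw [castEq Y (by omega)] at h'; omega)]
        ring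
      rw [Finset.sum_eq_single (2 * h + 2 - Y.val)]
      · have e1 : 2 * h + 2 - (2 * h + 2 - Y.val) = Y.val := by omega
        rw [e1, hcast _ (by omega), ← hYv, ind_true (rfl : Y = Y), ind_false (p := Y = 1 - Y)]
        · ring
        · intro h'
          have h2 : Y = ((2 * h + 2 - Y.val : ℕ) : ZMod (2 * h + 1)) := by
            rw [hcast _ (by omega), ← hYv]
            exact h'
          rw [castEq Y (by omega)] at h2
          omega
      · intro C hC hne
        rw [Finset.mem_Ico] at hC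
        rw [ind_false (fun h' => by rw [castEq Y (by omega)] at h'; omega),
          ind_false (fun h' => by rw [castEq Y (by omega)] at h'; omega)]
        ring
      · intro h'
        exact absurd (Finset.mem_Ico.mpr ⟨by omega, by omega⟩) h'

lemma card_jobs' (h : ℕ) : Fintype.card ((jobsP h) ⊕ ((jobsQ h) ⊕ (jobsR h))) ≤
    h * (2 * h) + (h * (2 * h * (2 * h)) + h * (2 * h * (2 * h))) := by
  rw [Fintype.card_sum, Fintype.card_sum, Fintype.card_coe, Fintype.card_coe, Fintype.card_coe]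
  apply Nat.add_le_add
  · unfold jobsP
    rw [Finset.card_product, Nat.card_Ico, Finset.card_range]
    exact Nat.mul_le_mul (by omega) (by omega)
  apply Nat.add_le_add
  · unfold jobsQ
    refine (Finset.card_filter_le _ _).trans ?_
    rw [Finset.card_product, Finset.card_product, Nat.card_Ico, Nat.card_Ico, Nat.card_Ico]
    exact Nat.mul_le_mul (by omega) (Nat.mul_le_mul (by omega) (by omega))
  · unfold jobsR
    rw [Finset.card_product, Finset.card_product, Finset.card_range, Nat.card_Ico, Nat.card_Ico]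
    exact Nat.mul_le_mul (by omega) (Nat.mul_le_mul (by omega) (by omega))

/-- the class permutations exist -/
theorem exists_rowPerms_odd {h γ : ℕ} [NeZero (2 * h + 1)] [NeZero γ] (hh : 2 ≤ h)
    (hγ1 : (1 : ZMod γ) ≠ 0)
    (hγ : h * (2 * h) + (h * (2 * h * (2 * h)) + h * (2 * h * (2 * h))) + 2 ≤ γ) :
    ∃ ρ : ZMod (2 * h + 1) × ZMod γ → Equiv.Perm (ZMod (2 * h + 1)), RowPerms ρ ∧
      (univ.filter fun r => ρ r ≠ 1).card ≤ γ ∧
      ∀ r, (univ.filter fun Y => ρ r Y ≠ Y).card ≤ 3 := by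
  classical
  have hne : ∀ {a b : ℕ}, a < 2 * h + 1 → b < 2 * h + 1 → a ≠ b →
      (a : ZMod (2 * h + 1)) ≠ (b : ZMod (2 * h + 1)) := by
    intro a b ha hb hab h'
    rw [castEq _ hb, ZMod.val_cast_of_lt ha] at h'
    exact hab h'
  have h01 : (1 : ZMod (2 * h + 1)) ≠ 0 := by
    have := hne (a := 1) (b := 0) (by omega) (by omega) (by omega)
    rwa [Nat.cast_one, Nat.cast_zero] at this
  have hself : ((2 * h + 1 : ℕ) : ZMod (2 * h + 1)) = 0 := ZMod.natCast_self _
  have hm1 : ((2 * h : ℕ) : ZMod (2 * h + 1)) = -1 := by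
    rw [Nat.cast_add (2 * h) 1, Nat.cast_one] at hself
    exact eq_neg_of_add_eq_zero_left hself
  have h1m : (1 : ZMod (2 * h + 1)) ≠ -1 := by
    have := hne (a := 1) (b := 2 * h) (by omega) (by omega) (by omega)
    rwa [Nat.cast_one, hm1] at this
  let J := (jobsP h) ⊕ ((jobsQ h) ⊕ (jobsR h))
  let X : J → ZMod (2 * h + 1) := fun j => match j with
    | .inl x => -((x.1.2 : ℕ) : ZMod (2 * h + 1))
    | .inr (.inl x) => ((x.1.2.2 : ℕ) : ZMod (2 * h + 1)) - (x.1.2.1 : ℕ)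
    | .inr (.inr x) => ((x.1.2.2 : ℕ) : ZMod (2 * h + 1)) - (x.1.2.1 : ℕ)
  let a : J → ZMod (2 * h + 1) := fun j => match j with
    | .inl x => ((x.1.2 : ℕ) : ZMod (2 * h + 1))
    | .inr (.inl x) => ((x.1.2.1 : ℕ) : ZMod (2 * h + 1))
    | .inr (.inr x) => ((x.1.2.1 : ℕ) : ZMod (2 * h + 1))
  let b : J → ZMod (2 * h + 1) := fun j => match j with
    | .inl x => ((x.1.2 + 2 : ℕ) : ZMod (2 * h + 1))
    | .inr (.inl x) => ((x.1.2.1 + 1 : ℕ) : ZMod (2 * h + 1))
    | .inr (.inr x) => ((x.1.2.1 + 1 : ℕ) : ZMod (2 * h + 1))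
  have hA : ∀ x : jobsP h, 1 ≤ x.1.2 ∧ x.1.2 + 2 < 2 * h + 1 := by
    intro x
    have h1 := x.2
    unfold jobsP at h1
    rw [Finset.mem_product, Finset.mem_Ico, Finset.mem_range] at h1
    omega
  have hB : ∀ x : jobsQ h, 1 ≤ x.1.2.1 ∧ x.1.2.1 < 2 * h ∧ 2 ≤ x.1.2.2 ∧
      x.1.2.2 < 2 * h + 1 := by
    intro x
    have h1 := x.2
    unfold jobsQ at h1
    rw [Finset.mem_filter, Finset.mem_product, Finset.mem_product, Finset.mem_Ico,
      Finset.mem_Ico, Finset.mem_Ico] at h1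
    omega
  have hC : ∀ x : jobsR h, 1 ≤ x.1.2.1 ∧ x.1.2.1 < 2 * h ∧ 2 ≤ x.1.2.2 ∧
      x.1.2.2 < 2 * h + 1 := by
    intro x
    have h1 := x.2
    unfold jobsR at h1
    rw [Finset.mem_product, Finset.mem_product, Finset.mem_range, Finset.mem_Ico,
      Finset.mem_Ico] at h1
    omega
  have hXaA : ∀ x : jobsP h, X (.inl x) + a (.inl x) = 0 := fun x => neg_add_cancel _
  have hXbA : ∀ x : jobsP h, X (.inl x) + b (.inl x) = 2 := by
    intro x
    show -((x.1.2 : ℕ) : ZMod (2 * h + 1)) + ((x.1.2 + 2 : ℕ) : ZMod (2 * h + 1)) = 2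
    push_cast
    ring
  have hXaB : ∀ x : jobsQ h, X (.inr (.inl x)) + a (.inr (.inl x)) =
      ((x.1.2.2 : ℕ) : ZMod (2 * h + 1)) := fun x => sub_add_cancel _ _
  have hXbB : ∀ x : jobsQ h, X (.inr (.inl x)) + b (.inr (.inl x)) =
      ((x.1.2.2 + 1 : ℕ) : ZMod (2 * h + 1)) := by
    intro x
    show ((x.1.2.2 : ℕ) : ZMod (2 * h + 1)) - (x.1.2.1 : ℕ) +
      ((x.1.2.1 + 1 : ℕ) : ZMod (2 * h + 1)) = ((x.1.2.2 + 1 : ℕ) : ZMod (2 * h + 1))
    push_cast
    ring
  have hXaC : ∀ x : jobsR h, X (.inr (.inr x)) + a (.inr (.inr x)) =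
      ((x.1.2.2 : ℕ) : ZMod (2 * h + 1)) := fun x => sub_add_cancel _ _
  have hXbC : ∀ x : jobsR h, X (.inr (.inr x)) + b (.inr (.inr x)) =
      ((x.1.2.2 + 1 : ℕ) : ZMod (2 * h + 1)) := by
    intro x
    show ((x.1.2.2 : ℕ) : ZMod (2 * h + 1)) - (x.1.2.1 : ℕ) +
      ((x.1.2.1 + 1 : ℕ) : ZMod (2 * h + 1)) = ((x.1.2.2 + 1 : ℕ) : ZMod (2 * h + 1))
    push_cast
    ring
  have hn0 : ∀ n : ℕ, 1 ≤ n → n < 2 * h + 1 → (n : ZMod (2 * h + 1)) ≠ 0 := by
    intro n hn hn'
    have := hne (a := n) (b := 0) hn' (by omega) (by omega)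
    rwa [Nat.cast_zero] at this
  have hn1 : ∀ n : ℕ, 2 ≤ n → n < 2 * h + 1 → (n : ZMod (2 * h + 1)) ≠ 1 := by
    intro n hn hn'
    have := hne (a := n) (b := 1) hn' (by omega) (by omega)
    rwa [Nat.cast_one] at this
  have hn1' : ∀ n : ℕ, 2 ≤ n → n < 2 * h + 1 → ((n + 1 : ℕ) : ZMod (2 * h + 1)) ≠ 1 := by
    intro n hn hn'
    by_cases g : n = 2 * h
    · rw [g, hself]
      exact h01.symm
    · exact hn1 (n + 1) (by omega) (by omega)
  have hmain := exists_rowPerms (β := 2 * h + 1) (γ := γ) X a b h01 h1m hγ1 ?_ ?_ ?_ ?_ ?_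
    ((Nat.add_le_add_right (card_jobs' h) 2).trans hγ) ?_
  · obtain ⟨ρ, h1, h2, h3⟩ := hmain
    refine ⟨ρ, h1, h2.trans ?_, h3⟩
    have := card_jobs' h
    have h5 : Fintype.card J ≤ h * (2 * h) + (h * (2 * h * (2 * h)) + h * (2 * h * (2 * h))) :=
      this
    omega
  · rintro (x | x | x)
    · exact hne (by have := hA x; omega) (by have := hA x; omega) (by omega)
    · exact hne (by have := hB x; omega) (by have := hB x; omega) (by omega)
    · exact hne (by have := hC x; omega) (by have := hC x; omega) (by omega)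
  · rintro (x | x | x)
    · exact hn0 _ (hA x).1 (by have := hA x; omega)
    · exact hn0 _ (hB x).1 (by have := hB x; omega)
    · exact hn0 _ (hC x).1 (by have := hC x; omega)
  · rintro (x | x | x)
    · exact hn0 _ (by omega) (hA x).2
    · exact hn0 _ (by omega) (by have := hB x; omega)
    · exact hn0 _ (by omega) (by have := hC x; omega)
  · rintro (x | x | x)
    · rw [hXaA]
      exact h01.symm
    · rw [hXaB]
      exact hn1 _ (by have := hB x; omega) (by have := hB x; omega)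
    · rw [hXaC]
      exact hn1 _ (by have := hC x; omega) (by have := hC x; omega)
  · rintro (x | x | x)
    · rw [hXbA]
      have := hn1 2 (by omega) (by omega)
      rwa [Nat.cast_ofNat] at this
    · rw [hXbB]
      exact hn1' _ (by have := hB x; omega) (by have := hB x; omega)
    · rw [hXbC]
      exact hn1' _ (by have := hC x; omega) (by have := hC x; omega)
  · -- the sum
    intro Y Z
    rw [Fintype.sum_sum_type, Fintype.sum_sum_type]
    let f : ℕ → ℤ := fun n => ind (Y = (n : ZMod (2 * h + 1)))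
    let k : ℕ → ℤ := fun n => ind (Z = (n : ZMod (2 * h + 1)))
    have e1 : ∑ x : jobsP h, (ind (Y = a (.inl x)) - ind (Y = b (.inl x))) *
        (ind (Z = X (.inl x) + b (.inl x)) - ind (Z = X (.inl x) + a (.inl x))) =
        h * ((f 1 + f 2 - f (2 * h - 1) - f (2 * h)) * (ind (Z = 2) - ind (Z = 0))) := by
      rw [← sum_jobsP f _ hh, ← Finset.sum_coe_sort (jobsP h)
        (fun x => (f x.2 - f (x.2 + 2)) * (ind (Z = 2) - ind (Z = 0)))]
      apply Finset.sum_congr rfl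
      intro x _
      rw [hXaA, hXbA]
    have e2 : ∑ x : jobsQ h, (ind (Y = a (.inr (.inl x))) - ind (Y = b (.inr (.inl x)))) *
        (ind (Z = X (.inr (.inl x)) + b (.inr (.inl x))) -
          ind (Z = X (.inr (.inl x)) + a (.inr (.inl x)))) =
        (h - 1) * ((f 1 - f (2 * h)) * (k (2 * h + 1) - k 2)) +
        ∑ C ∈ Ico 2 (h + 1), (f C - f (2 * h + 2 - C)) * (k C - k (2 * h + 2 - C)) := by
      rw [← sum_jobsQ f k hh, ← Finset.sum_coe_sort (jobsQ h)
        (fun x => (f x.2.1 - f (x.2.1 + 1)) * (k (x.2.2 + 1) - k x.2.2))]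
      apply Finset.sum_congr rfl
      intro x _
      rw [hXaB, hXbB]
    have e2' : ∑ x : jobsR h, (ind (Y = a (.inr (.inr x))) - ind (Y = b (.inr (.inr x)))) *
        (ind (Z = X (.inr (.inr x)) + b (.inr (.inr x))) -
          ind (Z = X (.inr (.inr x)) + a (.inr (.inr x)))) =
        h * ((f 2 - f (2 * h - 1)) * (k (2 * h + 1) - k 2)) := by
      rw [← sum_jobsR f k hh, ← Finset.sum_coe_sort (jobsR h)
        (fun x => (f x.2.1 - f (x.2.1 + 1)) * (k (x.2.2 + 1) - k x.2.2))]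
      apply Finset.sum_congr rfl
      intro x _
      rw [hXaC, hXbC]
    rw [e1, e2, e2']
    have e3 : ∑ C ∈ Ico 2 (h + 1), (f C - f (2 * h + 2 - C)) * (k C - k (2 * h + 2 - C)) =
        (1 - ind (Y = 0) - ind (Y = 1)) * (ind (Z = Y) - ind (Z = 1 - Y)) := sum_pairs' hh Y Z
    have e4 : f 1 = ind (Y = 1) := by
      simp only [f]
      exact ind_congr (by rw [Nat.cast_one])
    have e5 : f (2 * h) = ind (Y = -1) := by
      simp only [f]
      exact ind_congr (by rw [hm1])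
    have e6 : k (2 * h + 1) = ind (Z = 0) := by
      simp only [k]
      exact ind_congr (by rw [hself])
    have e7 : k 2 = ind (Z = 2) := by
      simp only [k]
      exact ind_congr (by rw [Nat.cast_ofNat])
    rw [e3, e4, e5, e6, e7]
    ring

end Pool.Agent.Lib.MP_185394_co.All
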