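import Pool.Agent.Lib.MP_185394_co.All.Crit

/-!
From a nearly natural Latin square `M` on the nonzero elements of `G` (symbols different from `κ`)
to a Latin square on `G × H` with rows `{0} × D`, columns `{0} × D` and symbols `{κ} × (o + D)`
deleted.
-/

namespace Pool.Agent.Lib.MP_185394_co.All

open Finset

set_option linter.unusedSectionVars false

/-- the data of the construction -/
structure Dat (G H : Type) where
  /-- the class of the deleted symbols -/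
  κ : G
  /-- the half of `κ` -/
  xs : G
  /-- the shift of the deleted symbols -/
  o : H
  /-- the small square -/
  M : G → G → G
  /-- the deleted elements -/
  D : Finset H
  /-- the signs of the classes -/
  sg : G → Bool
  /-- the shifts of the classes -/
  η : G → H
  /-- a Latin square outside `D` -/
  Λ : H → H → H

variable {G H : Type} [AddCommGroup G] [DecidableEq G] [AddCommGroup H] [DecidableEq H]

/-- the blocks in which the class of the symbols is changed -/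
def Touched (κ : G) (M : G → G → G) (X Y : G) : Prop :=
  X ≠ 0 ∧ Y ≠ 0 ∧ X + Y ≠ κ ∧ M X Y ≠ X + Y

instance (κ : G) (M : G → G → G) (X Y : G) : Decidable (Touched κ M X Y) := by
  unfold Touched
  infer_instance

/-- the second coordinate of the symbols of class `Z` in the touched blocks in columns of class
`Y` -/
def Dat.phi (d : Dat G H) (Y Z : G) (x y : H) : H :=
  if d.sg Y = d.sg Z then x + y + d.η Z - d.η Y else d.o + x + x - y + d.η Y + d.η Z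

/-- the square -/
def Dat.cell (d : Dat G H) (X : G) (x : H) (Y : G) (y : H) : G × H :=
  if X = d.κ ∧ Y = 0 then (if x ∈ d.D then (0, x + y) else (d.κ, d.Λ x y))
  else if X = d.κ ∧ Y = d.κ ∧ x ∈ d.D then
    (if x + y - d.o ∈ d.D then (0, x + x + y - d.o) else (d.κ, x + y))
  else if X + Y = d.κ ∧ x + y - d.o ∈ d.D then (X, x + x + y - d.o)
  else if Touched d.κ d.M X Y then
    (if x ∈ d.D then (d.M X Y, d.phi Y (d.M X Y) x y) else (X + Y, d.phi Y (X + Y) x y))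
  else if X = 0 ∧ Y = d.xs then (d.xs, d.o + x + x - y)
  else (X + Y, x + y)

/-- what is assumed on the data -/
structure Dat.Ok (d : Dat G H) : Prop where
  ne : ∀ X Y, X ≠ 0 → Y ≠ 0 → d.M X Y ≠ d.κ
  row : ∀ X, X ≠ 0 → ∀ Y Y', Y ≠ 0 → Y' ≠ 0 → d.M X Y = d.M X Y' → Y = Y'
  col : ∀ Y, Y ≠ 0 → ∀ X X', X ≠ 0 → X' ≠ 0 → d.M X Y = d.M X' Y → X = X'
  kk : d.M d.κ d.κ = 0
  hole : ∀ X, X ≠ 0 → X ≠ d.κ → d.M X (d.κ - X) = X
  k0 : d.κ ≠ 0
  k2 : d.κ + d.κ ≠ 0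
  xs2 : d.xs + d.xs = d.κ
  sg : ∀ X, X ≠ d.xs → d.sg (d.κ - X) ≠ d.sg X
  η : ∀ X, X ≠ d.xs → d.η (d.κ - X) + d.η X = 0
  two : ∀ x y : H, x + x = y + y → x = y
  Λne : ∀ x y, x ∉ d.D → y ∉ d.D → d.Λ x y - d.o ∉ d.D
  Λrow : ∀ x, x ∉ d.D → ∀ y y', y ∉ d.D → y' ∉ d.D → d.Λ x y = d.Λ x y' → y = y'
  Λcol : ∀ y, y ∉ d.D → ∀ x x', x ∉ d.D → x' ∉ d.D → d.Λ x y = d.Λ x' y → x = x'

variable {d : Dat G H}

lemma Dat.phi_inj_y (d : Dat G H) {Y Z : G} {x y y' : H} (h : d.phi Y Z x y = d.phi Y Z x y') :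
    y = y' := by
  unfold Dat.phi at h
  split_ifs at h
  · exact add_left_cancel (add_right_cancel (sub_left_inj.mp h))
  · exact sub_right_inj.mp (add_right_cancel (add_right_cancel h))

lemma Dat.Ok.xs0 (hd : d.Ok) : d.xs ≠ 0 := by
  intro h
  apply hd.k0
  rw [← hd.xs2, h, add_zero]

lemma Dat.Ok.xsκ (hd : d.Ok) : d.xs ≠ d.κ := by
  intro h
  apply hd.k0
  have h1 := hd.xs2
  rw [h] at h1
  exact add_eq_left.mp h1

lemma Dat.Ok.tκ (hd : d.Ok) {Y : G} (hY : Y ≠ 0) (hYκ : Y ≠ d.κ) : d.M d.κ Y ≠ 0 := by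
  intro h
  rw [← hd.kk] at h
  exact hYκ (hd.row _ hd.k0 _ _ hY hd.k0 h)

/-- the class in column `Y` which is moved to the holes -/
lemma Dat.Ok.col_compl (hd : d.Ok) {X Y : G} (hX : X ≠ 0) (hY : Y ≠ 0)
    (h : d.M X Y = d.κ - Y) : (X + Y = d.κ) ∨ (X = d.κ ∧ Y = d.κ) := by
  by_cases hYκ : Y = d.κ
  · right
    rw [hYκ, sub_self, ← hd.kk] at h
    exact ⟨hd.col _ hd.k0 _ _ hX hd.k0 h, hYκ⟩
  · left
    have h0 : d.κ - Y ≠ 0 := fun h' => hYκ (sub_eq_zero.mp h').symm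
    have h1 := hd.hole (d.κ - Y) h0 (fun h' => hY (sub_eq_self.mp h'))
    rw [sub_sub_cancel] at h1
    rw [← h1] at h
    rw [hd.col _ hY _ _ hX h0 h]
    abel

/-- the five kinds of cells of a column -/
lemma Dat.Ok.col_cases (hd : d.Ok) {X Y : G} {x y : H} (hr : ¬ (X = 0 ∧ x ∈ d.D)) (hY : Y ≠ 0) :
    (d.cell X x Y y = (d.κ, x + y) ∧ ((X = d.κ ∧ Y = d.κ ∧ x ∈ d.D) ∨ (X + Y = d.κ ∧ X ≠ d.κ))) ∨
    (∃ i ∈ d.D, x + y = d.o + i ∧ d.cell X x Y y = (d.κ - Y, d.o + i + i - y) ∧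
      ((X = d.κ ∧ Y = d.κ ∧ x ∈ d.D) ∨ (X + Y = d.κ ∧ X ≠ d.κ))) ∨
    (x ∈ d.D ∧ X ≠ 0 ∧ X + Y ≠ d.κ ∧ ¬ (X = d.κ ∧ Y = d.κ) ∧ d.M X Y ≠ X + Y ∧
      d.cell X x Y y = (d.M X Y, d.phi Y (d.M X Y) x y)) ∨
    (x ∉ d.D ∧ X + Y ≠ d.κ ∧ (X = 0 ∨ d.M X Y ≠ X + Y) ∧ d.cell X x Y y = (X + Y,
      if X = 0 ∧ Y = d.xs then d.o + x + x - y else d.phi Y (X + Y) x y)) ∨
    (X ≠ 0 ∧ X + Y ≠ d.κ ∧ d.M X Y = X + Y ∧ d.cell X x Y y = (X + Y, x + y)) := by
  unfold Dat.cell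
  rw [if_neg (show ¬ (X = d.κ ∧ Y = 0) from fun h => hY h.2)]
  by_cases h1 : X = d.κ ∧ Y = d.κ ∧ x ∈ d.D
  · rw [if_pos h1]
    by_cases h2 : x + y - d.o ∈ d.D
    · rw [if_pos h2]
      right; left
      refine ⟨_, h2, by abel, ?_, Or.inl h1⟩
      rw [h1.2.1, sub_self]
      refine Prod.ext rfl ?_
      show x + x + y - d.o = d.o + (x + y - d.o) + (x + y - d.o) - y
      abel
    · rw [if_neg h2]
      left
      exact ⟨rfl, Or.inl h1⟩
  rw [if_neg h1]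
  by_cases h2 : X + Y = d.κ
  · have hXκ : X ≠ d.κ := by
      intro h
      rw [h] at h2
      exact hY (add_eq_left.mp h2)
    by_cases h3 : x + y - d.o ∈ d.D
    · rw [if_pos ⟨h2, h3⟩]
      right; left
      refine ⟨_, h3, by abel, ?_, Or.inr ⟨h2, hXκ⟩⟩
      refine Prod.ext ?_ ?_
      · show X = d.κ - Y
        rw [← h2]
        abel
      · show x + x + y - d.o = d.o + (x + y - d.o) + (x + y - d.o) - y
        abel
    · rw [if_neg (fun h => h3 h.2), if_neg (fun h : Touched _ _ _ _ => h.2.2.1 h2)]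
      have h4 : ¬ (X = 0 ∧ Y = d.xs) := by
        rintro ⟨h5, h6⟩
        rw [h5, h6, zero_add] at h2
        exact hd.xsκ h2
      rw [if_neg h4]
      left
      exact ⟨by rw [h2], Or.inr ⟨h2, hXκ⟩⟩
  rw [if_neg (fun h => h2 h.1)]
  by_cases h3 : Touched d.κ d.M X Y
  · rw [if_pos h3]
    by_cases h4 : x ∈ d.D
    · rw [if_pos h4]
      right; right; left
      exact ⟨h4, h3.1, h2, fun h => h1 ⟨h.1, h.2, h4⟩, h3.2.2.2, rfl⟩
    · rw [if_neg h4]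
      right; right; right; left
      refine ⟨h4, h2, Or.inr h3.2.2.2, ?_⟩
      rw [if_neg (fun h => h3.1 h.1)]
  rw [if_neg h3]
  by_cases h4 : X = 0 ∧ Y = d.xs
  · rw [if_pos h4]
    right; right; right; left
    refine ⟨fun h => hr ⟨h4.1, h⟩, h2, Or.inl h4.1, ?_⟩
    rw [if_pos h4, h4.1, h4.2, zero_add]
  rw [if_neg h4]
  by_cases hX0 : X = 0
  · right; right; right; left
    refine ⟨fun h => hr ⟨hX0, h⟩, h2, Or.inl hX0, ?_⟩
    rw [if_neg h4, hX0, zero_add]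
    unfold Dat.phi
    rw [if_pos rfl]
    refine Prod.ext rfl ?_
    show x + y = x + y + d.η Y - d.η Y
    abel
  · right; right; right; right
    refine ⟨hX0, h2, ?_, rfl⟩
    by_contra h5
    exact h3 ⟨hX0, hY, h2, h5⟩

/-- the symbols of a column as functions of an index -/
def Dat.psi (d : Dat G H) (Y Z : G) (i y : H) : H :=
  if Z = d.κ - Y then d.o + i + i - y else d.phi Y Z i y

lemma Dat.Ok.psi_inj (hd : d.Ok) {Y Z : G} {i i' y : H} (h : d.psi Y Z i y = d.psi Y Z i' y) :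
    i = i' := by
  have key : ∀ a b : H, d.o + a + a = d.o + b + b → a = b := by
    intro a b hab
    rw [add_assoc, add_assoc] at hab
    exact hd.two _ _ (add_left_cancel hab)
  unfold Dat.psi Dat.phi at h
  split_ifs at h
  · exact key _ _ (sub_left_inj.mp h)
  · exact add_right_cancel (add_right_cancel (sub_left_inj.mp h))
  · exact key _ _ (sub_left_inj.mp (add_right_cancel (add_right_cancel h)))

/-- the cells of a column, with an index -/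
lemma Dat.Ok.col_index (hd : d.Ok) {X Y : G} {x y : H} (hr : ¬ (X = 0 ∧ x ∈ d.D)) (hY : Y ≠ 0) :
    (d.cell X x Y y = (d.κ, x + y) ∧ ((X = d.κ ∧ Y = d.κ ∧ x ∈ d.D) ∨ (X + Y = d.κ ∧ X ≠ d.κ))) ∨
    (∃ Z i, Z ≠ d.κ ∧ d.cell X x Y y = (Z, d.psi Y Z i y) ∧
      ((i ∈ d.D ∧ x + y = d.o + i ∧ Z = d.κ - Y ∧
        ((X = d.κ ∧ Y = d.κ ∧ x ∈ d.D) ∨ (X + Y = d.κ ∧ X ≠ d.κ))) ∨
      (i ∈ d.D ∧ x = i ∧ X ≠ 0 ∧ Z = d.M X Y ∧ Z ≠ X + Y ∧ Z ≠ d.κ - Y) ∨
      (i ∉ d.D ∧ x = i ∧ Z = X + Y ∧ (X = 0 ∨ d.M X Y ≠ X + Y)))) ∨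
    (X ≠ 0 ∧ X + Y ≠ d.κ ∧ d.M X Y = X + Y ∧ d.cell X x Y y = (X + Y, x + y)) := by
  rcases hd.col_cases (y := y) hr hY with h | ⟨i, h1, h2, h3, h4⟩ | ⟨h1, h2, h3, h4, h5, h6⟩ |
    ⟨h1, h2, h3, h4⟩ | h
  · exact Or.inl h
  · right; left
    refine ⟨d.κ - Y, i, fun h => hY (sub_eq_self.mp h), ?_, Or.inl ⟨h1, h2, rfl, h4⟩⟩
    rw [h3]
    unfold Dat.psi
    rw [if_pos rfl]
  · right; left
    have h7 : d.M X Y ≠ d.κ - Y := by
      intro h
      rcases hd.col_compl h2 hY h with h8 | h8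
      · exact h3 h8
      · exact h4 h8
    refine ⟨d.M X Y, x, hd.ne _ _ h2 hY, ?_, Or.inr (Or.inl ⟨h1, rfl, h2, rfl, h5, h7⟩)⟩
    rw [h6]
    unfold Dat.psi
    rw [if_neg h7]
  · right; left
    refine ⟨X + Y, x, h2, ?_, Or.inr (Or.inr ⟨h1, rfl, rfl, h3⟩)⟩
    rw [h4]
    refine Prod.ext rfl ?_
    show (if X = 0 ∧ Y = d.xs then d.o + x + x - y else d.phi Y (X + Y) x y) = d.psi Y (X + Y) x y
    unfold Dat.psi
    by_cases h5 : X = 0 ∧ Y = d.xs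
    · have h6 : X + Y = d.κ - Y := by
        rw [h5.1, h5.2, ← hd.xs2]
        abel
      rw [if_pos h5, if_pos h6]
    · rw [if_neg h5]
      by_cases h6 : X + Y = d.κ - Y
      · rw [if_pos h6]
        have h7 : Y ≠ d.xs := by
          intro h7
          apply h5
          refine ⟨?_, h7⟩
          rw [h7, ← hd.xs2] at h6
          have h8 : X = X + d.xs - d.xs := by abel
          rw [h8, h6]
          abel
        unfold Dat.phi
        rw [h6, if_neg (hd.sg Y h7).symm]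
        have h8 := hd.η Y h7
        rw [add_assoc, add_comm (d.η Y), h8, add_zero]
      · rw [if_neg h6]
  · exact Or.inr (Or.inr h)

lemma Dat.Ok.col_inj (hd : d.Ok) {X X' Y : G} {x x' y : H} (hr : ¬ (X = 0 ∧ x ∈ d.D))
    (hr' : ¬ (X' = 0 ∧ x' ∈ d.D)) (hY : Y ≠ 0) (h : d.cell X x Y y = d.cell X' x' Y y) :
    X = X' ∧ x = x' := by
  -- good cells against the indexed ones
  have key : ∀ (X X' : G) (Z : G), X ≠ 0 → X + Y ≠ d.κ → d.M X Y = X + Y → X + Y = Z →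
      ((Z = d.κ - Y) ∨ (X' ≠ 0 ∧ Z = d.M X' Y ∧ Z ≠ X' + Y) ∨
      (Z = X' + Y ∧ (X' = 0 ∨ d.M X' Y ≠ X' + Y))) → False := by
    intro X X' Z h1 h2 h3 h4 h5
    rcases h5 with h5 | ⟨h5, h6, h7⟩ | ⟨h5, h6⟩
    · rw [h4, h5] at h3
      rcases hd.col_compl h1 hY h3 with h8 | ⟨h8, h9⟩
      · exact h2 h8
      · rw [h9, sub_self] at h5
        rw [h8, h9] at h4
        exact hd.k2 (h4.trans h5)
    · rw [← h4, ← h3] at h6
      have h8 := hd.col _ hY _ _ h1 h5 h6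
      rw [← h8] at h7
      exact h7 h4.symm
    · have h8 : X = X' := add_right_cancel (h4.trans h5)
      subst h8
      rcases h6 with h6 | h6
      · exact h1 h6
      · exact h6 h3
  have hclass : ∀ (X X' : G) (x x' : H), ¬ (X = 0 ∧ x ∈ d.D) → ¬ (X' = 0 ∧ x' ∈ d.D) →
      ((X = d.κ ∧ Y = d.κ ∧ x ∈ d.D) ∨ (X + Y = d.κ ∧ X ≠ d.κ)) →
      ((X' = d.κ ∧ Y = d.κ ∧ x' ∈ d.D) ∨ (X' + Y = d.κ ∧ X' ≠ d.κ)) → x = x' → X = X' := by
    intro X X' x x' hr hr' h1 h2 h3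
    rcases h1 with ⟨h1, h4, h5⟩ | ⟨h1, h4⟩ <;> rcases h2 with ⟨h2, h6, h7⟩ | ⟨h2, h6⟩
    · rw [h1, h2]
    · exfalso
      apply hr'
      refine ⟨?_, h3 ▸ h5⟩
      rw [h4] at h2
      exact add_eq_right.mp h2
    · exfalso
      apply hr
      refine ⟨?_, h3.symm ▸ h7⟩
      rw [h6] at h1
      exact add_eq_right.mp h1
    · exact add_right_cancel (h1.trans h2.symm)
  rcases hd.col_index (y := y) hr hY with ⟨h1, h2⟩ | ⟨Z, i, h1, h2, h3⟩ | ⟨h1, h2, h3, h4⟩ <;>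
  rcases hd.col_index (y := y) hr' hY with ⟨g1, g2⟩ | ⟨Z', i', g1, g2, g3⟩ | ⟨g1, g2, g3, g4⟩
  · rw [h1, g1] at h
    have h5 : x = x' := add_right_cancel (Prod.ext_iff.mp h).2
    exact ⟨hclass _ _ _ _ hr hr' h2 g2 h5, h5⟩
  · rw [h1, g2] at h
    exact absurd (Prod.ext_iff.mp h).1.symm g1
  · rw [h1, g4] at h
    exact absurd (Prod.ext_iff.mp h).1.symm g2
  · rw [h2, g1] at h
    exact absurd (Prod.ext_iff.mp h).1 h1
  · rw [h2, g2] at h
    obtain ⟨h4, h5⟩ := Prod.ext_iff.mp h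
    simp only at h4 h5
    subst h4
    have h6 := hd.psi_inj h5
    subst h6
    rcases h3 with ⟨a1, a2, a3, a4⟩ | ⟨a1, a2, a3, a4, a5, a6⟩ | ⟨a1, a2, a3, a4⟩ <;>
    rcases g3 with ⟨b1, b2, b3, b4⟩ | ⟨b1, b2, b3, b4, b5, b6⟩ | ⟨b1, b2, b3, b4⟩
    · have h7 : x = x' := add_right_cancel (a2.trans b2.symm)
      exact ⟨hclass _ _ _ _ hr hr' a4 b4 h7, h7⟩
    · exact absurd a3 b6
    · exact absurd a1 b1
    · exact absurd b3 a6
    · exact ⟨hd.col _ hY _ _ a3 b3 (a4.symm.trans b4), a2.trans b2.symm⟩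
    · exact absurd a1 b1
    · exact absurd b1 a1
    · exact absurd b1 a1
    · exact ⟨add_right_cancel (a3.symm.trans b3), a2.trans b2.symm⟩
  · exfalso
    rw [h2, g4] at h
    refine key X' X Z g1 g2 g3 (Prod.ext_iff.mp h).1.symm ?_
    rcases h3 with ⟨-, -, a3, -⟩ | ⟨-, -, a3, a4, a5, -⟩ | ⟨-, -, a3, a4⟩
    · exact Or.inl a3
    · exact Or.inr (Or.inl ⟨a3, a4, a5⟩)
    · exact Or.inr (Or.inr ⟨a3, a4⟩)
  · rw [h4, g1] at h
    exact absurd (Prod.ext_iff.mp h).1 h2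
  · exfalso
    rw [h4, g2] at h
    refine key X X' Z' h1 h2 h3 (Prod.ext_iff.mp h).1 ?_
    rcases g3 with ⟨-, -, a3, -⟩ | ⟨-, -, a3, a4, a5, -⟩ | ⟨-, -, a3, a4⟩
    · exact Or.inl a3
    · exact Or.inr (Or.inl ⟨a3, a4, a5⟩)
    · exact Or.inr (Or.inr ⟨a3, a4⟩)
  · rw [h4, g4] at h
    obtain ⟨h5, h6⟩ := Prod.ext_iff.mp h
    exact ⟨add_right_cancel h5, add_right_cancel h6⟩

/-- the cells in the columns of class `0` -/
lemma Dat.Ok.col0_cases (hd : d.Ok) (X : G) (x y : H) :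
    (X = d.κ ∧ x ∈ d.D ∧ d.cell X x 0 y = (0, x + y)) ∨
    (X = d.κ ∧ x ∉ d.D ∧ d.cell X x 0 y = (d.κ, d.Λ x y)) ∨
    (X ≠ d.κ ∧ d.cell X x 0 y = (X, x + y)) := by
  unfold Dat.cell
  by_cases h1 : X = d.κ
  · rw [if_pos ⟨h1, rfl⟩]
    by_cases h2 : x ∈ d.D
    · rw [if_pos h2]
      exact Or.inl ⟨h1, h2, rfl⟩
    · rw [if_neg h2]
      exact Or.inr (Or.inl ⟨h1, h2, rfl⟩)
  · rw [if_neg (fun h => h1 h.1), if_neg (fun h => h1 h.1), add_zero, if_neg (fun h => h1 h.1),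
      if_neg (fun h : Touched _ _ _ _ => h.2.1 rfl), if_neg (fun h => hd.xs0 h.2.symm)]
    exact Or.inr (Or.inr ⟨h1, rfl⟩)

lemma Dat.Ok.col0_inj (hd : d.Ok) {X X' : G} {x x' y : H} (hr : ¬ (X = 0 ∧ x ∈ d.D))
    (hr' : ¬ (X' = 0 ∧ x' ∈ d.D)) (hy : y ∉ d.D) (h : d.cell X x 0 y = d.cell X' x' 0 y) :
    X = X' ∧ x = x' := by
  rcases hd.col0_cases X x y with ⟨h1, h2, h3⟩ | ⟨h1, h2, h3⟩ | ⟨h1, h3⟩ <;>
  rcases hd.col0_cases X' x' y with ⟨g1, g2, g3⟩ | ⟨g1, g2, g3⟩ | ⟨g1, g3⟩ <;>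
  rw [h3, g3] at h <;> obtain ⟨h4, h5⟩ := Prod.ext_iff.mp h <;> simp only at h4 h5
  · exact ⟨h1.trans g1.symm, add_right_cancel h5⟩
  · exact absurd h4.symm hd.k0
  · exfalso
    have h6 := add_right_cancel h5
    exact hr' ⟨h4.symm, h6 ▸ h2⟩
  · exact absurd h4 hd.k0
  · exact ⟨h1.trans g1.symm, hd.Λcol y hy _ _ h2 g2 h5⟩
  · exact absurd h4.symm g1
  · exfalso
    have h6 := add_right_cancel h5
    exact hr ⟨h4, h6.symm ▸ g2⟩
  · exact absurd h4 h1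
  · exact ⟨h4, add_right_cancel h5⟩

/-- the kinds of cells of a row, outside the columns of class `0` -/
lemma Dat.Ok.row_cases (hd : d.Ok) {X Y : G} {x : H} (hr : ¬ (X = 0 ∧ x ∈ d.D)) (hY : Y ≠ 0)
    (y : H) :
    (((X = d.κ ∧ Y = d.κ ∧ x ∈ d.D) ∨ (X + Y = d.κ ∧ X ≠ d.κ)) ∧
      (d.cell X x Y y = (d.κ, x + y) ∨ ∃ i ∈ d.D, x + y = d.o + i ∧
        d.cell X x Y y = (if X = d.κ then 0 else X, x + i))) ∨
    ((d.cell X x Y y).1 ≠ d.κ ∧ (d.cell X x Y y).1 ≠ (if X = d.κ then 0 else X) ∧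
      (d.cell X x Y y).1 = d.M X Y ∧ x ∈ d.D ∧ X ≠ 0) ∨
    ((d.cell X x Y y).1 ≠ d.κ ∧ (d.cell X x Y y).1 = X + Y ∧ x ∉ d.D) := by
  rcases hd.col_cases (y := y) hr hY with ⟨h1, h2⟩ | ⟨i, h1, h2, h3, h4⟩ |
    ⟨h1, h2, h3, h4, h5, h6⟩ | ⟨h1, h2, h3, h4⟩ | ⟨h1, h2, h3, h4⟩
  · exact Or.inl ⟨h2, Or.inl h1⟩
  · left
    refine ⟨h4, Or.inr ⟨i, h1, h2, ?_⟩⟩
    rw [h3]
    have e1 : d.o + i + i - y = x + i := by
      rw [← h2]
      abel
    rw [e1]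
    refine Prod.ext ?_ rfl
    show d.κ - Y = if X = d.κ then 0 else X
    rcases h4 with ⟨h5, h6, -⟩ | ⟨h5, h6⟩
    · rw [if_pos h5, h6, sub_self]
    · rw [if_neg h6, ← h5]
      abel
  · right; left
    rw [h6]
    refine ⟨hd.ne _ _ h2 hY, ?_, rfl, h1, h2⟩
    show d.M X Y ≠ _
    by_cases h7 : X = d.κ
    · rw [if_pos h7, h7]
      exact hd.tκ hY (fun h => h4 ⟨h7, h⟩)
    · rw [if_neg h7]
      intro h8
      have h9 : d.M X Y = d.M X (d.κ - X) := h8.trans (hd.hole X h2 h7).symm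
      have h10 := hd.row X h2 _ _ hY (fun h => h7 (sub_eq_zero.mp h).symm) h9
      apply h3
      rw [h10]
      abel
  · right; right
    rw [h4]
    exact ⟨h2, rfl, h1⟩
  · by_cases h5 : x ∈ d.D
    · right; left
      rw [h4]
      refine ⟨h2, ?_, h3.symm, h5, h1⟩
      show X + Y ≠ _
      by_cases h7 : X = d.κ
      · rw [if_pos h7]
        intro h8
        rw [← h3] at h8
        rw [h7] at h8
        have h9 : Y = d.κ := by
          by_contra h9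
          exact hd.tκ hY h9 h8
        rw [h7, h9, hd.kk] at h3
        exact hd.k2 h3.symm
      · rw [if_neg h7]
        intro h8
        exact hY (add_eq_left.mp h8)
    · right; right
      rw [h4]
      exact ⟨h2, rfl, h5⟩

/-- two cells in the same block and the same row carry different symbols -/
lemma Dat.Ok.block_inj (hd : d.Ok) {X Y : G} {x y y' : H}
    (hs : ¬ (Y = 0 ∧ y ∈ d.D)) (hs' : ¬ (Y = 0 ∧ y' ∈ d.D))
    (h : d.cell X x Y y = d.cell X x Y y') : y = y' := by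
  by_cases hY : Y = 0
  · subst hY
    have h1 : y ∉ d.D := fun h => hs ⟨rfl, h⟩
    have h2 : y' ∉ d.D := fun h => hs' ⟨rfl, h⟩
    rcases hd.col0_cases X x y with ⟨h5, h6, h7⟩ | ⟨h5, h6, h7⟩ | ⟨h5, h7⟩ <;>
    rcases hd.col0_cases X x y' with ⟨g5, g6, g7⟩ | ⟨g5, g6, g7⟩ | ⟨g5, g7⟩ <;>
    rw [h7, g7] at h
    · exact add_left_cancel (Prod.ext_iff.mp h).2
    · exact absurd h6 g6
    · exact absurd h5 g5
    · exact absurd g6 h6
    · exact hd.Λrow x h6 _ _ h1 h2 (Prod.ext_iff.mp h).2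
    · exact absurd h5 g5
    · exact absurd g5 h5
    · exact absurd g5 h5
    · exact add_left_cancel (Prod.ext_iff.mp h).2
  · unfold Dat.cell at h
    rw [if_neg (show ¬ (X = d.κ ∧ Y = 0) from fun h => hY h.2),
      if_neg (show ¬ (X = d.κ ∧ Y = 0) from fun h => hY h.2)] at h
    by_cases h1 : X = d.κ ∧ Y = d.κ ∧ x ∈ d.D
    · rw [if_pos h1, if_pos h1] at h
      split_ifs at h
      · exact add_left_cancel (sub_left_inj.mp (Prod.ext_iff.mp h).2)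
      · exact absurd (Prod.ext_iff.mp h).1.symm hd.k0
      · exact absurd (Prod.ext_iff.mp h).1 hd.k0
      · exact add_left_cancel (Prod.ext_iff.mp h).2
    rw [if_neg h1, if_neg h1] at h
    by_cases h2 : X + Y = d.κ
    · have hXκ : X ≠ d.κ := by
        intro h'
        rw [h'] at h2
        exact hY (add_eq_left.mp h2)
      have hT : ¬ Touched d.κ d.M X Y := fun h' => h'.2.2.1 h2
      have h4 : ¬ (X = 0 ∧ Y = d.xs) := by
        rintro ⟨h5, h6⟩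
        rw [h5, h6, zero_add] at h2
        exact hd.xsκ h2
      rw [if_neg hT, if_neg hT, if_neg h4, if_neg h4] at h
      split_ifs at h with a1 a2 a2
      · exact add_left_cancel (sub_left_inj.mp (Prod.ext_iff.mp h).2)
      · exfalso
        have := (Prod.ext_iff.mp h).1
        exact hXκ (this.trans h2)
      · exfalso
        have := (Prod.ext_iff.mp h).1
        exact hXκ (this.symm.trans h2)
      · exact add_left_cancel (Prod.ext_iff.mp h).2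
    rw [if_neg (show ¬ (X + Y = d.κ ∧ x + y - d.o ∈ d.D) from fun h => h2 h.1),
      if_neg (show ¬ (X + Y = d.κ ∧ x + y' - d.o ∈ d.D) from fun h => h2 h.1)] at h
    by_cases h3 : Touched d.κ d.M X Y
    · rw [if_pos h3, if_pos h3] at h
      split_ifs at h
      · exact d.phi_inj_y (Prod.ext_iff.mp h).2
      · exact d.phi_inj_y (Prod.ext_iff.mp h).2
    rw [if_neg h3, if_neg h3] at h
    split_ifs at h
    · exact sub_right_inj.mp (Prod.ext_iff.mp h).2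
    · exact add_left_cancel (Prod.ext_iff.mp h).2

lemma Dat.Ok.row_inj (hd : d.Ok) {X Y Y' : G} {x y y' : H} (hr : ¬ (X = 0 ∧ x ∈ d.D))
    (hs : ¬ (Y = 0 ∧ y ∈ d.D)) (hs' : ¬ (Y' = 0 ∧ y' ∈ d.D))
    (h : d.cell X x Y y = d.cell X x Y' y') : Y = Y' ∧ y = y' := by
  -- enough: the same block
  suffices hYY : Y = Y' by
    subst hYY
    exact ⟨rfl, hd.block_inj hs hs' h⟩
  -- columns of class `0` against the other ones
  have key : ∀ (Y : G) (y y' : H), y' ∉ d.D → Y ≠ 0 → d.cell X x Y y ≠ d.cell X x 0 y' := by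
    intro Y y y' hy' hY h
    rcases hd.row_cases (Y := Y) hr hY y with ⟨h1, h2⟩ | ⟨h1, h2, h3, h4, h5⟩ | ⟨h1, h2, h3⟩
    · rcases h2 with h2 | ⟨i, hi, h2, h3⟩
      · rcases hd.col0_cases X x y' with ⟨g1, g2, g3⟩ | ⟨g1, g2, g3⟩ | ⟨g1, g3⟩ <;>
        rw [h2, g3] at h <;> have h4 := (Prod.ext_iff.mp h).1 <;> simp only at h4
        · exact hd.k0 h4
        · rcases h1 with h1 | h1
          · exact g2 h1.2.2
          · exact h1.2 g1
        · exact g1 h4.symm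
      · rcases hd.col0_cases X x y' with ⟨g1, g2, g3⟩ | ⟨g1, g2, g3⟩ | ⟨g1, g3⟩ <;>
        rw [h3, g3] at h <;> obtain ⟨h4, h5⟩ := Prod.ext_iff.mp h <;> simp only at h4 h5
        · exact hy' (add_left_cancel h5 ▸ hi)
        · rw [if_pos g1] at h4
          exact hd.k0 h4.symm
        · exact hy' (add_left_cancel h5 ▸ hi)
    · rw [h] at h1 h2
      rcases hd.col0_cases X x y' with ⟨g1, g2, g3⟩ | ⟨g1, g2, g3⟩ | ⟨g1, g3⟩ <;>
      rw [g3] at h1 h2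
      · rw [if_pos g1] at h2
        exact h2 rfl
      · exact h1 rfl
      · rw [if_neg g1] at h2
        exact h2 rfl
    · rw [h] at h1 h2
      rcases hd.col0_cases X x y' with ⟨g1, g2, g3⟩ | ⟨g1, g2, g3⟩ | ⟨g1, g3⟩ <;>
      rw [g3] at h1 h2
      · exact h3 g2
      · exact h1 rfl
      · have h4 : X = X + Y := h2
        exact hY (add_eq_left.mp h4.symm)
  by_cases hY : Y = 0
  · by_cases hY' : Y' = 0
    · rw [hY, hY']
    · exfalso
      subst hY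
      exact key Y' y' y (fun h => hs ⟨rfl, h⟩) hY' h.symm
  by_cases hY' : Y' = 0
  · exfalso
    subst hY'
    exact key Y y y' (fun h => hs' ⟨rfl, h⟩) hY h
  have hblk : ∀ Y Y' : G, ((X = d.κ ∧ Y = d.κ ∧ x ∈ d.D) ∨ (X + Y = d.κ ∧ X ≠ d.κ)) →
      ((X = d.κ ∧ Y' = d.κ ∧ x ∈ d.D) ∨ (X + Y' = d.κ ∧ X ≠ d.κ)) → Y = Y' := by
    intro Y Y' h1 h2
    rcases h1 with ⟨h1, h4, h5⟩ | ⟨h1, h4⟩ <;> rcases h2 with ⟨h2, h6, h7⟩ | ⟨h2, h6⟩
    · rw [h4, h6]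
    · exact absurd h1 h6
    · exact absurd h2 h4
    · exact add_left_cancel (h1.trans h2.symm)
  have hfst : (d.cell X x Y y).1 = (d.cell X x Y' y').1 := by rw [h]
  have hkey2 : ∀ (Y Y' : G) (y y' : H), Y ≠ 0 → Y' ≠ 0 →
      (d.cell X x Y y).1 = (d.cell X x Y' y').1 →
      (((X = d.κ ∧ Y = d.κ ∧ x ∈ d.D) ∨ (X + Y = d.κ ∧ X ≠ d.κ)) ∧
      (d.cell X x Y y = (d.κ, x + y) ∨ ∃ i ∈ d.D, x + y = d.o + i ∧
        d.cell X x Y y = (if X = d.κ then 0 else X, x + i))) →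
      (((d.cell X x Y' y').1 ≠ d.κ ∧ (d.cell X x Y' y').1 ≠ (if X = d.κ then 0 else X)) ∨
      ((d.cell X x Y' y').1 ≠ d.κ ∧ (d.cell X x Y' y').1 = X + Y' ∧ x ∉ d.D)) → False := by
    intro Y Y' y y' hY hY' h0 h1 h2
    rcases h1 with ⟨h1, h3 | ⟨i, -, -, h3⟩⟩
    · rw [h3] at h0
      rcases h2 with h2 | h2
      · exact h2.1 h0.symm
      · exact h2.1 h0.symm
    · rw [h3] at h0
      rcases h2 with h2 | h2
      · exact h2.2 h0.symm
      · have h4 : (if X = d.κ then (0 : G) else X) = X + Y' := h0.trans h2.2.1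
        rcases h1 with h1 | h1
        · exact h2.2.2 h1.2.2
        · rw [if_neg h1.2] at h4
          exact hY' (add_eq_left.mp h4.symm)
  rcases hd.row_cases (Y := Y) hr hY y with h1 | ⟨h1, h2, h3, h4, h5⟩ | ⟨h1, h2, h3⟩ <;>
  rcases hd.row_cases (Y := Y') hr hY' y' with g1 | ⟨g1, g2, g3, g4, g5⟩ | ⟨g1, g2, g3⟩
  · exact hblk _ _ h1.1 g1.1
  · exact (hkey2 Y Y' y y' hY hY' hfst h1 (Or.inl ⟨g1, g2⟩)).elim
  · exact (hkey2 Y Y' y y' hY hY' hfst h1 (Or.inr ⟨g1, g2, g3⟩)).elim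
  · exact (hkey2 Y' Y y' y hY' hY hfst.symm g1 (Or.inl ⟨h1, h2⟩)).elim
  · rw [h3, g3] at hfst
    exact hd.row X h5 _ _ hY hY' hfst
  · exact absurd h4 g3
  · exact (hkey2 Y' Y y' y hY' hY hfst.symm g1 (Or.inr ⟨h1, h2, h3⟩)).elim
  · exact absurd g4 h3
  · rw [h2, g2] at hfst
    exact add_left_cancel hfst

lemma Dat.Ok.sym_ok (hd : d.Ok) {X Y : G} {x y : H} (hr : ¬ (X = 0 ∧ x ∈ d.D))
    (hs : ¬ (Y = 0 ∧ y ∈ d.D)) :
    ¬ ((d.cell X x Y y).1 = d.κ ∧ (d.cell X x Y y).2 - d.o ∈ d.D) := by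
  rintro ⟨h1, h2⟩
  by_cases hY : Y = 0
  · subst hY
    have hy : y ∉ d.D := fun h => hs ⟨rfl, h⟩
    rcases hd.col0_cases X x y with ⟨g1, g2, g3⟩ | ⟨g1, g2, g3⟩ | ⟨g1, g3⟩ <;> rw [g3] at h1 h2
    · exact hd.k0 h1.symm
    · exact hd.Λne x y g2 hy h2
    · exact g1 h1
  · rcases hd.col_index (y := y) hr hY with ⟨g1, g2⟩ | ⟨Z, i, g1, g2, g3⟩ | ⟨g1, g2, g3, g4⟩
    · -- the class of the deleted symbols
      rw [g1] at h2
      have h3 : x + y - d.o ∈ d.D := h2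
      unfold Dat.cell at g1
      rw [if_neg (fun h => hY h.2)] at g1
      by_cases h4 : X = d.κ ∧ Y = d.κ ∧ x ∈ d.D
      · rw [if_pos h4, if_pos h3] at g1
        exact hd.k0 (Prod.ext_iff.mp g1).1.symm
      · rw [if_neg h4] at g1
        rcases g2 with g2 | g2
        · exact h4 g2
        · rw [if_pos ⟨g2.1, h3⟩] at g1
          exact g2.2 (Prod.ext_iff.mp g1).1
    · rw [g2] at h1
      exact g1 h1
    · rw [g4] at h1
      exact g2 h1

/-- the deleted rows, and the deleted columns -/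
def Dat.R (d : Dat G H) : Finset (G × H) := {0} ×ˢ d.D

/-- the deleted symbols -/
def Dat.S (d : Dat G H) : Finset (G × H) := {d.κ} ×ˢ (d.D.image fun i => d.o + i)

omit [DecidableEq G] [DecidableEq H] [AddCommGroup H] in
lemma Dat.mem_R (d : Dat G H) (r : G × H) : r ∈ d.R ↔ r.1 = 0 ∧ r.2 ∈ d.D := by
  unfold Dat.R
  rw [Finset.mem_product, Finset.mem_singleton]

omit [AddCommGroup G] [DecidableEq G] in
lemma Dat.mem_S (d : Dat G H) (r : G × H) : r ∈ d.S ↔ r.1 = d.κ ∧ r.2 - d.o ∈ d.D := by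
  unfold Dat.S
  rw [Finset.mem_product, Finset.mem_singleton, Finset.mem_image]
  constructor
  · rintro ⟨h1, i, h2, h3⟩
    refine ⟨h1, ?_⟩
    rw [← h3, add_sub_cancel_left]
    exact h2
  · rintro ⟨h1, h2⟩
    exact ⟨h1, _, h2, by abel⟩

/-- the square, on the group `G × H` -/
def Dat.sq (d : Dat G H) (r s : G × H) : G × H := d.cell r.1 r.2 s.1 s.2

/-- The lifted square is Latin. -/
theorem Dat.Ok.holey (hd : d.Ok) : Holey d.R d.R d.S d.sq where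
  ne := by
    intro r s hr hs
    rw [d.mem_R] at hr hs
    rw [d.mem_S]
    exact hd.sym_ok hr hs
  row := by
    intro r hr s s' hs hs' h
    rw [d.mem_R] at hr hs hs'
    obtain ⟨h1, h2⟩ := hd.row_inj hr hs hs' h
    exact Prod.ext h1 h2
  col := by
    intro s hs r r' hr hr' h
    rw [d.mem_R] at hr hr' hs
    by_cases hY : s.1 = 0
    · have hy : s.2 ∉ d.D := fun h => hs ⟨hY, h⟩
      have h1 : d.cell r.1 r.2 s.1 s.2 = d.cell r'.1 r'.2 s.1 s.2 := h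
      rw [hY] at h1
      obtain ⟨h2, h3⟩ := hd.col0_inj hr hr' hy h1
      exact Prod.ext h2 h3
    · obtain ⟨h2, h3⟩ := hd.col_inj hr hr' hY h
      exact Prod.ext h2 h3

/-! ### the values used by the plex -/

lemma Dat.Ok.cell_good (hd : d.Ok) {X Y : G} (hX : X ≠ 0) (hY : Y ≠ 0) (hXY : X + Y ≠ d.κ)
    (hM : d.M X Y = X + Y) (x y : H) : d.cell X x Y y = (X + Y, x + y) := by
  unfold Dat.cell
  rw [if_neg (fun h => hY h.2), if_neg, if_neg (fun h => hXY h.1),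
    if_neg (fun h : Touched _ _ _ _ => h.2.2.2 hM), if_neg (fun h => hX h.1)]
  rintro ⟨h1, h2, -⟩
  rw [h1, h2, hd.kk] at hM
  exact hd.k2 hM.symm

lemma Dat.Ok.cell_col0 (hd : d.Ok) {X : G} (hX : X ≠ d.κ) (x y : H) :
    d.cell X x 0 y = (X, x + y) := by
  rcases hd.col0_cases X x y with ⟨h, -, -⟩ | ⟨h, -, -⟩ | ⟨-, h⟩
  · exact absurd h hX
  · exact absurd h hX
  · exact h

lemma Dat.Ok.cell_row0 (hd : d.Ok) {Y : G} (hY : Y ≠ d.κ) (hYs : Y ≠ d.xs) (x y : H) :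
    d.cell 0 x Y y = (Y, x + y) := by
  unfold Dat.cell
  rw [if_neg (fun h => hd.k0 h.1.symm), if_neg (fun h => hd.k0 h.1.symm), zero_add,
    if_neg (fun h => hY h.1), if_neg (fun h : Touched _ _ _ _ => h.1 rfl), if_neg (fun h => hYs h.2)]

lemma Dat.Ok.cell_hole (hd : d.Ok) {X Y : G} (hX : X ≠ d.κ) (hXY : X + Y = d.κ) {x y : H}
    (h : x + y - d.o ∉ d.D) : d.cell X x Y y = (d.κ, x + y) := by
  unfold Dat.cell
  rw [if_neg (fun h => hX h.1), if_neg (fun h => hX h.1), if_neg (fun h' => h h'.2),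
    if_neg (fun h : Touched _ _ _ _ => h.2.2.1 hXY), if_neg, hXY]
  rintro ⟨h1, h2⟩
  rw [h1, h2, zero_add] at hXY
  exact hd.xsκ hXY

lemma Dat.Ok.cell_strip {X Y : G} (hX : X ≠ d.κ) (hT : Touched d.κ d.M X Y) {x : H} (y : H)
    (h : x ∈ d.D) : d.cell X x Y y = (d.M X Y, d.phi Y (d.M X Y) x y) := by
  unfold Dat.cell
  rw [if_neg (fun h => hX h.1), if_neg (fun h => hX h.1), if_neg (fun h => hT.2.2.1 h.1),
    if_pos hT, if_pos h]

end Pool.Agent.Lib.MP_185394_co.All
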