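import Mathlib

/-!
Idempotent Latin squares of even order with one prescribed entry, and Latin squares outside a set.
-/

namespace Pool.Agent.Lib.MP_185394_co.All

open Finset

/-- an idempotent Latin square outside one point -/
structure IdemOut {V : Type} (o : V) (f : V → V → V) : Prop where
  ne : ∀ x y, x ≠ o → y ≠ o → f x y ≠ o
  row : ∀ x, x ≠ o → ∀ y y', y ≠ o → y' ≠ o → f x y = f x y' → y = y'
  col : ∀ y, y ≠ o → ∀ x x', x ≠ o → x' ≠ o → f x y = f x' y → x = x'
  idem : ∀ x, x ≠ o → f x x = x

/-- the idempotent Latin square on `ZMod N` with one more point -/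
def idemSq (N : ℕ) : Option (ZMod N) → Option (ZMod N) → Option (ZMod N)
  | some i, some j => if j = i + 1 then none else some (i + i - j)
  | some i, none => some (i - 1)
  | none, some j => some (j - 1 - 1)
  | none, none => none

lemma idemSq_row {N : ℕ} (x y y' : Option (ZMod N)) (h : idemSq N x y = idemSq N x y') :
    y = y' := by
  rcases x with _ | i <;> rcases y with _ | j <;> rcases y' with _ | j' <;>
    simp only [idemSq, reduceCtorEq, Option.some.injEq] at h ⊢
  · linear_combination h
  · split_ifs at h with h1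
    apply h1
    have h2 : i - 1 = i + i - j' := Option.some.inj h
    linear_combination h2
  · split_ifs at h with h1
    apply h1
    have h2 : i + i - j = i - 1 := Option.some.inj h
    linear_combination -h2
  · split_ifs at h with h1 h2 h2
    · rw [h1, h2]
    · have h3 : i + i - j = i + i - j' := Option.some.inj h
      linear_combination -h3

lemma idemSq_col {N : ℕ} (hN : ∀ x : ZMod N, x + x = 0 → x = 0) (y x x' : Option (ZMod N))
    (h : idemSq N x y = idemSq N x' y) : x = x' := by
  rcases x with _ | i <;> rcases x' with _ | i' <;> rcases y with _ | j <;>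
    simp only [idemSq, reduceCtorEq, Option.some.injEq] at h ⊢
  · split_ifs at h with h1
    have h2 : j - 1 - 1 = i' + i' - j := Option.some.inj h
    have h3 := hN (i' - (j - 1)) (by linear_combination -h2)
    apply h1
    linear_combination -h3
  · split_ifs at h with h1
    have h2 : i + i - j = j - 1 - 1 := Option.some.inj h
    have h3 := hN (i - (j - 1)) (by linear_combination h2)
    apply h1
    linear_combination -h3
  · linear_combination h
  · split_ifs at h with h1 h2 h2
    · linear_combination h2 - h1
    · have h3 : i + i - j = i' + i' - j := Option.some.inj h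
      have h4 := hN (i - i') (by linear_combination h3)
      linear_combination h4

lemma idemSq_idem {N : ℕ} (hN : (1 : ZMod N) ≠ 0) (x : Option (ZMod N)) : idemSq N x x = x := by
  rcases x with _ | i
  · rfl
  · simp only [idemSq]
    rw [if_neg]
    · rw [add_sub_cancel_right]
    · intro h
      exact hN (add_eq_left.mp h.symm)

lemma two_ne {N : ℕ} (hN : Odd N) (x : ZMod N) (h : x + x = 0) : x = 0 := by
  obtain ⟨k, hk⟩ := hN
  have h1 : (N : ZMod N) * x = 0 := by rw [ZMod.natCast_self, zero_mul]
  have h2 : (N : ZMod N) = 2 * (k : ZMod N) + 1 := by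
    have : (N : ZMod N) = ((2 * k + 1 : ℕ) : ZMod N) := by rw [← hk]
    rw [this]
    push_cast
    ring
  rw [h2] at h1
  linear_combination h1 - (k : ZMod N) * h

/-- idempotent Latin squares outside a point, with a prescribed entry -/
theorem exists_idemOut {V : Type} [Fintype V] [DecidableEq V] (o a b c : V)
    (hV : Odd (Fintype.card V)) (hV7 : 7 ≤ Fintype.card V) (ha : a ≠ o) (hb : b ≠ o) (hc : c ≠ o)
    (hab : a ≠ b) (hac : a ≠ c) (hbc : b ≠ c) :
    ∃ f : V → V → V, IdemOut o f ∧ f a b = c := by
  classical
  obtain ⟨k, hk⟩ := hV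
  obtain ⟨N, hN⟩ : ∃ N, N = 2 * (k - 1) + 1 := ⟨_, rfl⟩
  have hNodd : Odd N := ⟨k - 1, hN⟩
  have hN5 : 5 ≤ N := by omega
  have : NeZero N := ⟨by omega⟩
  have hcard : Fintype.card (Option (ZMod N)) = (univ.erase o).card := by
    rw [Fintype.card_option, ZMod.card, Finset.card_erase_of_mem (mem_univ _), Finset.card_univ]
    omega
  have hcast : ∀ n : ℕ, 0 < n → n < N → (n : ZMod N) ≠ 0 := by
    intro n hn hnN h
    rw [ZMod.natCast_eq_zero_iff] at h
    exact absurd (Nat.le_of_dvd hn h) (by omega)
  have h1 : (1 : ZMod N) ≠ 0 := by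
    have := hcast 1 (by omega) (by omega)
    rwa [Nat.cast_one] at this
  have h2 : (2 : ZMod N) ≠ 0 := by
    have := hcast 2 (by omega) (by omega)
    rwa [Nat.cast_ofNat] at this
  have h4 : (4 : ZMod N) ≠ 0 := by
    have := hcast 4 (by omega) (by omega)
    rwa [Nat.cast_ofNat] at this
  have h02 : (some 0 : Option (ZMod N)) ≠ some 2 := fun h => h2 (Option.some.inj h).symm
  have h0m : (some 0 : Option (ZMod N)) ≠ some (-2) := fun h => h2 (by
    have := Option.some.inj h
    linear_combination this)
  have h2m : (some 2 : Option (ZMod N)) ≠ some (-2) := fun h => h4 (by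
    have := Option.some.inj h
    linear_combination this)
  let f0 : Option (ZMod N) → V := fun x => if x = some 0 then a else if x = some 2 then b else c
  have e0 : f0 (some 0) = a := if_pos rfl
  have e2 : f0 (some 2) = b := by
    simp only [f0]
    rw [if_neg h02.symm, if_pos trivial]
  have em : f0 (some (-2)) = c := by
    simp only [f0]
    rw [if_neg h0m.symm, if_neg h2m.symm]
  obtain ⟨e, he⟩ := Finset.exists_equiv_extend_of_card_eq (α := Option (ZMod N)) (β := V)
    (t := univ.erase o) hcard (s := {some 0, some 2, some (-2)}) (f := f0) (by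
      intro x hx
      rw [mem_image] at hx
      obtain ⟨y, hy, rfl⟩ := hx
      simp only [mem_insert, mem_singleton] at hy
      rw [mem_erase]
      refine ⟨?_, mem_univ _⟩
      rcases hy with rfl | rfl | rfl
      · rw [e0]; exact ha
      · rw [e2]; exact hb
      · rw [em]; exact hc) (by
      intro x hx y hy hxy
      simp only [coe_insert, coe_singleton, Set.mem_insert_iff, Set.mem_singleton_iff] at hx hy
      rcases hx with rfl | rfl | rfl <;> rcases hy with rfl | rfl | rfl <;>
        simp only [e0, e2, em] at hxy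
      · rfl
      · exact absurd hxy hab
      · exact absurd hxy hac
      · exact absurd hxy hab.symm
      · rfl
      · exact absurd hxy hbc
      · exact absurd hxy hac.symm
      · exact absurd hxy hbc.symm
      · rfl)
  have hv0 : ((e (some 0) : {x // x ∈ univ.erase o}) : V) = a := by
    rw [he _ (by simp), e0]
  have hv2 : ((e (some 2) : {x // x ∈ univ.erase o}) : V) = b := by
    rw [he _ (by simp), e2]
  have hvm : ((e (some (-2)) : {x // x ∈ univ.erase o}) : V) = c := by
    rw [he _ (by simp), em]
  have hmem : ∀ {x : V}, x ≠ o → x ∈ univ.erase o := fun h => mem_erase.mpr ⟨h, mem_univ _⟩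
  let f : V → V → V := fun x y => if hx : x ≠ o then if hy : y ≠ o then
    (e (idemSq N (e.symm ⟨x, hmem hx⟩) (e.symm ⟨y, hmem hy⟩))).1 else x else x
  have hf : ∀ x y (hx : x ≠ o) (hy : y ≠ o), f x y =
      (e (idemSq N (e.symm ⟨x, hmem hx⟩) (e.symm ⟨y, hmem hy⟩))).1 := by
    intro x y hx hy
    simp only [f]
    rw [dif_pos hx, dif_pos hy]
  refine ⟨f, ⟨?_, ?_, ?_, ?_⟩, ?_⟩
  · intro x y hx hy
    rw [hf x y hx hy]
    exact (mem_erase.mp (e _).2).1
  · intro x hx y y' hy hy' h
    rw [hf x y hx hy, hf x y' hx hy'] at h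
    have h3 := idemSq_row _ _ _ (e.injective (Subtype.ext h))
    exact congrArg Subtype.val (e.symm.injective h3)
  · intro y hy x x' hx hx' h
    rw [hf x y hx hy, hf x' y hx' hy] at h
    have h3 := idemSq_col (two_ne hNodd) _ _ _ (e.injective (Subtype.ext h))
    exact congrArg Subtype.val (e.symm.injective h3)
  · intro x hx
    rw [hf x x hx hx, idemSq_idem h1, Equiv.apply_symm_apply]
  · rw [hf a b ha hb]
    have g1 : e.symm ⟨a, hmem ha⟩ = some 0 := by
      rw [Equiv.symm_apply_eq]
      exact Subtype.ext hv0.symm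
    have g2 : e.symm ⟨b, hmem hb⟩ = some 2 := by
      rw [Equiv.symm_apply_eq]
      exact Subtype.ext hv2.symm
    have g3 : idemSq N (some 0) (some 2) = some (-2) := by
      simp only [idemSq]
      rw [if_neg, zero_add, zero_sub]
      intro h
      apply h1
      linear_combination h
    rw [g1, g2, g3, hvm]

/-- Latin squares outside a set -/
theorem exists_latin_outside {H : Type} [AddCommGroup H] [Fintype H] [DecidableEq H]
    (D : Finset H) (o : H) (hD : D.card < Fintype.card H) :
    ∃ Λ : H → H → H, (∀ x y, x ∉ D → y ∉ D → Λ x y - o ∉ D) ∧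
      (∀ x, x ∉ D → ∀ y y', y ∉ D → y' ∉ D → Λ x y = Λ x y' → y = y') ∧
      (∀ y, y ∉ D → ∀ x x', x ∉ D → x' ∉ D → Λ x y = Λ x' y → x = x') := by
  classical
  have : NeZero (Fintype.card H - D.card) := ⟨by omega⟩
  have hc : Fintype.card {x : H // x ∉ D} = Fintype.card (ZMod (Fintype.card H - D.card)) := by
    rw [Fintype.card_subtype_compl, Fintype.card_coe, ZMod.card]
  let e : {x : H // x ∉ D} ≃ ZMod (Fintype.card H - D.card) := Fintype.equivOfCardEq hc
  let Λ : H → H → H := fun x y => if hx : x ∉ D then if hy : y ∉ D then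
    (e.symm (e ⟨x, hx⟩ + e ⟨y, hy⟩)).1 + o else 0 else 0
  have hΛ : ∀ x y (hx : x ∉ D) (hy : y ∉ D), Λ x y = (e.symm (e ⟨x, hx⟩ + e ⟨y, hy⟩)).1 + o := by
    intro x y hx hy
    simp only [Λ]
    rw [dif_pos hx, dif_pos hy]
  refine ⟨Λ, ?_, ?_, ?_⟩
  · intro x y hx hy
    rw [hΛ x y hx hy, add_sub_cancel_right]
    exact (e.symm _).2
  · intro x hx y y' hy hy' h
    rw [hΛ x y hx hy, hΛ x y' hx hy'] at h
    have h1 := e.symm.injective (Subtype.ext (add_right_cancel h))
    exact congrArg Subtype.val (e.injective (add_left_cancel h1))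
  · intro y hy x x' hx hx' h
    rw [hΛ x y hx hy, hΛ x' y hx' hy] at h
    have h1 := e.symm.injective (Subtype.ext (add_right_cancel h))
    exact congrArg Subtype.val (e.injective (add_right_cancel h1))

end Pool.Agent.Lib.MP_185394_co.All
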