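import Pool.Agent.Lib.MP_185394_co.Near.Small
import Pool.Agent.Lib.MP_185394_co.All.Idem

/-!
The nearly natural Latin square of order `β γ - 1`, with an idempotent square in the corner.
-/

namespace Pool.Agent.Lib.MP_185394_co.All

open Finset Near

set_option linter.unusedSectionVars false

/-- the square -/
def cornerSq {β γ : ℕ} (f : ZMod γ → ZMod γ → ZMod γ) (ρ : ZMod β × ZMod γ → Equiv.Perm (ZMod β))
    (l : ZMod β × ZMod γ → ZMod β → ZMod γ) (r s : ZMod β × ZMod γ) : ZMod β × ZMod γ :=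
  if s.1 = 0 ∧ r.1 + ρ r s.1 = 1 then (1, f r.2 (1 - s.2))
  else if r.1 + ρ r s.1 = 1 - s.1 then (r.1 + ρ r s.1, 1 + l r s.1 - s.2)
  else if r.1 + ρ r s.1 = 1 ∧ s.2 + l r s.1 = 1 then (1, 1) - s
  else (r.1 + ρ r s.1, s.2 + l r s.1)

variable {β γ : ℕ} [NeZero β] [NeZero γ] {ρ : ZMod β × ZMod γ → Equiv.Perm (ZMod β)}
  {l : ZMod β × ZMod γ → ZMod β → ZMod γ}

/-- the four kinds of cells -/
lemma cornerSq_cases (f : ZMod γ → ZMod γ → ZMod γ) (ρ : ZMod β × ZMod γ → Equiv.Perm (ZMod β))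
    (l : ZMod β × ZMod γ → ZMod β → ZMod γ) (r s : ZMod β × ZMod γ) :
    (s.1 = 0 ∧ r.1 + ρ r s.1 = 1 ∧ cornerSq f ρ l r s = (1, f r.2 (1 - s.2))) ∨
    (s.1 ≠ 0 ∧ r.1 + ρ r s.1 = 1 - s.1 ∧
      cornerSq f ρ l r s = (r.1 + ρ r s.1, 1 + l r s.1 - s.2)) ∨
    (s.1 ≠ 0 ∧ r.1 + ρ r s.1 ≠ 1 - s.1 ∧ r.1 + ρ r s.1 = 1 ∧ s.2 + l r s.1 = 1 ∧
      cornerSq f ρ l r s = (1, 1) - s) ∨
    (r.1 + ρ r s.1 ≠ 1 - s.1 ∧ ¬ (r.1 + ρ r s.1 = 1 ∧ s.2 + l r s.1 = 1) ∧
      cornerSq f ρ l r s = (r.1 + ρ r s.1, s.2 + l r s.1)) := by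
  unfold cornerSq
  by_cases h1 : s.1 = 0 ∧ r.1 + ρ r s.1 = 1
  · left
    rw [if_pos h1]
    exact ⟨h1.1, h1.2, rfl⟩
  rw [if_neg h1]
  by_cases h2 : r.1 + ρ r s.1 = 1 - s.1
  · right; left
    rw [if_pos h2]
    refine ⟨fun h => h1 ⟨h, ?_⟩, h2, rfl⟩
    rw [h2, h, sub_zero]
  rw [if_neg h2]
  by_cases h3 : r.1 + ρ r s.1 = 1 ∧ s.2 + l r s.1 = 1
  · right; right; left
    rw [if_pos h3]
    exact ⟨fun h => h1 ⟨h, h3.1⟩, h2, h3.1, h3.2, rfl⟩
  · right; right; right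
    rw [if_neg h3]
    exact ⟨h2, h3, rfl⟩

theorem cornerSq_punctured {f : ZMod γ → ZMod γ → ZMod γ} (hf : IdemOut 1 f) (hρ : RowPerms ρ) (hl : Lines ρ l)
    (hβ : (1 : ZMod β) ≠ 0) : Punctured ((1, 1) : ZMod β × ZMod γ) (cornerSq f ρ l) where
  ne := by
    intro r s hr hs h
    rcases cornerSq_cases f ρ l r s with ⟨h1, h2, h3⟩ | ⟨h1, h2, h3⟩ | ⟨h1, h2, h3, h4, h5⟩ |
      ⟨h1, h2, h3⟩
    · rw [h3] at h
      have h4 := (Prod.ext_iff.mp h).2
      simp only at h4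
      rw [h1] at h2
      obtain ⟨h5, h6⟩ := hρ.class_one hβ h2
      exact hf.ne _ _ (fun h7 => h5 (Prod.ext h6 h7))
        (fun h7 => hs (Prod.ext h1 (sub_eq_self.mp h7))) h4
    · rw [h3] at h
      have h4 := (Prod.ext_iff.mp h).1
      simp only at h4
      rw [h2] at h4
      exact h1 (sub_eq_self.mp h4)
    · rw [h5] at h
      exact hs (sub_eq_self.mp h)
    · rw [h3] at h
      exact h2 ⟨(Prod.ext_iff.mp h).1, (Prod.ext_iff.mp h).2⟩
  row := by
    intro r hr s s' hs hs' h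
    -- a hole against a non-hole
    have key : ∀ s s' : ZMod β × ZMod γ, s' ≠ 0 → s.1 ≠ 0 → r.1 + ρ r s.1 ≠ 1 - s.1 →
        r.1 + ρ r s.1 = 1 → s.2 + l r s.1 = 1 → (cornerSq f ρ l r s').1 = r.1 + ρ r s'.1 →
        cornerSq f ρ l r s' ≠ (1, 1) - s := by
      intro s s' hs' h1 h2 h3 h4 h5 h6
      have h7 : r.1 + ρ r s'.1 = 1 - s.1 := by
        rw [← h5, h6]
        rfl
      -- the column has class zero
      have h8 : s'.1 = 0 ∧ l r 0 = 1 - s.2 := by
        rcases hρ.hole hl hr h2 h3 h4 with ⟨h9, h10⟩ | ⟨h9, h10⟩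
        · have h11 : r.1 = 1 - s.1 := by rw [← h10]; rfl
          rw [← h11] at h7
          have h12 : ρ r s'.1 = ρ r 0 := by
            rw [hρ.zero r h9]
            exact add_eq_left.mp h7
          refine ⟨(ρ r).injective h12, ?_⟩
          rw [hl.nat 0 r hr (by
            rw [hρ.zero r h9, add_zero, h11, sub_zero]
            intro h13
            exact h1 (sub_eq_self.mp h13)) (hρ.zero r h9)]
          rw [← h10]
          rfl
        · rw [h9, h10] at h7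
          simp only [sub_self] at h7
          have h12 : ρ (1, 1) s'.1 = ρ (1, 1) 0 := by
            rw [hρ.kap0]
            exact (eq_neg_of_add_eq_zero_right h7)
          refine ⟨(ρ (1, 1)).injective h12, ?_⟩
          rw [h9, h10, hl.kap0]
          simp
      obtain ⟨h8, h9⟩ := h8
      have hs2 : s'.2 ≠ 0 := fun h => hs' (Prod.ext h8 h)
      rcases cornerSq_cases f ρ l r s' with ⟨g1, g2, g3⟩ | ⟨g1, g2, g3⟩ | ⟨g1, g2, g3, g4, g5⟩ |
        ⟨g1, g2, g3⟩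
      · rw [g2] at h7
        exact h1 (sub_eq_self.mp h7.symm)
      · exact g1 h8
      · exact g1 h8
      · rw [g3] at h6
        have h10 := (Prod.ext_iff.mp h6).2
        simp only [h8, Prod.snd_sub] at h10
        rw [h9] at h10
        exact hs2 (add_eq_right.mp h10)
    rcases cornerSq_cases f ρ l r s with ⟨h1, h2, h3⟩ | ⟨h1, h2, h3⟩ | ⟨h1, h2, h3, h4, h5⟩ |
      ⟨h1, h2, h3⟩ <;>
    rcases cornerSq_cases f ρ l r s' with ⟨g1, g2, g3⟩ | ⟨g1, g2, g3⟩ | ⟨g1, g2, g3, g4, g5⟩ |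
      ⟨g1, g2, g3⟩
    · rw [h3, g3] at h
      have h4 := (Prod.ext_iff.mp h).2
      simp only at h4
      rw [h1] at h2
      obtain ⟨h5, h6⟩ := hρ.class_one hβ h2
      have h7 : r.2 ≠ 1 := fun h7 => h5 (Prod.ext h6 h7)
      refine Prod.ext (h1.trans g1.symm) (sub_right_inj.mp (hf.row _ h7 _ _ ?_ ?_ h4))
      · exact fun h8 => hs (Prod.ext h1 (sub_eq_self.mp h8))
      · exact fun h8 => hs' (Prod.ext g1 (sub_eq_self.mp h8))
    · rw [h3, g3] at h
      have h4 : (1 : ZMod β) = r.1 + ρ r s'.1 := (Prod.ext_iff.mp h).1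
      rw [g2] at h4
      exact absurd (sub_eq_self.mp h4.symm) g1
    · exact absurd (h.trans g5) (key s' s hs g1 g2 g3 g4 (by rw [h3, h2]))
    · rw [h3, g3] at h
      have h4 : (1 : ZMod β) = r.1 + ρ r s'.1 := (Prod.ext_iff.mp h).1
      have h5 := (ρ r).injective (add_left_cancel (h2.trans h4))
      rw [← h4, ← h5, h1, sub_zero] at g1
      exact absurd rfl g1
    · rw [h3, g3] at h
      have h4 : r.1 + ρ r s.1 = 1 := (Prod.ext_iff.mp h).1
      rw [h2] at h4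
      exact absurd (sub_eq_self.mp h4) h1
    · rw [h3, g3] at h
      have h4 : r.1 + ρ r s.1 = r.1 + ρ r s'.1 := (Prod.ext_iff.mp h).1
      have h5 := (ρ r).injective (add_left_cancel h4)
      have h6 := (Prod.ext_iff.mp h).2
      simp only [h5] at h6
      exact Prod.ext h5 (sub_right_inj.mp h6)
    · exact absurd (h.trans g5) (key s' s hs g1 g2 g3 g4 (by rw [h3]))
    · rw [h3, g3] at h
      have h4 : r.1 + ρ r s.1 = r.1 + ρ r s'.1 := (Prod.ext_iff.mp h).1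
      have h5 := (ρ r).injective (add_left_cancel h4)
      rw [← h4, h2, h5] at g1
      exact absurd rfl g1
    · exact absurd (h.symm.trans h5) (key s s' hs' h1 h2 h3 h4 (by rw [g3, g2]))
    · exact absurd (h.symm.trans h5) (key s s' hs' h1 h2 h3 h4 (by rw [g3]))
    · rw [h5, g5] at h
      exact sub_right_inj.mp h
    · exact absurd (h.symm.trans h5) (key s s' hs' h1 h2 h3 h4 (by rw [g3]))
    · rw [h3, g3] at h
      have h4 : r.1 + ρ r s.1 = 1 := (Prod.ext_iff.mp h).1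
      have h5 := (ρ r).injective (add_left_cancel (h4.trans g2.symm))
      rw [h4, h5, g1, sub_zero] at h1
      exact absurd rfl h1
    · rw [h3, g3] at h
      have h4 : r.1 + ρ r s.1 = r.1 + ρ r s'.1 := (Prod.ext_iff.mp h).1
      have h5 := (ρ r).injective (add_left_cancel h4)
      rw [h4, g2, h5] at h1
      exact absurd rfl h1
    · exact absurd (h.trans g5) (key s' s hs g1 g2 g3 g4 (by rw [h3]))
    · rw [h3, g3] at h
      have h4 : r.1 + ρ r s.1 = r.1 + ρ r s'.1 := (Prod.ext_iff.mp h).1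
      have h5 := (ρ r).injective (add_left_cancel h4)
      have h6 := (Prod.ext_iff.mp h).2
      simp only [h5] at h6
      exact Prod.ext h5 (add_right_cancel h6)
  col := by
    intro s hs r r' hr hr' h
    have key : ∀ r r' : ZMod β × ZMod γ, r ≠ 0 → r' ≠ 0 → s.1 ≠ 0 → r.1 + ρ r s.1 ≠ 1 - s.1 →
        r.1 + ρ r s.1 = 1 → s.2 + l r s.1 = 1 → (cornerSq f ρ l r' s).1 = r'.1 + ρ r' s.1 →
        cornerSq f ρ l r' s ≠ (1, 1) - s := by
      intro r r' hr hr' h1 h2 h3 h4 h5 h6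
      have h7 : r'.1 + ρ r' s.1 = 1 - s.1 := by
        rw [← h5, h6]
        rfl
      rcases cornerSq_cases f ρ l r' s with ⟨g1, g2, g3⟩ | ⟨g1, g2, g3⟩ | ⟨g1, g2, g3, g4, g5⟩ |
        ⟨g1, g2, g3⟩
      · exact h1 g1
      · rw [g3] at h6
        have h8 : 1 + l r' s.1 - s.2 = 1 - s.2 := (Prod.ext_iff.mp h6).2
        exact hl.ne s.1 r' hr' g2 g1 (add_eq_left.mp (sub_left_inj.mp h8))
      · exact g2 h7
      · exact g1 h7
    rcases cornerSq_cases f ρ l r s with ⟨h1, h2, h3⟩ | ⟨h1, h2, h3⟩ | ⟨h1, h2, h3, h4, h5⟩ |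
      ⟨h1, h2, h3⟩ <;>
    rcases cornerSq_cases f ρ l r' s with ⟨g1, g2, g3⟩ | ⟨g1, g2, g3⟩ | ⟨g1, g2, g3, g4, g5⟩ |
      ⟨g1, g2, g3⟩
    · rw [h3, g3] at h
      have h4 := (Prod.ext_iff.mp h).2
      simp only at h4
      rw [h1] at h2 g2
      obtain ⟨h5, h6⟩ := hρ.class_one hβ h2
      obtain ⟨g5, g6⟩ := hρ.class_one hβ g2
      have h7 : s.2 ≠ 0 := fun h7 => hs (Prod.ext h1 h7)
      refine Prod.ext (h6.trans g6.symm) (hf.col _ (fun h8 => h7 (sub_eq_self.mp h8)) _ _ ?_ ?_ h4)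
      · exact fun h8 => h5 (Prod.ext h6 h8)
      · exact fun h8 => g5 (Prod.ext g6 h8)
    · exact absurd h1 g1
    · exact absurd h1 g1
    · rw [h3, g3] at h
      have h4 : (1 : ZMod β) = r'.1 + ρ r' s.1 := (Prod.ext_iff.mp h).1
      rw [← h4, h1, sub_zero] at g1
      exact absurd rfl g1
    · exact absurd g1 h1
    · rw [h3, g3] at h
      have h4 : r.1 + ρ r s.1 = r'.1 + ρ r' s.1 := (Prod.ext_iff.mp h).1
      have h5 : 1 + l r s.1 - s.2 = 1 + l r' s.1 - s.2 := (Prod.ext_iff.mp h).2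
      exact hl.inj s.1 r r' hr hr' h4 (add_left_cancel (sub_left_inj.mp h5)) (Or.inl h1)
    · exact absurd (h.trans g5) (key r' r hr' hr g1 g2 g3 g4 (by rw [h3]))
    · rw [h3, g3] at h
      have h4 : r.1 + ρ r s.1 = r'.1 + ρ r' s.1 := (Prod.ext_iff.mp h).1
      rw [← h4, h2] at g1
      exact absurd rfl g1
    · exact absurd g1 h1
    · exact absurd (h.symm.trans h5) (key r r' hr hr' h1 h2 h3 h4 (by rw [g3]))
    · have h6 : l r s.1 = l r' s.1 := add_left_cancel (h4.trans g4.symm)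
      exact hl.inj s.1 r r' hr hr' (h3.trans g3.symm) h6 (Or.inl h1)
    · exact absurd (h.symm.trans h5) (key r r' hr hr' h1 h2 h3 h4 (by rw [g3]))
    · rw [h3, g3] at h
      have h4 : r.1 + ρ r s.1 = 1 := (Prod.ext_iff.mp h).1
      rw [h4, g1, sub_zero] at h1
      exact absurd rfl h1
    · rw [h3, g3] at h
      have h4 : r.1 + ρ r s.1 = r'.1 + ρ r' s.1 := (Prod.ext_iff.mp h).1
      rw [h4, g2] at h1
      exact absurd rfl h1
    · exact absurd (h.trans g5) (key r' r hr' hr g1 g2 g3 g4 (by rw [h3]))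
    · rw [h3, g3] at h
      have h4 : r.1 + ρ r s.1 = r'.1 + ρ r' s.1 := (Prod.ext_iff.mp h).1
      have h5 : s.2 + l r s.1 = s.2 + l r' s.1 := (Prod.ext_iff.mp h).2
      refine hl.inj s.1 r r' hr hr' h4 (add_left_cancel h5) ?_
      by_cases hs0 : s.1 = 0
      · right
        rw [hs0, sub_zero] at h1
        rw [hs0]
        exact h1
      · exact Or.inl hs0


end Pool.Agent.Lib.MP_185394_co.All
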