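import Pool.Agent.Lib.MP_185394_co.Near.Final
import Pool.Agent.Lib.MP_185394_co.All.Small
import Pool.Agent.Lib.MP_185394_co.All.Jobs
import Pool.Agent.Lib.MP_185394_co.All.Lift

/-!
The small square has all the properties needed for the lift.
-/

namespace Pool.Agent.Lib.MP_185394_co.All

open Finset Near

set_option linter.unusedSectionVars false

section

variable {β γ : ℕ} [NeZero β] [NeZero γ] {ρ : ZMod β × ZMod γ → Equiv.Perm (ZMod β)}
  {l : ZMod β × ZMod γ → ZMod β → ZMod γ} {f : ZMod γ → ZMod γ → ZMod γ}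

lemma corner_nat (hl : Lines ρ l) {r s : ZMod β × ZMod γ} (hr : r ≠ 0) (hs : s ≠ 0)
    (hrs : r + s ≠ (1, 1)) (h1 : ρ r s.1 = s.1) (h2 : r.1 + s.1 ≠ 1 - s.1) :
    Good ((1, 1) : ZMod β × ZMod γ) (cornerSq f ρ l) r s := by
  refine ⟨hr, hs, hrs, ?_⟩
  have h3 : r.1 + ρ r s.1 ≠ 1 - s.1 := by rwa [h1]
  have h4 := hl.nat s.1 r hr h3 h1
  rcases cornerSq_cases f ρ l r s with ⟨g1, g2, g3⟩ | ⟨g1, g2, g3⟩ | ⟨g1, g2, g3, g4, g5⟩ |
    ⟨g1, g2, g3⟩
  · rw [g1, sub_zero] at h3
    rw [g1] at g2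
    exact absurd g2 h3
  · exact absurd g2 h3
  · exfalso
    apply hrs
    rw [h1] at g3
    rw [h4] at g4
    exact Prod.ext g3 (by rw [← g4, add_comm]; rfl)
  · rw [g3, h1, h4, add_comm s.2]
    rfl

lemma corner_kk (hρ : RowPerms ρ) (hl : Lines ρ l) (hβ1 : (1 : ZMod β) ≠ 0) :
    cornerSq f ρ l (1, 1) (1, 1) = 0 := by
  have e1 : ((1, 1) : ZMod β × ZMod γ).1 + ρ (1, 1) ((1, 1) : ZMod β × ZMod γ).1 = 1 := by
    show (1 : ZMod β) + ρ (1, 1) 1 = 1
    rw [hρ.kap1, add_zero]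
  rcases cornerSq_cases f ρ l (1, 1) (1, 1) with ⟨g1, g2, g3⟩ | ⟨g1, g2, g3⟩ |
    ⟨g1, g2, g3, g4, g5⟩ | ⟨g1, g2, g3⟩
  · exact absurd g1 hβ1
  · rw [e1] at g2
    simp only [sub_self] at g2
    exact absurd g2 hβ1
  · rw [g5, sub_self]
  · exfalso
    apply g2
    refine ⟨e1, ?_⟩
    show (1 : ZMod γ) + l (1, 1) 1 = 1
    rw [hl.kap1, add_zero]

lemma corner_hole (hρ : RowPerms ρ) (hl : Lines ρ l) (hf : IdemOut 1 f)
    {r : ZMod β × ZMod γ} (hr0 : r ≠ 0) (hrκ : r ≠ (1, 1)) :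
    cornerSq f ρ l r ((1, 1) - r) = r := by
  obtain ⟨s, hs⟩ : ∃ s, s = (1, 1) - r := ⟨_, rfl⟩
  have hs1 : s.1 = 1 - r.1 := by rw [hs]; rfl
  have hs2 : s.2 = 1 - r.2 := by rw [hs]; rfl
  rw [← hs]
  have hfix : ρ r s.1 = s.1 := by
    have h5 : r.1 + ρ r ((ρ r).symm (1 - r.1)) = 1 := by
      rw [Equiv.apply_symm_apply, add_sub_cancel]
    have h6 := hρ.one r _ hrκ h5
    have h7 : (ρ r).symm (1 - r.1) = s.1 := by
      rw [h6] at h5
      rw [hs1, eq_sub_iff_add_eq, add_comm]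
      exact h5
    rw [h7] at h6
    exact h6
  have hcl : r.1 + ρ r s.1 = 1 := by
    rw [hfix, hs1]
    ring
  by_cases hr1 : r.1 = 1
  · have hs0 : s.1 = 0 := by rw [hs1, hr1, sub_self]
    unfold cornerSq
    rw [if_pos ⟨hs0, hcl⟩, hs2, sub_sub_cancel,
      hf.idem r.2 (fun h => hrκ (Prod.ext hr1 h))]
    exact Prod.ext hr1.symm rfl
  · have hnref : r.1 + ρ r s.1 ≠ 1 - s.1 := by
      rw [hcl, hs1, sub_sub_cancel]
      exact fun h => hr1 h.symm
    have hlr := hl.nat s.1 r hr0 hnref hfix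
    rcases cornerSq_cases f ρ l r s with ⟨g1, g2, g3⟩ | ⟨g1, g2, g3⟩ |
      ⟨g1, g2, g3, g4, g5⟩ | ⟨g1, g2, g3⟩
    · exfalso
      rw [g1, sub_zero] at hnref
      rw [g1] at g2
      exact hnref g2
    · exact absurd g2 hnref
    · rw [g5, hs, sub_sub_cancel]
    · exfalso
      apply g2
      refine ⟨hcl, ?_⟩
      rw [hlr, hs2]
      ring

end

lemma card_double_odd {n : ℕ} [NeZero n] (hn : Odd n) (c : ZMod n) :
    (univ.filter fun Y : ZMod n => Y + Y = c).card ≤ 1 := by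
  rw [Finset.card_le_one]
  intro a ha b hb
  have h1 := (mem_filter.mp ha).2
  have h2 := (mem_filter.mp hb).2
  have h3 := two_ne hn (a - b) (by linear_combination h1 - h2)
  exact sub_eq_zero.mp h3

theorem dense_corner {β γ : ℕ} [NeZero β] [NeZero γ] (hβ : Odd β)
    {ρ : ZMod β × ZMod γ → Equiv.Perm (ZMod β)}
    {l : ZMod β × ZMod γ → ZMod β → ZMod γ} {f : ZMod γ → ZMod γ → ZMod γ} (hl : Lines ρ l)
    (hs1 : (univ.filter fun r => ρ r ≠ 1).card ≤ γ)
    (hs2 : ∀ r, (univ.filter fun Y => ρ r Y ≠ Y).card ≤ 3) :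
    Dense ((1, 1) : ZMod β × ZMod γ) (Good (1, 1) (cornerSq f ρ l)) (5 * γ + 2) where
  x0 := fun _ _ hg => hg.1
  y0 := fun _ _ hg => hg.2.1
  zk := fun _ _ hg => hg.2.2.1
  row := by
    intro r hr
    have hsub : (univ.filter fun s => ¬ Good (1, 1) (cornerSq f ρ l) r s) ⊆
        ({0, (1, 1) - r} : Finset (ZMod β × ZMod γ)) ∪
        ((univ.filter fun s : ZMod β × ZMod γ => ρ r s.1 ≠ s.1) ∪
        (univ.filter fun s : ZMod β × ZMod γ => s.1 + s.1 = 1 - r.1)) := by
      intro s hs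
      have h1 := (mem_filter.mp hs).2
      by_contra h2
      simp only [mem_union, mem_insert, mem_singleton, mem_filter, mem_univ, true_and, not_or,
        not_not] at h2
      refine h1 (corner_nat hl hr h2.1.1 (fun h3 => h2.1.2 ?_) h2.2.1 (fun h3 => h2.2.2 ?_))
      · rw [← h3, add_sub_cancel_left]
      · rw [eq_sub_iff_add_eq] at h3 ⊢
        rw [← h3]
        ring
    refine (Finset.card_le_card hsub).trans ((Finset.card_union_le _ _).trans ?_)
    have e1 : ({0, (1, 1) - r} : Finset (ZMod β × ZMod γ)).card ≤ 2 := Finset.card_le_two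
    have e2 := Finset.card_union_le
      (univ.filter fun s : ZMod β × ZMod γ => ρ r s.1 ≠ s.1)
      (univ.filter fun s : ZMod β × ZMod γ => s.1 + s.1 = 1 - r.1)
    have e3 := card_first (γ := γ) (hs2 r)
    have e4 := card_first (γ := γ) (card_double_odd hβ (1 - r.1))
    omega
  col := by
    intro s hs
    have hsub : (univ.filter fun r => ¬ Good (1, 1) (cornerSq f ρ l) r s) ⊆
        ({0, (1, 1) - s} : Finset (ZMod β × ZMod γ)) ∪
        ((univ.filter fun r : ZMod β × ZMod γ => ρ r ≠ 1) ∪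
        (univ.filter fun r : ZMod β × ZMod γ => r.1 = 1 - s.1 - s.1)) := by
      intro r hr
      have h1 := (mem_filter.mp hr).2
      by_contra h2
      simp only [mem_union, mem_insert, mem_singleton, mem_filter, mem_univ, true_and, not_or,
        not_not] at h2
      refine h1 (corner_nat hl h2.1.1 hs (fun h3 => h2.1.2 ?_) (by rw [h2.2.1]; rfl)
        (fun h3 => h2.2.2 ?_))
      · rw [← h3, add_sub_cancel_right]
      · rw [← h3, add_sub_cancel_right]
    refine (Finset.card_le_card hsub).trans ((Finset.card_union_le _ _).trans ?_)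
    have e1 : ({0, (1, 1) - s} : Finset (ZMod β × ZMod γ)).card ≤ 2 := Finset.card_le_two
    have e2 := Finset.card_union_le
      (univ.filter fun r : ZMod β × ZMod γ => ρ r ≠ 1)
      (univ.filter fun r : ZMod β × ZMod γ => r.1 = 1 - s.1 - s.1)
    have e4 := card_first (γ := γ) (p := fun Y : ZMod β => Y = 1 - s.1 - s.1) (n := 1)
      (by rw [Finset.filter_eq' univ, if_pos (mem_univ _), Finset.card_singleton])
    omega
  sym := by
    intro z hz
    have hsub : (univ.filter fun r => ¬ Good (1, 1) (cornerSq f ρ l) r (z - r)) ⊆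
        ({0, z} : Finset (ZMod β × ZMod γ)) ∪
        ((univ.filter fun r : ZMod β × ZMod γ => ρ r ≠ 1) ∪
        (univ.filter fun r : ZMod β × ZMod γ => r.1 = z.1 + z.1 - 1)) := by
      intro r hr
      have h1 := (mem_filter.mp hr).2
      by_contra h2
      simp only [mem_union, mem_insert, mem_singleton, mem_filter, mem_univ, true_and, not_or,
        not_not] at h2
      refine h1 (corner_nat hl h2.1.1 (fun h3 => h2.1.2 (sub_eq_zero.mp h3).symm)
        (fun h3 => hz ?_) (by rw [h2.2.1]; rfl) (fun h3 => h2.2.2 ?_))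
      · rw [← h3, add_sub_cancel]
      · have h4 : r.1 + (z.1 - r.1) = 1 - (z.1 - r.1) := h3
        rw [add_sub_cancel] at h4
        nth_rewrite 1 [h4]
        ring
    refine (Finset.card_le_card hsub).trans ((Finset.card_union_le _ _).trans ?_)
    have e1 : ({0, z} : Finset (ZMod β × ZMod γ)).card ≤ 2 := Finset.card_le_two
    have e2 := Finset.card_union_le
      (univ.filter fun r : ZMod β × ZMod γ => ρ r ≠ 1)
      (univ.filter fun r : ZMod β × ZMod γ => r.1 = z.1 + z.1 - 1)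
    have e4 := card_first (γ := γ) (p := fun Y : ZMod β => Y = z.1 + z.1 - 1) (n := 1)
      (by rw [Finset.filter_eq' univ, if_pos (mem_univ _), Finset.card_singleton])
    omega

/-- removing one block -/
lemma Dense_remove {G : Type} [AddCommGroup G] [Fintype G] [DecidableEq G] {κ : G}
    {nat : G → G → Prop} [∀ x y, Decidable (nat x y)] {t : ℕ} (hD : Near.Dense κ nat t) (a b : G) :
    Near.Dense κ (fun X Y => nat X Y ∧ ¬ (X = a ∧ Y = b)) (t + 1) where
  x0 := fun _ _ h => hD.x0 _ _ h.1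
  y0 := fun _ _ h => hD.y0 _ _ h.1
  zk := fun _ _ h => hD.zk _ _ h.1
  row := by
    intro X hX
    refine (Finset.card_le_card (t := insert b (univ.filter fun Y => ¬ nat X Y)) ?_).trans
      ((Finset.card_insert_le _ _).trans (Nat.add_le_add_right (hD.row X hX) 1))
    intro Y hY
    have h1 := (mem_filter.mp hY).2
    rw [mem_insert, mem_filter]
    by_cases h2 : nat X Y
    · left
      by_contra h3
      exact h1 ⟨h2, fun h4 => h3 h4.2⟩
    · exact Or.inr ⟨mem_univ _, h2⟩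
  col := by
    intro Y hY
    refine (Finset.card_le_card (t := insert a (univ.filter fun X => ¬ nat X Y)) ?_).trans
      ((Finset.card_insert_le _ _).trans (Nat.add_le_add_right (hD.col Y hY) 1))
    intro X hX
    have h1 := (mem_filter.mp hX).2
    rw [mem_insert, mem_filter]
    by_cases h2 : nat X Y
    · left
      by_contra h3
      exact h1 ⟨h2, fun h4 => h3 h4.1⟩
    · exact Or.inr ⟨mem_univ _, h2⟩
  sym := by
    intro Z hZ
    refine (Finset.card_le_card (t := insert a (univ.filter fun X => ¬ nat X (Z - X))) ?_).trans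
      ((Finset.card_insert_le _ _).trans (Nat.add_le_add_right (hD.sym Z hZ) 1))
    intro X hX
    have h1 := (mem_filter.mp hX).2
    rw [mem_insert, mem_filter]
    by_cases h2 : nat X (Z - X)
    · left
      by_contra h3
      exact h1 ⟨h2, fun h4 => h3 h4.1⟩
    · exact Or.inr ⟨mem_univ _, h2⟩

/-- what the small square provides -/
structure BaseOk {G : Type} [AddCommGroup G] [Fintype G] [DecidableEq G] (κ θ : G)
    (M : G → G → G) (t : ℕ) (X0 Y0 Y1 : G) : Prop where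
  punct : Punctured κ M
  kk : M κ κ = 0
  hole : ∀ X, X ≠ 0 → X ≠ κ → M X (κ - X) = X
  dense : Near.Dense κ (fun X Y => Good κ M X Y ∧ ¬ (X = X0 ∧ Y = Y1)) t
  good : Good κ M X0 Y1
  X0κ : X0 ≠ κ
  touched : Touched κ M X0 Y0
  exc : M X0 Y0 = X0 + Y0 + θ
  ne1 : M X0 Y0 ≠ Y0
  ne2 : M X0 Y0 ≠ κ - Y0
  ne3 : M X0 Y0 ≠ κ - M X0 Y0

theorem exists_base {h γ : ℕ} [NeZero (2 * h + 1)] [NeZero γ] (hp : γ.Prime) (hh : 3 ≤ h)
    (hγ : h * (2 * h) + (h * (2 * h * (2 * h)) + h * (2 * h * (2 * h))) + 2 ≤ γ)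
    (e : ZMod γ) (he : e ≠ 0) :
    ∃ M X0 Y0 Y1, BaseOk ((1, 1) : ZMod (2 * h + 1) × ZMod γ) (0, e) M (5 * γ + 3) X0 Y0 Y1 := by
  classical
  have : Fact γ.Prime := ⟨hp⟩
  have hγh : 9 ≤ γ := by
    have h1 : 3 * (2 * 3) ≤ h * (2 * h) := Nat.mul_le_mul hh (Nat.mul_le_mul_left 2 hh)
    omega
  have : Fact (1 < γ) := ⟨by omega⟩
  have hγ1 : (1 : ZMod γ) ≠ 0 := one_ne_zero
  have hγodd : Odd γ := hp.odd_of_ne_two (by omega)
  have hβodd : Odd (2 * h + 1) := ⟨h, rfl⟩
  have hβ1 : (1 : ZMod (2 * h + 1)) ≠ 0 := by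
    intro h'
    have h2 := (castEq (1 : ZMod (2 * h + 1)) (n := 0) (by omega)).mp (by
      rw [Nat.cast_zero]
      exact h')
    rw [show (1 : ZMod (2 * h + 1)) = ((1 : ℕ) : ZMod (2 * h + 1)) by rw [Nat.cast_one],
      ZMod.val_cast_of_lt (by omega)] at h2
    omega
  have hsm : ∀ n : ℕ, 0 < n → n < γ → (n : ZMod γ) * e ≠ 0 := by
    intro n hn hnγ h'
    rcases mul_eq_zero.mp h' with h1 | h1
    · rw [ZMod.natCast_eq_zero_iff] at h1
      exact absurd (Nat.le_of_dvd hn h1) (by omega)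
    · exact he h1
  have h2e : e + e ≠ 0 := by
    intro h'
    apply hsm 2 (by omega) (by omega)
    push_cast
    linear_combination h'
  have h3e : e + e + e ≠ 0 := by
    intro h'
    apply hsm 3 (by omega) (by omega)
    push_cast
    linear_combination h'
  have h4e : e + e + e + e ≠ 0 := by
    intro h'
    apply hsm 4 (by omega) (by omega)
    push_cast
    linear_combination h'
  obtain ⟨ρ, hρ, hs1, hs2⟩ := exists_rowPerms_odd (h := h) (γ := γ) (by omega) hγ1 hγ
  obtain ⟨l, hl⟩ := hρ.exists_lines hβ1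
  obtain ⟨f, hf, hfabc⟩ := exists_idemOut (1 : ZMod γ) (1 + e) (1 - e) (1 + (e + e + e))
    (by rw [ZMod.card]; exact hγodd) (by rw [ZMod.card]; omega)
    (fun h' => he (add_eq_left.mp h')) (fun h' => he (sub_eq_self.mp h'))
    (fun h' => h3e (add_eq_left.mp h')) (fun h' => h2e (by linear_combination h'))
    (fun h' => h2e (by linear_combination -h')) (fun h' => h4e (by linear_combination -h'))
  have hM := cornerSq_punctured hf hρ hl hβ1
  have hD := dense_corner (f := f) hβodd hl hs1 hs2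
  have hX : ((1, 1 + e) : ZMod (2 * h + 1) × ZMod γ) ≠ (1, 1) :=
    fun h' => he (add_eq_left.mp (Prod.ext_iff.mp h').2)
  have hX0 : ((1, 1 + e) : ZMod (2 * h + 1) × ZMod γ) ≠ 0 :=
    fun h' => hβ1 (Prod.ext_iff.mp h').1
  have hMXY : cornerSq f ρ l (1, 1 + e) (0, e) = (1, 1 + (e + e + e)) := by
    have e1 : (1 : ZMod (2 * h + 1)) + ρ (1, 1 + e) 0 = 1 := by
      rw [hρ.zero _ hX, add_zero]
    unfold cornerSq
    rw [if_pos ⟨rfl, e1⟩]
    exact Prod.ext rfl hfabc
  -- a good block in the row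
  obtain ⟨Y1, hY1⟩ : ∃ Y1, Good ((1, 1) : ZMod (2 * h + 1) × ZMod γ) (cornerSq f ρ l)
      (1, 1 + e) Y1 := by
    by_contra hno
    push Not at hno
    have h1 := hD.row _ hX0
    have h2 : (univ.filter fun Y => ¬ Good ((1, 1) : ZMod (2 * h + 1) × ZMod γ)
        (cornerSq f ρ l) (1, 1 + e) Y) = univ := by
      ext Y
      simp [hno Y]
    rw [h2, Finset.card_univ, Fintype.card_prod, ZMod.card, ZMod.card] at h1
    have h3 : 7 * γ ≤ (2 * h + 1) * γ := Nat.mul_le_mul_right γ (by omega)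
    omega
  refine ⟨cornerSq f ρ l, (1, 1 + e), (0, e), Y1, hM, corner_kk hρ hl hβ1,
    fun X h0 hκ => corner_hole hρ hl hf h0 hκ, Dense_remove hD _ _, hY1, hX, ⟨hX0, ?_, ?_, ?_⟩,
    ?_, ?_, ?_, ?_⟩
  · exact fun h' => he (Prod.ext_iff.mp h').2
  · intro h'
    have h5 : 1 + e + e = 1 := (Prod.ext_iff.mp h').2
    exact h2e (by linear_combination h5)
  · rw [hMXY]
    intro h'
    have h5 : 1 + (e + e + e) = 1 + e + e := (Prod.ext_iff.mp h').2
    exact he (by linear_combination h5)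
  · rw [hMXY]
    refine Prod.ext ?_ ?_
    · show (1 : ZMod (2 * h + 1)) = 1 + 0 + 0
      ring
    · show 1 + (e + e + e) = 1 + e + e + e
      ring
  · rw [hMXY]
    exact fun h' => hβ1 (Prod.ext_iff.mp h').1
  · rw [hMXY]
    intro h'
    have h5 : 1 + (e + e + e) = 1 - e := (Prod.ext_iff.mp h').2
    exact h4e (by linear_combination h5)
  · rw [hMXY]
    intro h'
    have h5 : (1 : ZMod (2 * h + 1)) = 1 - 1 := (Prod.ext_iff.mp h').1
    rw [sub_self] at h5
    exact hβ1 h5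

end Pool.Agent.Lib.MP_185394_co.All
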