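import Pool.Agent.Lib.MP_185394_co.Plex

/-!
Latin squares whose rows, columns and symbols are the elements of a finite abelian group outside
three sets of the same size, and a criterion for indivisibility of plexes in them.
-/

namespace Pool.Agent.Lib.MP_185394_co.All

open Finset

/-- `L` is a Latin square with rows outside `R`, columns outside `C` and symbols outside `S`. -/
structure Holey {Γ : Type} (R C S : Finset Γ) (L : Γ → Γ → Γ) : Prop where
  ne : ∀ r s, r ∉ R → s ∉ C → L r s ∉ S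
  row : ∀ r, r ∉ R → ∀ s s', s ∉ C → s' ∉ C → L r s = L r s' → s = s'
  col : ∀ s, s ∉ C → ∀ r r', r ∉ R → r' ∉ R → L r s = L r' s → r = r'

theorem le_kappa_of_holey {Γ : Type} [AddCommGroup Γ] [Fintype Γ] [DecidableEq Γ]
    (R C S : Finset Γ) (L : Γ → Γ → Γ) (hL : Holey R C S L) (k T K n : ℕ) (hk : 1 ≤ k)
    (hK : K = Fintype.card Γ) (hKT : T + k ≤ K) (hn : 0 < n) (hnR : n + R.card = K)
    (hnC : n + C.card = K) (hnS : n + S.card = K) (P : Finset (Γ × Γ))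
    (hP0 : ∀ e ∈ P, e.1 ∉ R ∧ e.2 ∉ C)
    (hrow : ∀ r, r ∉ R → (P.filter fun e => e.1 = r).card = k)
    (hcol : ∀ s, s ∉ C → (P.filter fun e => e.2 = s).card = k)
    (hsym : ∀ z, z ∉ S → (P.filter fun e => L e.1 e.2 = z).card = k)
    (μ : Γ) (hμ : μ + (∑ a ∈ R, a + ∑ a ∈ C, a) = ∑ a ∈ S, a + ∑ a : Γ, a)
    (hord : addOrderOf μ = K)
    (J : Γ × Γ → ℕ) (hJ : ∀ e ∈ P, L e.1 e.2 = e.1 + e.2 + J e • μ)
    (hT : ∑ e ∈ P, J e ≤ T) :
    k ≤ kappa n := by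
  classical
  have hcard : ∀ A : Finset Γ, n + A.card = K → Fintype.card {a : Γ // a ∉ A} = n := by
    intro A hA
    rw [Fintype.card_subtype_compl, Fintype.card_coe]
    omega
  have hsumA : ∀ A : Finset Γ, ∑ a : {a : Γ // a ∉ A}, a.1 + ∑ a ∈ A, a = ∑ a : Γ, a := by
    intro A
    rw [← Finset.sum_subtype (univ \ A) (fun x => by simp) (fun a : Γ => a)]
    exact Finset.sum_sdiff (Finset.subset_univ A)
  let eR : {a : Γ // a ∉ R} ≃ Fin n := Fintype.equivFinOfCardEq (hcard R hnR)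
  let eC : {a : Γ // a ∉ C} ≃ Fin n := Fintype.equivFinOfCardEq (hcard C hnC)
  let eS : {a : Γ // a ∉ S} ≃ Fin n := Fintype.equivFinOfCardEq (hcard S hnS)
  let ρ : Fin n → Γ := fun i => (eR.symm i).1
  let γ : Fin n → Γ := fun i => (eC.symm i).1
  let σ : Fin n → Γ := fun i => (eS.symm i).1
  have hρ0 : ∀ i, ρ i ∉ R := fun i => (eR.symm i).2
  have hγ0 : ∀ i, γ i ∉ C := fun i => (eC.symm i).2
  have hσ0 : ∀ i, σ i ∉ S := fun i => (eS.symm i).2
  have hρinj : Function.Injective ρ := fun i j h => eR.symm.injective (Subtype.ext h)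
  have hγinj : Function.Injective γ := fun i j h => eC.symm.injective (Subtype.ext h)
  have hσinj : Function.Injective σ := fun i j h => eS.symm.injective (Subtype.ext h)
  have hρsurj : ∀ a, a ∉ R → ∃ i, ρ i = a := fun a ha => ⟨eR ⟨a, ha⟩, by simp [ρ]⟩
  have hγsurj : ∀ a, a ∉ C → ∃ i, γ i = a := fun a ha => ⟨eC ⟨a, ha⟩, by simp [γ]⟩
  let L' : Fin n → Fin n → Fin n := fun i j =>
    eS ⟨L (ρ i) (γ j), hL.ne _ _ (hρ0 i) (hγ0 j)⟩
  have hσL : ∀ i j, σ (L' i j) = L (ρ i) (γ j) := fun i j => by simp [σ, L']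
  let φ : Fin n × Fin n → Γ × Γ := fun p => (ρ p.1, γ p.2)
  have hφinj : Function.Injective φ := by
    intro p q h
    have h1 := (Prod.ext_iff.mp h)
    exact Prod.ext (hρinj h1.1) (hγinj h1.2)
  let P' : Finset (Fin n × Fin n) := univ.filter fun p => φ p ∈ P
  have hPimg : ∀ e ∈ P, ∃ p, φ p = e := by
    intro e he
    obtain ⟨h1, h2⟩ := hP0 e he
    obtain ⟨i, hi⟩ := hρsurj e.1 h1
    obtain ⟨j, hj⟩ := hγsurj e.2 h2
    exact ⟨(i, j), by simp [φ, hi, hj]⟩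
  have hcount : ∀ (p : Fin n × Fin n → Prop) [DecidablePred p]
      (q : Γ × Γ → Prop) [DecidablePred q], (∀ x, p x ↔ q (φ x)) →
      (P'.filter p).card = (P.filter q).card := by
    intro p _ q _ h
    apply Finset.card_bij (fun x _ => φ x)
    · intro x hx
      rw [mem_filter] at hx ⊢
      exact ⟨(mem_filter.mp hx.1).2, (h x).mp hx.2⟩
    · intro x _ y _ hxy
      exact hφinj hxy
    · intro e he
      rw [mem_filter] at he
      obtain ⟨x, rfl⟩ := hPimg e he.1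
      exact ⟨x, by
        rw [mem_filter]
        exact ⟨mem_filter.mpr ⟨mem_univ _, he.1⟩, (h x).mpr he.2⟩, rfl⟩
  have hsumρ : ∑ i, ρ i + ∑ a ∈ R, a = ∑ a : Γ, a := by
    have h1 : ∑ i, ρ i = ∑ a : {a : Γ // a ∉ R}, a.1 := by
      rw [← Equiv.sum_comp eR.symm]
    rw [h1, hsumA]
  have hsumγ : ∑ i, γ i + ∑ a ∈ C, a = ∑ a : Γ, a := by
    have h1 : ∑ i, γ i = ∑ a : {a : Γ // a ∉ C}, a.1 := by
      rw [← Equiv.sum_comp eC.symm]
    rw [h1, hsumA]
  have hsumσ : ∑ i, σ i + ∑ a ∈ S, a = ∑ a : Γ, a := by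
    have h1 : ∑ i, σ i = ∑ a : {a : Γ // a ∉ S}, a.1 := by
      rw [← Equiv.sum_comp eS.symm]
    rw [h1, hsumA]
  apply le_kappa hn hk
  refine ⟨L', ⟨?_, ?_⟩, P', ⟨⟨?_, ?_, ?_⟩, ?_⟩⟩
  · intro i j j' h
    have h1 : L (ρ i) (γ j) = L (ρ i) (γ j') := by rw [← hσL, ← hσL, h]
    exact hγinj (hL.row _ (hρ0 i) _ _ (hγ0 j) (hγ0 j') h1)
  · intro j i i' h
    have h1 : L (ρ i) (γ j) = L (ρ i') (γ j) := by
      rw [← hσL, ← hσL]
      exact congrArg σ h
    exact hρinj (hL.col _ (hγ0 j) _ _ (hρ0 i) (hρ0 i') h1)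
  · intro i
    rw [hcount _ (fun e => e.1 = ρ i) (fun x => ⟨fun h => by simp [φ, h], fun h => hρinj h⟩),
      hrow _ (hρ0 i)]
  · intro i
    rw [hcount _ (fun e => e.2 = γ i) (fun x => ⟨fun h => by simp [φ, h], fun h => hγinj h⟩),
      hcol _ (hγ0 i)]
  · intro i
    rw [hcount _ (fun e => L e.1 e.2 = σ i) (fun x => ⟨fun h => by rw [← h, hσL], fun h =>
      hσinj (by rw [hσL]; exact h)⟩), hsym _ (hσ0 i)]
  · rintro c' hc0 hck Q hQ ⟨h1, h2, h3⟩
    have e1 := sum_fiber Q (fun e => e.1) ρ c' h1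
    have e2 := sum_fiber Q (fun e => e.2) γ c' h2
    have e3 := sum_fiber Q (fun e => L' e.1 e.2) σ c' h3
    have e4 : ∑ e ∈ Q, σ (L' e.1 e.2) =
        ∑ e ∈ Q, ρ e.1 + ∑ e ∈ Q, γ e.2 + (∑ e ∈ Q, J (φ e)) • μ := by
      rw [Finset.sum_smul, ← Finset.sum_add_distrib, ← Finset.sum_add_distrib]
      apply Finset.sum_congr rfl
      intro e he
      rw [hσL]
      exact hJ (φ e) (mem_filter.mp (hQ he)).2
    rw [e1, e2, e3] at e4
    have e6 : (∑ e ∈ Q, J (φ e) + c') • μ = 0 := by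
      have a1 : ∑ i, σ i = ∑ a : Γ, a - ∑ a ∈ S, a := eq_sub_of_add_eq hsumσ
      have a2 : ∑ i, ρ i = ∑ a : Γ, a - ∑ a ∈ R, a := eq_sub_of_add_eq hsumρ
      have a3 : ∑ i, γ i = ∑ a : Γ, a - ∑ a ∈ C, a := eq_sub_of_add_eq hsumγ
      have a4 : μ = ∑ a ∈ S, a + ∑ a : Γ, a - (∑ a ∈ R, a + ∑ a ∈ C, a) :=
        eq_sub_of_add_eq hμ
      rw [a1, a2, a3] at e4
      rw [add_smul]
      nth_rewrite 2 [a4]
      have : (∑ e ∈ Q, J (φ e)) • μ = c' • (∑ a : Γ, a - ∑ a ∈ S, a) -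
          (c' • (∑ a : Γ, a - ∑ a ∈ R, a) + c' • (∑ a : Γ, a - ∑ a ∈ C, a)) := by
        rw [e4]
        abel
      rw [this]
      simp only [smul_sub, smul_add]
      abel
    have e7 : K ∣ ∑ e ∈ Q, J (φ e) + c' := by
      have h7 := addOrderOf_dvd_iff_nsmul_eq_zero.mpr e6
      rwa [hord] at h7
    have e8 : ∑ e ∈ Q, J (φ e) ≤ T := by
      refine le_trans ?_ hT
      rw [← Finset.sum_image (f := J) (s := Q) (g := φ) (fun x _ y _ h => hφinj h)]
      apply Finset.sum_le_sum_of_subset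
      intro e he
      obtain ⟨x, hx, rfl⟩ := mem_image.mp he
      exact (mem_filter.mp (hQ hx)).2
    have e9 := Nat.le_of_dvd (by omega) e7
    omega

end Pool.Agent.Lib.MP_185394_co.All
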