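import Pool.Agent.Lib.MP_185394_co.Near.Int

/-!
Integer weights with prescribed margins on almost all of a Cayley table, with a bound.
-/

namespace Pool.Agent.Lib.MP_185394_co.All

open Finset Near

set_option linter.unusedSectionVars false

/-- the balls of a length function -/
structure IsBall {A : Type} [AddCommGroup A] (B : ℤ → A → Prop) : Prop where
  zero : B 0 0
  add : ∀ n m a b, B n a → B m b → B (n + m) (a + b)
  neg : ∀ n a, B n a → B n (-a)
  mono : ∀ n m a, n ≤ m → B n a → B m a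

section ball

variable {A : Type} [AddCommGroup A] {B : ℤ → A → Prop}

lemma IsBall.sub (hB : IsBall B) {n m : ℤ} {a b : A} (h1 : B n a) (h2 : B m b) :
    B (n + m) (a - b) := by
  rw [sub_eq_add_neg]
  exact hB.add _ _ _ _ h1 (hB.neg _ _ h2)

lemma IsBall.nsmul (hB : IsBall B) {n : ℤ} {a : A} (h : B n a) (c : ℕ) :
    B (c * n) (c • a) := by
  induction c with
  | zero => simpa using hB.zero
  | succ c ih =>
    have := hB.add _ _ _ _ ih h
    rw [succ_nsmul]
    have e : ((c + 1 : ℕ) : ℤ) * n = c * n + n := by push_cast; ring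
    rw [e]
    exact this

lemma IsBall.zsmul (hB : IsBall B) {n : ℤ} {a : A} (h : B n a) (c : ℤ) :
    B (|c| * n) (c • a) := by
  obtain ⟨m, rfl | rfl⟩ := c.eq_nat_or_neg
  · rw [Nat.abs_cast, natCast_zsmul]
    exact hB.nsmul h m
  · rw [abs_neg, Nat.abs_cast, neg_smul, natCast_zsmul]
    exact hB.neg _ _ (hB.nsmul h m)

lemma IsBall.sum (hB : IsBall B) {ι : Type} (s : Finset ι) (n : ι → ℤ) (a : ι → A)
    (h : ∀ i ∈ s, B (n i) (a i)) : B (∑ i ∈ s, n i) (∑ i ∈ s, a i) := by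
  classical
  induction s using Finset.induction_on with
  | empty => simpa using hB.zero
  | insert i s his ih =>
    rw [Finset.sum_insert his, Finset.sum_insert his]
    exact hB.add _ _ _ _ (h i (mem_insert_self _ _)) (ih fun j hj => h j (mem_insert_of_mem hj))

end ball

variable {G : Type} [AddCommGroup G] [Fintype G] [DecidableEq G] {κ : G} {nat : G → G → Prop}
    [∀ x y, Decidable (nat x y)] {t : ℕ}

/-- A function that is almost additive on a dense set of cells is almost affine. -/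
theorem dense_approx (hD : Dense κ nat t) (ht : 4 * t < Fintype.card G)
    (hG : 5 ≤ Fintype.card G)
    {A : Type} [AddCommGroup A] {B : ℤ → A → Prop} (hB : IsBall B) (f g h : G → A)
    (hfgh : ∀ X Y, nat X Y → B 1 (f X + g Y - h (X + Y))) :
    ∃ (φ : G → A) (a b : A), φ 0 = 0 ∧ (∀ s s', B 12 (φ (s + s') - (φ s + φ s'))) ∧
      (∀ X, X ≠ 0 → B 16 (f X - (φ X + a))) ∧ (∀ Y, Y ≠ 0 → B 18 (g Y - (φ Y + b))) ∧
      ∀ Z, Z ≠ κ → B 47 (h Z - (φ Z + a + b)) := by
  have step1 : ∀ s X X', X ≠ 0 → X' ≠ 0 → X + s ≠ 0 → X' + s ≠ 0 →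
      B 4 ((f (X + s) - f X) - (f (X' + s) - f X')) := by
    intro s X X' hX hX' hXs hXs'
    obtain ⟨Y, h1, h2, h3, h4⟩ := exists_of_card_filter (fun Y => nat (X + s) Y)
      (fun Y => nat X (Y + s)) (fun Y => nat (X' + s) Y) (fun Y => nat X' (Y + s))
      (hD.row _ hXs) (by
        rw [card_filter_add_right (fun Y => ¬ nat X Y)]
        exact hD.row _ hX) (hD.row _ hXs') (by
        rw [card_filter_add_right (fun Y => ¬ nat X' Y)]
        exact hD.row _ hX') ht
    have e1 := hfgh _ _ h1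
    have e2 := hfgh _ _ h2
    have e3 := hfgh _ _ h3
    have e4 := hfgh _ _ h4
    have e5 : X + s + Y = X + (Y + s) := by abel
    have e6 : X' + s + Y = X' + (Y + s) := by abel
    rw [e5] at e1
    rw [e6] at e3
    have e7 := hB.sub (hB.sub e1 e2) (hB.sub e3 e4)
    have e8 : (f (X + s) - f X) - (f (X' + s) - f X') =
        (f (X + s) + g Y - h (X + (Y + s))) - (f X + g (Y + s) - h (X + (Y + s))) -
        ((f (X' + s) + g Y - h (X' + (Y + s))) - (f X' + g (Y + s) - h (X' + (Y + s)))) := by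
      abel
    rw [e8]
    exact e7
  have hex : ∀ s s' : G, ∃ X, X ≠ 0 ∧ X + s ≠ 0 ∧ X + s' ≠ 0 := by
    intro s s'
    have h1 : ({0, -s, -s'} : Finset G).card < Fintype.card G :=
      lt_of_le_of_lt Finset.card_le_three (by omega)
    obtain ⟨X, hX⟩ := exists_notMem_of_card_lt h1
    simp only [mem_insert, mem_singleton, not_or] at hX
    refine ⟨X, hX.1, fun h => hX.2.1 (eq_neg_of_add_eq_zero_left h),
      fun h => hX.2.2 (eq_neg_of_add_eq_zero_left h)⟩
  choose x hx using fun s => hex s s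
  let φ : G → A := fun s => f (x s + s) - f (x s)
  have hφ0 : ∀ s X, X ≠ 0 → X + s ≠ 0 → B 4 ((f (X + s) - f X) - φ s) := fun s X h1 h2 =>
    step1 s X (x s) h1 (hx s).1 h2 (hx s).2.1
  have hφz : φ 0 = 0 := by simp [φ]
  have hadd : ∀ s s', B 12 (φ (s + s') - (φ s + φ s')) := by
    intro s s'
    obtain ⟨X, h1, h2, h3⟩ := hex s (s + s')
    have e1 := hφ0 (s + s') X h1 h3
    have e2 := hφ0 s X h1 h2
    have e3 := hφ0 s' (X + s) h2 (by rwa [add_assoc])
    rw [add_assoc] at e3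
    have e4 := hB.sub (hB.add _ _ _ _ e2 e3) e1
    have e5 : φ (s + s') - (φ s + φ s') = (f (X + s) - f X - φ s) + (f (X + (s + s')) -
        f (X + s) - φ s') - (f (X + (s + s')) - f X - φ (s + s')) := by abel
    rw [e5]
    exact e4
  obtain ⟨X1, hX1, -, -⟩ := hex 0 0
  obtain ⟨a, ha⟩ : ∃ a, a = f X1 - φ X1 := ⟨_, rfl⟩
  obtain ⟨b, hb⟩ : ∃ b, b = g X1 - φ X1 := ⟨_, rfl⟩
  have hf : ∀ X, X ≠ 0 → B 16 (f X - (φ X + a)) := by
    intro X hX
    have h1 := hφ0 (X - X1) X1 hX1 (by rwa [add_sub_cancel])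
    rw [add_sub_cancel] at h1
    have h2 := hadd (X - X1) X1
    rw [sub_add_cancel] at h2
    have h3 := hB.sub h1 h2
    have h4 : f X - (φ X + a) = (f X - f X1 - φ (X - X1)) - (φ X - (φ (X - X1) + φ X1)) := by
      rw [ha]
      abel
    rw [h4]
    exact h3
  have hg : ∀ Y, Y ≠ 0 → B 18 (g Y - (φ Y + b)) := by
    intro Y hY
    obtain ⟨X, h1, h2, -, -⟩ := exists_of_card_filter (fun X => nat X Y)
      (fun X => nat (X + (Y - X1)) X1) (fun X => nat X Y) (fun X => nat X Y) (hD.col _ hY) (by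
        rw [card_filter_add_right (fun X => ¬ nat X X1)]
        exact hD.col _ hX1) (hD.col _ hY) (hD.col _ hY) ht
    have e1 := hfgh _ _ h1
    have e2 := hfgh _ _ h2
    have e3 : X + (Y - X1) + X1 = X + Y := by abel
    rw [e3] at e2
    have e4 := hφ0 (Y - X1) X (hD.x0 _ _ h1) (hD.x0 _ _ h2)
    have e5 := hadd (Y - X1) X1
    rw [sub_add_cancel] at e5
    have e6 := hB.sub (hB.add _ _ _ _ (hB.sub e1 e2) e4) e5
    have e7 : g Y - (φ Y + b) = (f X + g Y - h (X + Y)) - (f (X + (Y - X1)) + g X1 - h (X + Y)) +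
        (f (X + (Y - X1)) - f X - φ (Y - X1)) - (φ Y - (φ (Y - X1) + φ X1)) := by
      rw [hb]
      abel
    rw [e7]
    exact e6
  refine ⟨φ, a, b, hφz, hadd, hf, hg, ?_⟩
  intro Z hZ
  obtain ⟨X, h1, -, -, -⟩ := exists_of_card_filter (fun X => nat X (Z - X))
    (fun X => nat X (Z - X)) (fun X => nat X (Z - X)) (fun X => nat X (Z - X)) (hD.sym _ hZ)
    (hD.sym _ hZ) (hD.sym _ hZ) (hD.sym _ hZ) ht
  have e1 := hfgh _ _ h1
  have e2 := hf _ (hD.x0 _ _ h1)
  have e3 := hg _ (hD.y0 _ _ h1)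
  have e4 := hadd X (Z - X)
  rw [add_sub_cancel] at e4 e1
  have e5 := hB.sub (hB.sub (hB.add _ _ _ _ e2 e3) e4) e1
  have e6 : h Z - (φ Z + a + b) = (f X - (φ X + a)) + (g (Z - X) - (φ (Z - X) + b)) -
      (φ Z - (φ X + φ (Z - X))) - (f X + g (Z - X) - h Z) := by
    abel
  rw [e6]
  exact e5

section almost

variable {A : Type} [AddCommGroup A] {B : ℤ → A → Prop}

lemma almost_zsmul (hB : IsBall B) {φ : G → A} (h0 : φ 0 = 0)
    (hadd : ∀ s s', B 12 (φ (s + s') - (φ s + φ s'))) (c : ℤ) (x : G) :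
    B (12 * |c|) (φ (c • x) - c • φ x) := by
  have hn : ∀ c : ℕ, B (12 * c) (φ (c • x) - c • φ x) := by
    intro c
    induction c with
    | zero =>
      rw [zero_smul, zero_smul, h0, sub_zero]
      simpa using hB.zero
    | succ c ih =>
      have h1 := hB.add _ _ _ _ ih (hadd (c • x) x)
      rw [← succ_nsmul] at h1
      have h2 : φ ((c + 1) • x) - (c + 1) • φ x = φ (c • x) - c • φ x +
          (φ ((c + 1) • x) - (φ (c • x) + φ x)) := by
        rw [succ_nsmul (φ x)]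
        abel
      rw [h2]
      have e : 12 * ((c + 1 : ℕ) : ℤ) = 12 * c + 12 := by push_cast; ring
      rw [e]
      exact h1
  have hneg : ∀ c : ℕ, B (12 * c) (φ ((-(c : ℤ)) • x) - (-(c : ℤ)) • φ x) := by
    intro c
    induction c with
    | zero =>
      rw [Nat.cast_zero, neg_zero, zero_smul, zero_smul, h0, sub_zero]
      simpa using hB.zero
    | succ c ih =>
      have h1 := hadd ((-((c + 1 : ℕ) : ℤ)) • x) x
      have h3 : (-((c + 1 : ℕ) : ℤ)) • x + x = (-(c : ℤ)) • x := by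
        push_cast
        rw [neg_add, add_smul, neg_one_smul]
        abel
      rw [h3] at h1
      have h4 := hB.sub ih h1
      have h2 : φ ((-((c + 1 : ℕ) : ℤ)) • x) - (-((c + 1 : ℕ) : ℤ)) • φ x =
          φ ((-(c : ℤ)) • x) - (-(c : ℤ)) • φ x -
          (φ ((-(c : ℤ)) • x) - (φ ((-((c + 1 : ℕ) : ℤ)) • x) + φ x)) := by
        have h5 : (-((c + 1 : ℕ) : ℤ)) • φ x = (-(c : ℤ)) • φ x - φ x := by
          push_cast
          rw [neg_add, add_smul, neg_one_smul]
          abel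
        rw [h5]
        abel
      rw [h2]
      have e : 12 * ((c + 1 : ℕ) : ℤ) = 12 * c + 12 := by push_cast; ring
      rw [e]
      exact h4
  obtain ⟨m, rfl | rfl⟩ := c.eq_nat_or_neg
  · rw [Nat.abs_cast, natCast_zsmul, natCast_zsmul]
    exact hn m
  · rw [abs_neg, Nat.abs_cast]
    exact hneg m

lemma almost_sum (hB : IsBall B) {φ : G → A} (h0 : φ 0 = 0)
    (hadd : ∀ s s', B 12 (φ (s + s') - (φ s + φ s'))) {ι : Type} (s : Finset ι) (x : ι → G) :
    B (12 * s.card) (φ (∑ i ∈ s, x i) - ∑ i ∈ s, φ (x i)) := by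
  classical
  induction s using Finset.induction_on with
  | empty => simpa [h0] using hB.zero
  | insert i s his ih =>
    rw [Finset.sum_insert his, Finset.sum_insert his, Finset.card_insert_of_notMem his]
    have h1 := hB.add _ _ _ _ ih (hadd (x i) (∑ i ∈ s, x i))
    have h2 : φ (x i + ∑ i ∈ s, x i) - (φ (x i) + ∑ i ∈ s, φ (x i)) =
        φ (∑ i ∈ s, x i) - ∑ i ∈ s, φ (x i) +
        (φ (x i + ∑ i ∈ s, x i) - (φ (x i) + φ (∑ i ∈ s, x i))) := by abel
    rw [h2]
    have e : 12 * ((s.card + 1 : ℕ) : ℤ) = 12 * s.card + 12 := by push_cast; ring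
    rw [e]
    exact h1

lemma almost_comb (hB : IsBall B) {φ : G → A} (h0 : φ 0 = 0)
    (hadd : ∀ s s', B 12 (φ (s + s') - (φ s + φ s'))) (c : G → ℤ) :
    B (12 * ∑ i, |c i| + 12 * Fintype.card G) (φ (∑ i, c i • i) - ∑ i, c i • φ i) := by
  have h1 := almost_sum hB h0 hadd univ (fun i => c i • i)
  have h2 := hB.sum univ (fun i => 12 * |c i|) (fun i => φ (c i • i) - c i • φ i)
    (fun i _ => almost_zsmul hB h0 hadd (c i) i)
  rw [← Finset.mul_sum, Finset.sum_sub_distrib] at h2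
  have h3 := hB.add _ _ _ _ h2 h1
  rw [Finset.card_univ] at h3
  have h4 : φ (∑ i, c i • i) - ∑ i, c i • φ i = ∑ i, φ (c i • i) - ∑ i, c i • φ i +
      (φ (∑ i, c i • i) - ∑ i, φ (c i • i)) := by abel
  rw [h4]
  exact h3

end almost

/-- the triples of functions -/
abbrev Vec (G : Type) := (G → ℤ) × (G → ℤ) × (G → ℤ)

/-- the margins of a table -/
def margins (z : G → G → ℤ) : Vec G :=
  (fun X => ∑ Y, z X Y, fun Y => ∑ X, z X Y, fun Z => ∑ X, z X (Z - X))

/-- margins of small tables supported on the natural cells -/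
def Lifts (nat : G → G → Prop) (n : ℤ) (v : Vec G) : Prop :=
  ∃ z : G → G → ℤ, (∀ X Y, ¬ nat X Y → z X Y = 0) ∧ (∑ X, ∑ Y, |z X Y| ≤ n) ∧ margins z = v

lemma lifts_isBall (nat : G → G → Prop) : IsBall (Lifts nat) where
  zero := ⟨fun _ _ => 0, fun _ _ _ => rfl, by simp, by
    unfold margins
    simp
    rfl⟩
  add := by
    rintro n m a b ⟨z, h1, h2, rfl⟩ ⟨w, g1, g2, rfl⟩
    refine ⟨fun X Y => z X Y + w X Y, fun X Y h => by
      show z X Y + w X Y = 0
      rw [h1 X Y h, g1 X Y h, add_zero], ?_, ?_⟩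
    · refine le_trans ?_ (add_le_add h2 g2)
      rw [← Finset.sum_add_distrib]
      apply Finset.sum_le_sum
      intro X _
      rw [← Finset.sum_add_distrib]
      apply Finset.sum_le_sum
      intro Y _
      exact abs_add_le _ _
    · unfold margins
      simp only [Finset.sum_add_distrib]
      rfl
  neg := by
    rintro n a ⟨z, h1, h2, rfl⟩
    refine ⟨fun X Y => - z X Y, fun X Y h => by
      show - z X Y = 0
      rw [h1 X Y h, neg_zero], ?_, ?_⟩
    · simpa using h2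
    · unfold margins
      simp only [Finset.sum_neg_distrib]
      rfl
  mono := by
    rintro n m a hnm ⟨z, h1, h2, h3⟩
    exact ⟨z, h1, h2.trans hnm, h3⟩

/-- the three kinds of unit vectors -/
def eR (X : G) : Vec G := (Pi.single X 1, 0, 0)

/-- unit vectors of the columns -/
def eC (X : G) : Vec G := (0, Pi.single X 1, 0)

/-- negatives of the unit vectors of the symbols -/
def eS (X : G) : Vec G := (0, 0, -Pi.single X 1)

lemma lifts_single {nat : G → G → Prop} {X Y : G} (h : nat X Y) :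
    Lifts nat 1 (eR X + eC Y - eS (X + Y)) := by
  refine ⟨fun A B => if A = X ∧ B = Y then 1 else 0, ?_, ?_, ?_⟩
  · intro A B hAB
    show (if A = X ∧ B = Y then (1 : ℤ) else 0) = 0
    rw [if_neg]
    rintro ⟨rfl, rfl⟩
    exact hAB h
  · rw [Finset.sum_eq_single X]
    · rw [Finset.sum_eq_single Y]
      · simp
      · intro B _ hB
        simp [hB]
      · intro hY
        exact absurd (mem_univ _) hY
    · intro A _ hA
      apply Finset.sum_eq_zero
      intro B _
      simp [hA]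
    · intro hX
      exact absurd (mem_univ _) hX
  · unfold margins eR eC eS
    refine Prod.ext ?_ (Prod.ext ?_ ?_)
    · funext A
      show (∑ B, if A = X ∧ B = Y then (1 : ℤ) else 0) =
        ((Pi.single X 1 : G → ℤ) + 0 - 0) A
      by_cases hA : A = X
      · subst hA
        simp
      · simp [hA]
    · funext B
      show (∑ A, if A = X ∧ B = Y then (1 : ℤ) else 0) =
        (0 + (Pi.single Y 1 : G → ℤ) - 0) B
      by_cases hB : B = Y
      · subst hB
        simp
      · simp [hB]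
    · funext Z
      show (∑ A, if A = X ∧ Z - A = Y then (1 : ℤ) else 0) =
        ((0 : G → ℤ) + 0 - -(Pi.single (X + Y) 1 : G → ℤ)) Z
      by_cases hZ : Z = X + Y
      · subst hZ
        rw [Finset.sum_eq_single X]
        · simp
        · intro A _ hA
          simp [hA]
        · intro hX
          exact absurd (mem_univ _) hX
      · have h1 : ∀ A, ¬ (A = X ∧ Z - A = Y) := by
          rintro A ⟨rfl, h2⟩
          exact hZ (by rw [← h2]; abel)
        simp [h1, hZ]

lemma sum_single (v : G → ℤ) : ∑ X, v X • (Pi.single X 1 : G → ℤ) = v := by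
  funext Y
  simp [Finset.sum_apply, Pi.single_apply]

lemma sum_eR (v : G → ℤ) : ∑ X, v X • eR X = ((v, 0, 0) : Vec G) := by
  refine Prod.ext ?_ (Prod.ext ?_ ?_)
  · rw [Prod.fst_sum]
    exact sum_single v
  · rw [Prod.snd_sum, Prod.fst_sum]
    exact Finset.sum_eq_zero fun X _ => smul_zero (v X)
  · rw [Prod.snd_sum, Prod.snd_sum]
    exact Finset.sum_eq_zero fun X _ => smul_zero (v X)

lemma sum_eC (v : G → ℤ) : ∑ X, v X • eC X = ((0, v, 0) : Vec G) := by
  refine Prod.ext ?_ (Prod.ext ?_ ?_)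
  · rw [Prod.fst_sum]
    exact Finset.sum_eq_zero fun X _ => smul_zero (v X)
  · rw [Prod.snd_sum, Prod.fst_sum]
    exact sum_single v
  · rw [Prod.snd_sum, Prod.snd_sum]
    exact Finset.sum_eq_zero fun X _ => smul_zero (v X)

lemma sum_eS (v : G → ℤ) : ∑ X, v X • eS X = ((0, 0, -v) : Vec G) := by
  refine Prod.ext ?_ (Prod.ext ?_ ?_)
  · rw [Prod.fst_sum]
    exact Finset.sum_eq_zero fun X _ => smul_zero (v X)
  · rw [Prod.snd_sum, Prod.fst_sum]
    exact Finset.sum_eq_zero fun X _ => smul_zero (v X)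
  · rw [Prod.snd_sum, Prod.snd_sum]
    show ∑ X, v X • (-(Pi.single X 1 : G → ℤ)) = -v
    simp only [smul_neg, Finset.sum_neg_distrib, sum_single]

/-- Integer weights with prescribed margins on a dense set of cells, with a bound. -/
theorem dense_exists_int (hD : Dense κ nat t) (ht : 4 * t < Fintype.card G)
    (hG : 5 ≤ Fintype.card G) (v1 v2 v3 : G → ℤ) (h1 : v1 0 = 0) (h2 : v2 0 = 0) (h3 : v3 κ = 0)
    (S : ℤ) (hS1 : ∑ X, v1 X = S) (hS2 : ∑ Y, v2 Y = S) (hS3 : ∑ Z, v3 Z = S)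
    (hlab : ∑ X, v1 X • X + ∑ Y, v2 Y • Y = ∑ Z, v3 Z • Z) :
    ∃ z : G → G → ℤ, (∀ X Y, ¬ nat X Y → z X Y = 0) ∧ (∀ X, ∑ Y, z X Y = v1 X) ∧
      (∀ Y, ∑ X, z X Y = v2 Y) ∧ (∀ Z, ∑ X, z X (Z - X) = v3 Z) ∧
      ∀ X Y, |z X Y| ≤ 59 * (∑ X, |v1 X| + ∑ X, |v2 X| + ∑ X, |v3 X|) +
        36 * Fintype.card G + 24 := by
  have hB := lifts_isBall nat
  obtain ⟨φ, a, b, h0, hadd, hf, hg, hh⟩ := dense_approx hD ht hG hB eR eC eS
    (fun X Y h => lifts_single h)
  -- the three sums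
  have key : ∀ (v : G → ℤ) (e : G → Vec G) (w : Vec G) (n : ℤ) (x0 : G), v x0 = 0 →
      (∀ X, X ≠ x0 → Lifts nat n (e X - (φ X + w))) → 0 ≤ n →
      Lifts nat ((n + 12) * ∑ X, |v X| + 12 * Fintype.card G)
        (∑ X, v X • e X - (φ (∑ X, v X • X) + (∑ X, v X) • w)) := by
    intro v e w n x0 hv he hn
    have e1 := hB.sum univ (fun X => |v X| * n) (fun X => v X • (e X - (φ X + w))) (by
      intro X _
      by_cases hX : X = x0
      · rw [hX, hv, zero_smul]
        simpa using hB.zero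
      · exact hB.zsmul (he X hX) (v X))
    have e2 := almost_comb hB h0 hadd v
    have e3 := hB.sub e1 e2
    have e4 : ∑ X, v X • e X - (φ (∑ X, v X • X) + (∑ X, v X) • w) =
        ∑ X, v X • (e X - (φ X + w)) - (φ (∑ X, v X • X) - ∑ X, v X • φ X) := by
      simp only [smul_sub, smul_add, Finset.sum_sub_distrib, Finset.sum_add_distrib,
        Finset.sum_smul]
      abel
    rw [e4]
    refine hB.mono _ _ _ (le_of_eq ?_) e3
    rw [← Finset.sum_mul]
    ring
  have k1 := key v1 eR a 16 0 h1 hf (by norm_num)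
  have k2 := key v2 eC b 18 0 h2 hg (by norm_num)
  have k3 := key v3 eS (a + b) 47 κ h3 (fun Z hZ => by
    have := hh Z hZ
    rwa [add_assoc] at this) (by norm_num)
  rw [hS1] at k1
  rw [hS2] at k2
  rw [hS3] at k3
  have k4 := hadd (∑ X, v1 X • X) (∑ Y, v2 Y • Y)
  rw [hlab] at k4
  have k5 := hB.sub (hB.sub (hB.add _ _ _ _ k1 k2) k3) k4
  have hvec : ∑ X, v1 X • eR X - (φ (∑ X, v1 X • X) + S • a) +
      (∑ X, v2 X • eC X - (φ (∑ X, v2 X • X) + S • b)) -
      (∑ X, v3 X • eS X - (φ (∑ X, v3 X • X) + S • (a + b))) -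
      (φ (∑ Z, v3 Z • Z) - (φ (∑ X, v1 X • X) + φ (∑ Y, v2 Y • Y))) = ((v1, v2, v3) : Vec G) := by
    have e1 := sum_eR v1
    have e2 := sum_eC v2
    have e3 := sum_eS v3
    rw [smul_add]
    have e4 : ∑ X, v1 X • eR X - (φ (∑ X, v1 X • X) + S • a) +
      (∑ X, v2 X • eC X - (φ (∑ X, v2 X • X) + S • b)) -
      (∑ X, v3 X • eS X - (φ (∑ X, v3 X • X) + (S • a + S • b))) -
      (φ (∑ Z, v3 Z • Z) - (φ (∑ X, v1 X • X) + φ (∑ Y, v2 Y • Y))) =
      ∑ X, v1 X • eR X + ∑ X, v2 X • eC X - ∑ X, v3 X • eS X := by abel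
    rw [e4, e1, e2, e3]
    refine Prod.ext ?_ (Prod.ext ?_ ?_)
    · show v1 + 0 - 0 = v1
      simp
    · show 0 + v2 - 0 = v2
      simp
    · show 0 + 0 - -v3 = v3
      simp
  rw [hvec] at k5
  obtain ⟨z, hz1, hz2, hz3⟩ := k5
  refine ⟨z, hz1, ?_, ?_, ?_, ?_⟩
  · intro X
    exact congrFun (congrArg (fun v : Vec G => v.1) hz3) X
  · intro X
    exact congrFun (congrArg (fun v : Vec G => v.2.1) hz3) X
  · intro X
    exact congrFun (congrArg (fun v : Vec G => v.2.2) hz3) X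
  · intro X Y
    have e1 : |z X Y| ≤ ∑ X, ∑ Y, |z X Y| :=
      (Finset.single_le_sum (f := fun Y => |z X Y|) (fun _ _ => abs_nonneg _)
        (mem_univ Y)).trans (Finset.single_le_sum (f := fun X => ∑ Y, |z X Y|)
          (fun _ _ => Finset.sum_nonneg fun _ _ => abs_nonneg _) (mem_univ X))
    refine e1.trans (hz2.trans ?_)
    have n1 : 0 ≤ ∑ X, |v1 X| := Finset.sum_nonneg fun _ _ => abs_nonneg _
    have n2 : 0 ≤ ∑ X, |v2 X| := Finset.sum_nonneg fun _ _ => abs_nonneg _
    linarith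

end Pool.Agent.Lib.MP_185394_co.All
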