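import Pool.Agent.Lib.MP_185394_co.Near.Rat
import Pool.Agent.Lib.MP_185394_co.Near.Int

/-!
Rational weights with prescribed margins, with bounds.
-/

namespace Pool.Agent.Lib.MP_185394_co.All

open Finset Near

set_option linter.unusedSectionVars false

section

variable {R C S : Type} [Fintype R] [Fintype C] [Fintype S] [DecidableEq R] [DecidableEq C]
  [DecidableEq S]

/-- Rational weights with prescribed margins on the complement of a sparse set of cells of a
Latin square. -/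
theorem exists_rat_weights (n : ℕ) (hn : 0 < n) (hR : Fintype.card R = n)
    (hC : Fintype.card C = n) (hS : Fintype.card S = n) (M : R → C → S)
    (hrow : ∀ r, Function.Injective (M r)) (hcol : ∀ c, Function.Injective (fun r => M r c))
    (N : Finset (R × C)) (t : ℕ)
    (hNr : ∀ r, (N.filter fun e => e.1 = r).card ≤ t)
    (hNc : ∀ c, (N.filter fun e => e.2 = c).card ≤ t)
    (hNs : ∀ s, (N.filter fun e => M e.1 e.2 = s).card ≤ t) (ht : 40 * t ≤ n)
    (ρ : R → ℚ) (γ : C → ℚ) (σ : S → ℚ) (T : ℚ) (hρ : ∑ r, ρ r = T) (hγ : ∑ c, γ c = T)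
    (hσ : ∑ s, σ s = T) (F : ℚ) (hF0 : 0 < F)
    (hf : ∀ r c, F / 2 ≤ (ρ r + γ c + σ (M r c)) / n - 2 * T / (n : ℚ) ^ 2 ∧
      (ρ r + γ c + σ (M r c)) / n - 2 * T / (n : ℚ) ^ 2 ≤ F) :
    ∃ q : R → C → ℚ, (∀ r c, (r, c) ∈ N → q r c = 0) ∧
      (∀ r c, (r, c) ∉ N → F / 4 ≤ q r c ∧ q r c ≤ 5 * F / 4) ∧ (∀ r, ∑ c, q r c = ρ r) ∧
      (∀ c, ∑ r, q r c = γ c) ∧
      ∀ s, (∑ e : R × C, if M e.1 e.2 = s then q e.1 e.2 else 0) = σ s := by
  classical
  have hn' : (0 : ℚ) < n := by exact_mod_cast hn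
  set f : R × C → ℚ := fun e => (ρ e.1 + γ e.2 + σ (M e.1 e.2)) / n - 2 * T / (n : ℚ) ^ 2
    with hfdef
  have hf' : ∀ e, F / 2 ≤ f e ∧ f e ≤ F := fun e => hf e.1 e.2
  obtain ⟨a, ha, haB⟩ := exists_solution (ι := N) (fun i j => corr n M i.1 j.1)
    (fun i => - f i.1) F (by
      intro i
      rw [abs_neg, abs_le]
      have := hf' i.1
      constructor <;> linarith) (by
      intro i
      rw [Finset.sum_coe_sort N (fun j => |corr n M i.1 j|)]
      have := sum_corr_le n hn hR M N t hNr hNc hNs ht i.1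
      linarith)
  set a' : R × C → ℚ := fun e => if h : e ∈ N then a ⟨e, h⟩ else 0 with ha'def
  have ha'N : ∀ i : N, a' i.1 = a i := fun i => by simp [a']
  have hsumN : ∀ e, ∑ j : N, corr n M e j.1 * a j = ∑ e' ∈ N, corr n M e e' * a' e' := by
    intro e
    rw [← Finset.sum_coe_sort N (fun j => corr n M e j * a' j)]
    apply Finset.sum_congr rfl
    intro j _
    rw [ha'N]
  set q : R × C → ℚ := fun e => f e + a' e + ∑ e' ∈ N, corr n M e e' * a' e' with hqdef
  have ha'B : ∀ e ∈ N, |a' e| ≤ 2 * F := fun e he => by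
    have h1 := ha'N ⟨e, he⟩
    simp only at h1
    rw [h1]
    exact haB _
  have hpert : ∀ e, |∑ e' ∈ N, corr n M e e' * a' e'| ≤ F / 4 := by
    intro e
    calc |∑ e' ∈ N, corr n M e e' * a' e'| ≤ ∑ e' ∈ N, |corr n M e e' * a' e'| :=
          Finset.abs_sum_le_sum_abs _ _
      _ ≤ ∑ e' ∈ N, |corr n M e e'| * (2 * F) := by
          apply Finset.sum_le_sum
          intro e' he'
          rw [abs_mul]
          exact mul_le_mul_of_nonneg_left (ha'B e' he') (abs_nonneg _)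
      _ = (∑ e' ∈ N, |corr n M e e'|) * (2 * F) := by rw [Finset.sum_mul]
      _ ≤ 1 / 8 * (2 * F) :=
          mul_le_mul_of_nonneg_right (sum_corr_le n hn hR M N t hNr hNc hNs ht e) (by linarith)
      _ = F / 4 := by ring
  have hind : ∀ (g : R × C → ℚ), ∑ e ∈ N, g e * a' e = ∑ e, g e * a' e := by
    intro g
    apply Finset.sum_subset (Finset.subset_univ _)
    intro e _ he
    simp [a', he]
  refine ⟨fun r c => q (r, c), ?_, ?_, ?_, ?_, ?_⟩
  · intro r c h
    have h1 := ha ⟨(r, c), h⟩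
    rw [hsumN, ← ha'N] at h1
    simp only at h1
    simp only [hqdef]
    linarith
  · intro r c h
    have h1 : a' (r, c) = 0 := by simp [a', h]
    have h2 := abs_le.mp (hpert (r, c))
    have h3 := hf' (r, c)
    simp only [hqdef, h1]
    constructor <;> linarith [h2.1, h2.2, h3.1, h3.2]
  · intro r
    simp only [hqdef, Finset.sum_add_distrib]
    rw [Finset.sum_comm]
    have h1 : ∑ e' ∈ N, ∑ c, corr n M (r, c) e' * a' e' = - ∑ c, a' (r, c) := by
      simp only [← Finset.sum_mul]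
      simp only [corr_row n hn hC hS M hrow]
      rw [hind (fun e => - if r = e.1 then 1 else 0), Fintype.sum_prod_type]
      rw [Finset.sum_eq_single r]
      · simp
      · intro r' _ hr'
        simp [Ne.symm hr']
      · intro h
        exact absurd (mem_univ _) h
    rw [h1]
    have h2 : ∑ c, f (r, c) = ρ r := by
      simp only [hfdef, Finset.sum_sub_distrib, ← Finset.sum_div, Finset.sum_add_distrib]
      have h3 : ∑ c, σ (M r c) = T := by
        rw [← hσ]
        exact Function.Bijective.sum_comp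
          ((Fintype.bijective_iff_injective_and_card (M r)).mpr ⟨hrow r, hC.trans hS.symm⟩) σ
      rw [h3, hγ]
      simp only [Finset.sum_const, Finset.card_univ, hC, nsmul_eq_mul]
      field_simp
      ring
    rw [h2]
    ring
  · intro c
    simp only [hqdef, Finset.sum_add_distrib]
    rw [Finset.sum_comm]
    have h1 : ∑ e' ∈ N, ∑ r, corr n M (r, c) e' * a' e' = - ∑ r, a' (r, c) := by
      simp only [← Finset.sum_mul]
      simp only [corr_col n hn hR hS M hcol]
      rw [hind (fun e => - if c = e.2 then 1 else 0), Fintype.sum_prod_type_right]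
      rw [Finset.sum_eq_single c]
      · simp
      · intro r' _ hr'
        simp [Ne.symm hr']
      · intro h
        exact absurd (mem_univ _) h
    rw [h1]
    have h2 : ∑ r, f (r, c) = γ c := by
      simp only [hfdef, Finset.sum_sub_distrib, ← Finset.sum_div, Finset.sum_add_distrib]
      have h3 : ∑ r, σ (M r c) = T := by
        rw [← hσ]
        exact Function.Bijective.sum_comp
          ((Fintype.bijective_iff_injective_and_card (fun r => M r c)).mpr
            ⟨hcol c, hR.trans hS.symm⟩) σ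
      rw [h3, hρ]
      simp only [Finset.sum_const, Finset.card_univ, hR, nsmul_eq_mul]
      field_simp
      ring
    rw [h2]
    ring
  · intro s
    have h0 : (∑ e : R × C, if M e.1 e.2 = s then q (e.1, e.2) else 0) =
        (∑ e : R × C, if M e.1 e.2 = s then f e else 0) +
        (∑ e : R × C, if M e.1 e.2 = s then a' e else 0) +
        ∑ e' ∈ N, (∑ e : R × C, if M e.1 e.2 = s then corr n M e e' else 0) * a' e' := by
      simp only [Finset.sum_mul]
      rw [Finset.sum_comm (s := N), ← Finset.sum_add_distrib, ← Finset.sum_add_distrib]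
      apply Finset.sum_congr rfl
      rintro ⟨r, c⟩ _
      by_cases h : M r c = s
      · simp [h, hqdef]
      · simp [h]
    rw [h0]
    simp only [corr_sym n hn hR hC hS M hrow hcol s]
    rw [hind (fun e => - if s = M e.1 e.2 then 1 else 0)]
    have h1 : (∑ e : R × C, (- if s = M e.1 e.2 then (1 : ℚ) else 0) * a' e) =
        - ∑ e : R × C, if M e.1 e.2 = s then a' e else 0 := by
      rw [← Finset.sum_neg_distrib]
      apply Finset.sum_congr rfl
      intro e _
      by_cases h : M e.1 e.2 = s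
      · simp [h]
      · simp [h, Ne.symm h]
    rw [h1]
    have h2 : (∑ e : R × C, if M e.1 e.2 = s then f e else 0) = σ s := by
      obtain ⟨c, hc, hsum⟩ := sum_symbol n hC hS M hrow s (fun r c => f (r, c))
      have h3 : (∑ e : R × C, if M e.1 e.2 = s then f e else 0) = ∑ r, f (r, c r) := hsum
      have hcinj : Function.Injective c := by
        intro r r' h
        have h1 : M r (c r) = M r' (c r) := by
          rw [hc r, h, hc r']
        exact hcol (c r) h1
      rw [h3]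
      simp only [hfdef, hc, Finset.sum_sub_distrib, ← Finset.sum_div, Finset.sum_add_distrib]
      have h4 : ∑ r, γ (c r) = T := by
        rw [← hγ]
        exact Function.Bijective.sum_comp
          ((Fintype.bijective_iff_injective_and_card c).mpr ⟨hcinj, hR.trans hC.symm⟩) γ
      rw [h4, hρ]
      simp only [Finset.sum_const, Finset.card_univ, hR, nsmul_eq_mul]
      field_simp
      ring
    rw [h2]
    ring

end

variable {G : Type} [AddCommGroup G] [Fintype G] [DecidableEq G]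

lemma sum_subtype_ne {A : Type} [AddCommMonoid A] (x0 : G) (f : G → A) (h0 : f x0 = 0) :
    ∑ a : {a : G // a ≠ x0}, f a.1 = ∑ a, f a := by
  rw [← Finset.sum_subtype (univ.erase x0) (fun x => by simp) f]
  exact Finset.sum_erase _ h0

/-- rational weights on the cells of a dense set of natural cells of a Latin square -/
theorem exists_rat_G {κ : G} {M : G → G → G} (hMne : ∀ X Y, X ≠ 0 → Y ≠ 0 → M X Y ≠ κ)
    (hMrow : ∀ X, X ≠ 0 → ∀ Y Y', Y ≠ 0 → Y' ≠ 0 → M X Y = M X Y' → Y = Y')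
    (hMcol : ∀ Y, Y ≠ 0 → ∀ X X', X ≠ 0 → X' ≠ 0 → M X Y = M X' Y → X = X')
    {nat : G → G → Prop} [∀ x y, Decidable (nat x y)] (hnat : ∀ X Y, nat X Y → M X Y = X + Y)
    {t : ℕ} (hD : Dense κ nat t) (hG : 2 ≤ Fintype.card G) (ht : 40 * t + 1 ≤ Fintype.card G)
    (ρ γ σ : G → ℚ) (hρ0 : ρ 0 = 0) (hγ0 : γ 0 = 0) (hσ0 : σ κ = 0) (T : ℚ)
    (hρ : ∑ X, ρ X = T) (hγ : ∑ X, γ X = T) (hσ : ∑ X, σ X = T) (lo hi : ℚ) (hhi : 4 ≤ hi)
    (hlo : 7 * hi ≤ 8 * lo) (hn : 2 * (3 * hi - 2 * lo) + 1 ≤ Fintype.card G)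
    (hρb : ∀ X, X ≠ 0 → lo ≤ ρ X ∧ ρ X ≤ hi) (hγb : ∀ X, X ≠ 0 → lo ≤ γ X ∧ γ X ≤ hi)
    (hσb : ∀ X, X ≠ κ → lo ≤ σ X ∧ σ X ≤ hi) :
    ∃ q : G → G → ℚ, (∀ X Y, ¬ nat X Y → q X Y = 0) ∧
      (∀ X Y, nat X Y → 1 / (Fintype.card G : ℚ) ≤ q X Y ∧ q X Y ≤ 5 / 8) ∧
      (∀ X, ∑ Y, q X Y = ρ X) ∧
      (∀ Y, ∑ X, q X Y = γ Y) ∧ ∀ Z, ∑ X, q X (Z - X) = σ Z := by
  set n := Fintype.card G - 1 with hndef
  have hn0 : 0 < n := by omega
  have hn0' : (0 : ℚ) < n := by exact_mod_cast hn0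
  have hnG : (Fintype.card G : ℚ) = n + 1 := by
    have : Fintype.card G = n + 1 := by omega
    exact_mod_cast this
  have hcard : ∀ x0 : G, Fintype.card {a : G // a ≠ x0} = n := by
    intro x0
    rw [Fintype.card_subtype_compl]
    simp [hndef]
  let M' : {a : G // a ≠ 0} → {a : G // a ≠ 0} → {a : G // a ≠ κ} := fun X Y =>
    ⟨M X.1 Y.1, hMne _ _ X.2 Y.2⟩
  have hrow : ∀ X, Function.Injective (M' X) := fun X Y Y' h =>
    Subtype.ext (hMrow X.1 X.2 _ _ Y.2 Y'.2 (Subtype.ext_iff.mp h))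
  have hcol : ∀ Y, Function.Injective (fun X => M' X Y) := fun Y X X' h =>
    Subtype.ext (hMcol Y.1 Y.2 _ _ X.2 X'.2 (Subtype.ext_iff.mp h))
  let N : Finset ({a : G // a ≠ 0} × {a : G // a ≠ 0}) :=
    univ.filter fun e => ¬ nat e.1.1 e.2.1
  have hNr : ∀ r, (N.filter fun e => e.1 = r).card ≤ t := by
    intro r
    refine le_trans ?_ (hD.row r.1 r.2)
    apply Finset.card_le_card_of_injOn (fun e => e.2.1)
    · intro e he
      rw [mem_coe, mem_filter] at he
      rw [mem_coe, mem_filter]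
      refine ⟨mem_univ _, ?_⟩
      rw [← he.2]
      exact (mem_filter.mp he.1).2
    · intro e he e' he' h
      rw [mem_coe, mem_filter] at he he'
      exact Prod.ext (he.2.trans he'.2.symm) (Subtype.ext h)
  have hNc : ∀ r, (N.filter fun e => e.2 = r).card ≤ t := by
    intro r
    refine le_trans ?_ (hD.col r.1 r.2)
    apply Finset.card_le_card_of_injOn (fun e => e.1.1)
    · intro e he
      rw [mem_coe, mem_filter] at he
      rw [mem_coe, mem_filter]
      refine ⟨mem_univ _, ?_⟩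
      rw [← he.2]
      exact (mem_filter.mp he.1).2
    · intro e he e' he' h
      rw [mem_coe, mem_filter] at he he'
      exact Prod.ext (Subtype.ext h) (he.2.trans he'.2.symm)
  have hNs : ∀ s, (N.filter fun e => M' e.1 e.2 = s).card ≤ t := by
    intro s
    refine le_trans ?_ (hD.sym s.1 s.2)
    apply Finset.card_le_card_of_injOn (fun e => e.1.1)
    · intro e he
      rw [mem_coe, mem_filter] at he
      rw [mem_coe, mem_filter]
      refine ⟨mem_univ _, fun hg => ?_⟩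
      have h1 : M e.1.1 e.2.1 = s.1 := Subtype.ext_iff.mp he.2
      have h2 := hnat _ _ hg
      rw [add_sub_cancel, ← h1] at h2
      have h3 := hMrow e.1.1 e.1.2 _ _ (by rw [h1]; exact hD.y0 _ _ hg) e.2.2 h2
      rw [h1] at h3
      rw [h3] at hg
      exact (mem_filter.mp he.1).2 hg
    · intro e he e' he' h
      rw [mem_coe, mem_filter] at he he'
      have h0 : e.1 = e'.1 := Subtype.ext h
      refine Prod.ext h0 ?_
      have h1 := he.2.trans he'.2.symm
      rw [h0] at h1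
      exact hrow _ h1
  have hTlo : (n : ℚ) * lo ≤ T := by
    rw [← hρ, ← sum_subtype_ne 0 ρ hρ0]
    have h1 : ∑ _a : {a : G // a ≠ 0}, lo ≤ ∑ a : {a : G // a ≠ 0}, ρ a.1 :=
      Finset.sum_le_sum fun a _ => (hρb a.1 a.2).1
    rw [Finset.sum_const, Finset.card_univ, hcard, nsmul_eq_mul] at h1
    exact h1
  have hThi : T ≤ (n : ℚ) * hi := by
    rw [← hρ, ← sum_subtype_ne 0 ρ hρ0]
    have h1 : ∑ a : {a : G // a ≠ 0}, ρ a.1 ≤ ∑ _a : {a : G // a ≠ 0}, hi :=
      Finset.sum_le_sum fun a _ => (hρb a.1 a.2).2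
    rw [Finset.sum_const, Finset.card_univ, hcard, nsmul_eq_mul] at h1
    exact h1
  have hT2 : ∀ x : ℚ, x / n - 2 * T / (n : ℚ) ^ 2 = (x - 2 * (T / n)) / n := by
    intro x
    field_simp
  have hTn1 : lo ≤ T / n := by rw [le_div_iff₀ hn0']; linarith
  have hTn2 : T / n ≤ hi := by rw [div_le_iff₀ hn0']; linarith
  obtain ⟨q, hq0, hq1, hqr, hqc, hqs⟩ := exists_rat_weights n hn0 (hcard 0) (hcard 0) (hcard κ)
    M' hrow hcol N t hNr hNc hNs (by omega) (fun X => ρ X.1) (fun Y => γ Y.1) (fun Z => σ Z.1) T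
    (by rw [sum_subtype_ne 0 ρ hρ0, hρ]) (by rw [sum_subtype_ne 0 γ hγ0, hγ])
    (by rw [sum_subtype_ne κ σ hσ0, hσ]) ((3 * hi - 2 * lo) / n)
    (div_pos (by linarith [hTn1.trans hTn2]) hn0') (by
      intro r c
      rw [hT2, div_div, mul_comm (n : ℚ) 2, ← div_div]
      have h1 := hρb r.1 r.2
      have h2 := hγb c.1 c.2
      have h3 := hσb (M' r c).1 (M' r c).2
      constructor
      · apply div_le_div_of_nonneg_right _ hn0'.le
        linarith [h1.1, h2.1, h3.1]
      · apply div_le_div_of_nonneg_right _ hn0'.le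
        linarith [h1.2, h2.2, h3.2])
  have hFlo : 1 / (Fintype.card G : ℚ) ≤ (3 * hi - 2 * lo) / n / 4 := by
    rw [hnG, div_div, div_le_div_iff₀ (by linarith) (by positivity)]
    nlinarith [hTn1.trans hTn2]
  have hFhi : 5 * ((3 * hi - 2 * lo) / n) / 4 ≤ 5 / 8 := by
    have h1 : (3 * hi - 2 * lo) / n ≤ 1 / 2 := by
      rw [div_le_div_iff₀ hn0' (by norm_num)]
      rw [hnG] at hn
      linarith
    linarith
  let q' : G → G → ℚ := fun X Y => if h : X ≠ 0 ∧ Y ≠ 0 then q ⟨X, h.1⟩ ⟨Y, h.2⟩ else 0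
  have hq' : ∀ X Y (h : X ≠ 0 ∧ Y ≠ 0), q' X Y = q ⟨X, h.1⟩ ⟨Y, h.2⟩ := fun X Y h => dif_pos h
  have hq'g : ∀ X Y, ¬ nat X Y → q' X Y = 0 := by
    intro X Y hg
    by_cases h : X ≠ 0 ∧ Y ≠ 0
    · rw [hq' X Y h]
      exact hq0 _ _ (mem_filter.mpr ⟨mem_univ _, hg⟩)
    · simp only [q', dif_neg h]
  have hq'0 : ∀ X Y, (X = 0 ∨ Y = 0) → q' X Y = 0 := by
    intro X Y h
    apply hq'g
    intro hn
    rcases h with h | h
    · exact hD.x0 _ _ hn h
    · exact hD.y0 _ _ hn h
  refine ⟨q', hq'g, ?_, ?_, ?_, ?_⟩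
  · intro X Y hg
    rw [hq' X Y ⟨hD.x0 _ _ hg, hD.y0 _ _ hg⟩]
    obtain ⟨h1, h2⟩ := hq1 ⟨X, hD.x0 _ _ hg⟩ ⟨Y, hD.y0 _ _ hg⟩
      (fun h => (mem_filter.mp h).2 hg)
    exact ⟨hFlo.trans h1, h2.trans hFhi⟩
  · intro X
    by_cases hX : X = 0
    · rw [hX, hρ0]
      exact Finset.sum_eq_zero fun Y _ => hq'0 _ _ (Or.inl rfl)
    · rw [← hqr ⟨X, hX⟩, ← sum_subtype_ne 0 (fun Y => q' X Y) (hq'0 _ _ (Or.inr rfl))]
      apply Finset.sum_congr rfl
      intro Y _
      exact hq' X Y.1 ⟨hX, Y.2⟩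
  · intro Y
    by_cases hY : Y = 0
    · rw [hY, hγ0]
      exact Finset.sum_eq_zero fun X _ => hq'0 _ _ (Or.inr rfl)
    · rw [← hqc ⟨Y, hY⟩, ← sum_subtype_ne 0 (fun X => q' X Y) (hq'0 _ _ (Or.inl rfl))]
      apply Finset.sum_congr rfl
      intro X _
      exact hq' X.1 Y ⟨X.2, hY⟩
  · intro Z
    by_cases hZ : Z = κ
    · rw [hZ, hσ0]
      refine Finset.sum_eq_zero fun X _ => hq'g _ _ ?_
      intro h
      exact hD.zk _ _ h (add_sub_cancel _ _)
    · rw [← hqs ⟨Z, hZ⟩, Fintype.sum_prod_type]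
      rw [← sum_subtype_ne 0 (fun X => q' X (Z - X)) (hq'0 _ _ (Or.inl rfl))]
      apply Finset.sum_congr rfl
      intro X _
      have h1 : ∀ Y : {a : G // a ≠ 0}, (if M' X Y = ⟨Z, hZ⟩ then q X Y else 0) =
          if Y.1 = Z - X.1 then q' X.1 Y.1 else 0 := by
        intro Y
        rw [hq' X.1 Y.1 ⟨X.2, Y.2⟩]
        by_cases hg : nat X.1 Y.1
        · have h2 : M' X Y = ⟨Z, hZ⟩ ↔ Y.1 = Z - X.1 := by
            rw [Subtype.ext_iff]
            show M X.1 Y.1 = Z ↔ _
            rw [hnat _ _ hg, eq_sub_iff_add_eq, add_comm]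
          by_cases h3 : M' X Y = ⟨Z, hZ⟩
          · rw [if_pos h3, if_pos (h2.mp h3)]
          · rw [if_neg h3, if_neg (fun h => h3 (h2.mpr h))]
        · have h2 : q X Y = 0 := hq0 _ _ (mem_filter.mpr ⟨mem_univ _, hg⟩)
          show (if M' X Y = ⟨Z, hZ⟩ then q X Y else 0) = if Y.1 = Z - X.1 then q X Y else 0
          rw [h2]
          simp
      have h2 : ∑ Y : {a : G // a ≠ 0}, (if M' (X, Y).1 (X, Y).2 = ⟨Z, hZ⟩ then
          q (X, Y).1 (X, Y).2 else 0) = ∑ Y : {a : G // a ≠ 0},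
          if Y.1 = Z - X.1 then q' X.1 Y.1 else 0 := Finset.sum_congr rfl fun Y _ => h1 Y
      rw [h2, sum_subtype_ne 0 (fun Y => if Y = Z - X.1 then q' X.1 Y else 0)]
      · simp
      · split_ifs
        · exact hq'0 _ _ (Or.inr rfl)
        · rfl

end Pool.Agent.Lib.MP_185394_co.All
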