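import Pool.Agent.Lib.MP_185394_co.All.IntB
import Pool.Agent.Lib.MP_185394_co.All.RatB

/-!
Integer weights between `0` and `g` with prescribed margins on a dense set of natural cells.
-/

namespace Pool.Agent.Lib.MP_185394_co.All

open Finset Near

set_option linter.unusedSectionVars false

variable {G : Type} [AddCommGroup G] [Fintype G] [DecidableEq G]

lemma sum_reindex {A : Type} [AddCommMonoid A] (f : G → G → A) :
    ∑ Z, ∑ X, f X (Z - X) = ∑ X, ∑ Y, f X Y := by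
  rw [Finset.sum_comm]
  apply Finset.sum_congr rfl
  intro X _
  exact Equiv.sum_comp (Equiv.subRight X) (fun Y => f X Y)

lemma label_of_margins (w : G → G → ℤ) :
    ∑ X, (∑ Y, w X Y) • X + ∑ Y, (∑ X, w X Y) • Y = ∑ Z, (∑ X, w X (Z - X)) • Z := by
  have h1 : ∑ X, (∑ Y, w X Y) • X = ∑ X, ∑ Y, w X Y • X := by
    simp only [Finset.sum_smul]
  have h2 : ∑ Y, (∑ X, w X Y) • Y = ∑ X, ∑ Y, w X Y • Y := by
    simp only [Finset.sum_smul]
    exact Finset.sum_comm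
  have h3 : ∑ Z, (∑ X, w X (Z - X)) • Z = ∑ X, ∑ Y, w X Y • (X + Y) := by
    rw [← sum_reindex (fun X Y => w X Y • (X + Y))]
    apply Finset.sum_congr rfl
    intro Z _
    rw [Finset.sum_smul]
    apply Finset.sum_congr rfl
    intro X _
    rw [add_sub_cancel]
  rw [h1, h2, h3, ← Finset.sum_add_distrib]
  apply Finset.sum_congr rfl
  intro X _
  rw [← Finset.sum_add_distrib]
  apply Finset.sum_congr rfl
  intro Y _
  rw [smul_add]

theorem exists_int_G {κ : G} {M : G → G → G} (hMne : ∀ X Y, X ≠ 0 → Y ≠ 0 → M X Y ≠ κ)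
    (hMrow : ∀ X, X ≠ 0 → ∀ Y Y', Y ≠ 0 → Y' ≠ 0 → M X Y = M X Y' → Y = Y')
    (hMcol : ∀ Y, Y ≠ 0 → ∀ X X', X ≠ 0 → X' ≠ 0 → M X Y = M X' Y → X = X')
    {nat : G → G → Prop} [∀ x y, Decidable (nat x y)] (hnat : ∀ X Y, nat X Y → M X Y = X + Y)
    {t : ℕ} (hD : Dense κ nat t) (hG : 5 ≤ Fintype.card G) (ht : 40 * t + 1 ≤ Fintype.card G)
    (g : ℕ) (hg : 238 * Fintype.card G ^ 3 ≤ g)
    (V1 V2 V3 : G → ℤ) (h1 : V1 0 = 0) (h2 : V2 0 = 0) (h3 : V3 κ = 0) (S : ℤ)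
    (hS1 : ∑ X, V1 X = S) (hS2 : ∑ X, V2 X = S) (hS3 : ∑ X, V3 X = S)
    (hlab : ∑ X, V1 X • X + ∑ Y, V2 Y • Y = ∑ Z, V3 Z • Z) (lo hi : ℤ) (hhi : 4 ≤ hi)
    (hlo : 7 * hi ≤ 8 * lo) (hn : 2 * (3 * hi - 2 * lo) + 1 ≤ Fintype.card G)
    (hb1 : ∀ X, X ≠ 0 → lo * g ≤ V1 X ∧ V1 X ≤ hi * g)
    (hb2 : ∀ X, X ≠ 0 → lo * g ≤ V2 X ∧ V2 X ≤ hi * g)
    (hb3 : ∀ X, X ≠ κ → lo * g ≤ V3 X ∧ V3 X ≤ hi * g) :
    ∃ y : G → G → ℤ, (∀ X Y, ¬ nat X Y → y X Y = 0) ∧ (∀ X Y, nat X Y → 0 ≤ y X Y ∧ y X Y ≤ g) ∧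
      (∀ X, ∑ Y, y X Y = V1 X) ∧ (∀ Y, ∑ X, y X Y = V2 Y) ∧ ∀ Z, ∑ X, y X (Z - X) = V3 Z := by
  set b := Fintype.card G with hb
  have hb0 : 0 < b := by omega
  have hg0 : 0 < g := lt_of_lt_of_le (by positivity) hg
  have hgq : (0 : ℚ) < g := by exact_mod_cast hg0
  have hdiv : ∀ v : ℤ, (lo * g ≤ v ∧ v ≤ hi * g) → (lo : ℚ) ≤ v / g ∧ (v : ℚ) / g ≤ hi := by
    rintro v ⟨a1, a2⟩
    constructor
    · rw [le_div_iff₀ hgq]
      exact_mod_cast a1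
    · rw [div_le_iff₀ hgq]
      exact_mod_cast a2
  obtain ⟨q, hq0, hq1, hqr, hqc, hqs⟩ := exists_rat_G hMne hMrow hMcol hnat hD (by omega) ht
    (fun X => (V1 X : ℚ) / g) (fun X => (V2 X : ℚ) / g) (fun X => (V3 X : ℚ) / g)
    (by simp [h1]) (by simp [h2]) (by simp [h3]) ((S : ℚ) / g)
    (by rw [← Finset.sum_div, ← hS1]; push_cast; rfl)
    (by rw [← Finset.sum_div, ← hS2]; push_cast; rfl)
    (by rw [← Finset.sum_div, ← hS3]; push_cast; rfl) (lo : ℚ) (hi : ℚ)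
    (by exact_mod_cast hhi) (by exact_mod_cast hlo) (by exact_mod_cast hn)
    (fun X hX => hdiv _ (hb1 X hX)) (fun X hX => hdiv _ (hb2 X hX))
    (fun X hX => hdiv _ (hb3 X hX))
  let w : G → G → ℤ := fun X Y => ⌊(g : ℚ) * q X Y⌋
  have hw0 : ∀ X Y, ¬ nat X Y → w X Y = 0 := by
    intro X Y h
    show ⌊(g : ℚ) * q X Y⌋ = 0
    rw [hq0 X Y h, mul_zero, Int.floor_zero]
  have hfl : ∀ X Y, (w X Y : ℚ) ≤ g * q X Y ∧ (g : ℚ) * q X Y ≤ w X Y + 1 := fun X Y =>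
    ⟨Int.floor_le _, (Int.lt_floor_add_one _).le⟩
  have herr : ∀ (f : G → ℤ) (p : G → ℚ) (v : ℤ), (∀ Y, (f Y : ℚ) ≤ g * p Y ∧
      (g : ℚ) * p Y ≤ f Y + 1) → ∑ Y, p Y = v / g → |v - ∑ Y, f Y| ≤ b := by
    intro f p v hf hp
    have e1 : (v : ℚ) = ∑ Y, g * p Y := by
      rw [← Finset.mul_sum, hp]
      field_simp
    have e2 : ((∑ Y, f Y : ℤ) : ℚ) ≤ v := by
      rw [e1]
      push_cast
      exact Finset.sum_le_sum fun Y _ => (hf Y).1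
    have e3 : (v : ℚ) ≤ ((∑ Y, f Y : ℤ) : ℚ) + b := by
      rw [e1]
      push_cast
      have e4 : ∑ Y, (g : ℚ) * p Y ≤ ∑ Y, ((f Y : ℚ) + 1) :=
        Finset.sum_le_sum fun Y _ => (hf Y).2
      rw [Finset.sum_add_distrib] at e4
      simpa [hb] using e4
    have e2' : ∑ Y, f Y ≤ v := by exact_mod_cast e2
    have e3' : v ≤ ∑ Y, f Y + b := by exact_mod_cast e3
    rw [abs_le]
    constructor <;> linarith [(Nat.cast_nonneg b : (0 : ℤ) ≤ b)]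
  let e1 : G → ℤ := fun X => V1 X - ∑ Y, w X Y
  let e2 : G → ℤ := fun Y => V2 Y - ∑ X, w X Y
  let e3 : G → ℤ := fun Z => V3 Z - ∑ X, w X (Z - X)
  have he1 : ∀ X, |e1 X| ≤ b := fun X => herr (fun Y => w X Y) (fun Y => q X Y) (V1 X)
    (fun Y => hfl X Y) (hqr X)
  have he2 : ∀ Y, |e2 Y| ≤ b := fun Y => herr (fun X => w X Y) (fun X => q X Y) (V2 Y)
    (fun X => hfl X Y) (hqc Y)
  have he3 : ∀ Z, |e3 Z| ≤ b := fun Z => herr (fun X => w X (Z - X)) (fun X => q X (Z - X)) (V3 Z)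
    (fun X => hfl X (Z - X)) (hqs Z)
  have hsum : ∀ e : G → ℤ, (∀ X, |e X| ≤ b) → ∑ X, |e X| ≤ b * b := by
    intro e he
    have h := Finset.sum_le_sum (s := univ) fun X _ => he X
    rw [Finset.sum_const, Finset.card_univ, nsmul_eq_mul] at h
    exact h
  have hw0' : ∀ X Y, (X = 0 ∨ Y = 0 ∨ X + Y = κ) → w X Y = 0 := by
    intro X Y h
    apply hw0
    intro hn
    rcases h with h | h | h
    · exact hD.x0 _ _ hn h
    · exact hD.y0 _ _ hn h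
    · exact hD.zk _ _ hn h
  have ht4 : 4 * t < Fintype.card G := by omega
  obtain ⟨z, hz0, hzr, hzc, hzs, hzb⟩ := dense_exists_int hD ht4 hG e1 e2 e3
    (by
      show V1 0 - ∑ Y, w 0 Y = 0
      rw [h1, Finset.sum_eq_zero fun Y _ => hw0' 0 Y (Or.inl rfl), sub_zero])
    (by
      show V2 0 - ∑ X, w X 0 = 0
      rw [h2, Finset.sum_eq_zero fun X _ => hw0' X 0 (Or.inr (Or.inl rfl)), sub_zero])
    (by
      show V3 κ - ∑ X, w X (κ - X) = 0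
      rw [h3, Finset.sum_eq_zero fun X _ => hw0' X (κ - X)
        (Or.inr (Or.inr (add_sub_cancel _ _))), sub_zero])
    (S - ∑ X, ∑ Y, w X Y)
    (by
      show ∑ X, (V1 X - ∑ Y, w X Y) = _
      rw [Finset.sum_sub_distrib, hS1])
    (by
      show ∑ Y, (V2 Y - ∑ X, w X Y) = _
      rw [Finset.sum_sub_distrib, hS2]
      congr 1
      exact Finset.sum_comm)
    (by
      show ∑ Z, (V3 Z - ∑ X, w X (Z - X)) = _
      rw [Finset.sum_sub_distrib, hS3, sum_reindex])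
    (by
      show ∑ X, (V1 X - ∑ Y, w X Y) • X + ∑ Y, (V2 Y - ∑ X, w X Y) • Y =
        ∑ Z, (V3 Z - ∑ X, w X (Z - X)) • Z
      simp only [sub_smul, Finset.sum_sub_distrib]
      rw [← hlab, ← label_of_margins w]
      abel)
  have hzb' : ∀ X Y, |z X Y| ≤ 237 * (b : ℤ) ^ 2 := by
    intro X Y
    refine (hzb X Y).trans ?_
    have a1 := hsum e1 he1
    have a2 := hsum e2 he2
    have a3 := hsum e3 he3
    have a4 : (1 : ℤ) ≤ b := by exact_mod_cast hb0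
    nlinarith
  have hbig : (238 : ℤ) * b ^ 3 ≤ g := by exact_mod_cast hg
  have hb5 : (5 : ℤ) ≤ b := by exact_mod_cast hG
  refine ⟨fun X Y => w X Y + z X Y, ?_, ?_, ?_, ?_, ?_⟩
  · intro X Y h
    show w X Y + z X Y = 0
    rw [hw0 X Y h, hz0 X Y h, add_zero]
  · intro X Y h
    obtain ⟨a1, a2⟩ := hq1 X Y h
    obtain ⟨a3, a4⟩ := hfl X Y
    have a5 := abs_le.mp (hzb' X Y)
    show 0 ≤ w X Y + z X Y ∧ w X Y + z X Y ≤ g
    constructor
    · have c1 : (g : ℚ) / b ≤ w X Y + 1 := by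
        refine le_trans ?_ a4
        rw [div_eq_mul_one_div]
        exact mul_le_mul_of_nonneg_left a1 hgq.le
      have c2 : ((238 * (b : ℤ) ^ 2 : ℤ) : ℚ) ≤ ((w X Y + 1 : ℤ) : ℚ) := by
        push_cast
        refine le_trans ?_ c1
        rw [le_div_iff₀ (by exact_mod_cast hb0)]
        have c3 : ((238 * (b : ℤ) ^ 3 : ℤ) : ℚ) ≤ ((g : ℤ) : ℚ) := by exact_mod_cast hbig
        push_cast at c3
        nlinarith
      have c3 : 238 * (b : ℤ) ^ 2 ≤ w X Y + 1 := by exact_mod_cast c2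
      nlinarith [a5.1]
    · have c1 : (w X Y : ℚ) ≤ g * (5 / 8) := a3.trans (mul_le_mul_of_nonneg_left a2 hgq.le)
      have c2 : ((8 * w X Y : ℤ) : ℚ) ≤ ((5 * (g : ℤ) : ℤ) : ℚ) := by
        push_cast
        linarith
      have c3 : 8 * w X Y ≤ 5 * (g : ℤ) := by exact_mod_cast c2
      have c4 : 8 * (237 * (b : ℤ) ^ 2) ≤ 3 * g := by
        nlinarith [mul_le_mul_of_nonneg_right hb5 (by positivity : (0 : ℤ) ≤ b ^ 2)]
      linarith [a5.2]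
  · intro X
    show ∑ Y, (w X Y + z X Y) = V1 X
    rw [Finset.sum_add_distrib, hzr]
    show _ + (V1 X - ∑ Y, w X Y) = _
    ring
  · intro Y
    show ∑ X, (w X Y + z X Y) = V2 Y
    rw [Finset.sum_add_distrib, hzc]
    show _ + (V2 Y - ∑ X, w X Y) = _
    ring
  · intro Z
    show ∑ X, (w X (Z - X) + z X (Z - X)) = V3 Z
    rw [Finset.sum_add_distrib, hzs]
    show _ + (V3 Z - ∑ X, w X (Z - X)) = _
    ring

end Pool.Agent.Lib.MP_185394_co.All
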