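import Pool.Agent.Lib.MP_185394_co.All.Assemble
import Pool.Agent.Lib.MP_185394_co.Near.Limsup

/-!
`κ(n) ≥ n - 41 n ^ (16 / 17)` for all large `n`.
-/

namespace Pool.Agent.Lib.MP_185394_co.All

open Finset Filter

lemma exists_prime_not_dvd (a k : ℕ) : ∀ n : ℕ, 0 < n → n < (2 ^ a) ^ k →
    ∃ p, p.Prime ∧ 2 ^ a < p ∧ p ≤ 2 ^ (a + k) ∧ ¬ p ∣ n := by
  induction k with
  | zero =>
    intro n hn h
    rw [pow_zero] at h
    omega
  | succ k ih =>
    intro n hn h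
    have h0 : 2 ^ (a + k) ≠ 0 := by positivity
    obtain ⟨q, hq, hq1, hq2⟩ := Nat.exists_prime_lt_and_le_two_mul (2 ^ (a + k)) h0
    have hle : 2 ^ a ≤ 2 ^ (a + k) := Nat.pow_le_pow_right (by norm_num) (by omega)
    have he : 2 * 2 ^ (a + k) = 2 ^ (a + (k + 1)) := by
      rw [← add_assoc, pow_succ]
      ring
    by_cases hd : q ∣ n
    · obtain ⟨n', rfl⟩ := hd
      have hn' : 0 < n' := Nat.pos_of_ne_zero (fun h' => by
        rw [h', mul_zero] at hn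
        omega)
      obtain ⟨p, hp, hp1, hp2, hp3⟩ := ih n' hn' (by
        by_contra hno
        push Not at hno
        have h1 : (2 ^ a) ^ (k + 1) ≤ q * n' := by
          rw [pow_succ, mul_comm]
          exact Nat.mul_le_mul (hle.trans hq1.le) hno
        omega)
      refine ⟨p, hp, hp1, ?_, ?_⟩
      · rw [← he]
        omega
      · intro hd
        rcases (hp.dvd_mul).mp hd with h1 | h1
        · have := (Nat.prime_dvd_prime_iff_eq hp hq).mp h1
          omega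
        · exact hp3 h1
    · exact ⟨q, hq, by omega, by rw [← he]; exact hq2, hd⟩

theorem kappa_ge_primes {n h γ : ℕ} (hβ : (2 * h + 1).Prime) (hγ : γ.Prime)
    (hβn : ¬ (2 * h + 1) ∣ n) (hγn : ¬ γ ∣ n) (hh : 256 ≤ h) (hβγ : (2 * h + 1) ^ 3 < γ)
    (hb4 : 238 * ((2 * h + 1) * γ) ^ 4 ≤ n) :
    (n : ℝ) - 41 * n / (2 * h + 1 : ℕ) ≤ kappa n := by
  have hγ' : h * (2 * h) + (h * (2 * h * (2 * h)) + h * (2 * h * (2 * h))) + 2 ≤ γ := by
    have h3 : (2 * h + 1) ^ 3 = h * (2 * h) + (h * (2 * h * (2 * h)) + h * (2 * h * (2 * h))) +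
        (10 * h * h + 6 * h + 1) := by ring
    have h4 : 2 ≤ 6 * h := by omega
    omega
  obtain ⟨b, hb⟩ : ∃ b, b = (2 * h + 1) * γ := ⟨_, rfl⟩
  rw [← hb] at hb4
  have hbpos : 0 < b := by
    rw [hb]
    exact Nat.mul_pos (by omega) hγ.pos
  -- the second factor
  obtain ⟨u, hu⟩ : ∃ u, u = (n + 2) / (2 * b * b) + 1 := ⟨_, rfl⟩
  have hbb : 0 < 2 * b * b := Nat.mul_pos (by omega) hbpos
  have hu1 : n + 2 < 2 * b * b * u := by
    rw [hu]
    exact Nat.lt_mul_div_succ _ hbb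
  have hu2 : 2 * b * b * u ≤ n + 2 + 2 * b * b := by
    rw [hu, mul_add, mul_one]
    have := Nat.mul_div_le (n + 2) (2 * b * b)
    omega
  obtain ⟨g, hg⟩ : ∃ g, g = 2 * b * u + 1 := ⟨_, rfl⟩
  have hbg : b * g = 2 * b * b * u + b := by
    rw [hg]
    ring
  obtain ⟨s, hs⟩ : ∃ s, s = b * g - n := ⟨_, rfl⟩
  have hsn : n = b * g - s := by omega
  have hs2 : 2 ≤ s := by omega
  have hb512 : 512 ≤ b := by
    rw [hb]
    have h3 : 512 * 1 ≤ (2 * h + 1) * γ := Nat.mul_le_mul (by omega) hγ.pos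
    omega
  have hs3 : s ≤ 3 * (b * b) := by
    have h3 : 2 * b * b = 2 * (b * b) := by ring
    have h4 : 512 * b ≤ b * b := Nat.mul_le_mul_right b hb512
    omega
  have hodd : Odd g := ⟨b * u, by rw [hg]; ring⟩
  have hco : Nat.Coprime b g := by
    rw [hg]
    have : 2 * b * u + 1 = 1 + b * (2 * u) := by ring
    rw [this]
    simp
  have hcon : Nat.Coprime n b := by
    rw [hb]
    apply Nat.Coprime.mul_right
    · exact ((Nat.Prime.coprime_iff_not_dvd hβ).mpr hβn).symm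
    · exact ((Nat.Prime.coprime_iff_not_dvd hγ).mpr hγn).symm
  have hcos : Nat.Coprime s b := by
    have h4 : n + s = b * g := by omega
    apply Nat.coprime_of_dvd
    intro p hp hps hpb
    have h5 : p ∣ n + s := h4 ▸ (hpb.mul_right g)
    have h6 : p ∣ n := (Nat.dvd_add_left hps).mp h5
    have h7 : p ∣ Nat.gcd n b := Nat.dvd_gcd h6 hpb
    rw [hcon] at h7
    exact hp.one_lt.ne' (Nat.dvd_one.mp h7)
  have hg1 : 238 * b ^ 3 ≤ g := by
    by_contra hno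
    push Not at hno
    have h3 : b * g < b * (238 * b ^ 3) := Nat.mul_lt_mul_of_pos_left hno hbpos
    have h4 : b * (238 * b ^ 3) = 238 * b ^ 4 := by ring
    omega
  have hg2 : 2 * s + 1 ≤ g := by
    have h3 : 238 * b ^ 3 = 238 * (b * (b * b)) := by ring
    have h4 : 512 * (b * b) ≤ b * (b * b) := Nat.mul_le_mul_right _ hb512
    omega
  obtain ⟨τ, hτ, hk⟩ := kappa_ge (h := h) (γ := γ) (s := s) (g := g) hγ (by omega) hγ' hs2
    (by rw [← hb]; exact hcos) hodd (by rw [← hb]; exact hco) (by rw [← hb]; exact hg1) hg2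
  rw [← hb, ← hsn] at hk
  -- the estimate
  have hτb : τ ≤ b := by
    rw [hb]
    exact hτ.trans (Nat.mul_le_mul_right γ (by omega))
  have hkr : ((b : ℝ) - τ) * g ≤ kappa n := by
    have h3 : (((b - τ) * g : ℕ) : ℝ) ≤ kappa n := by exact_mod_cast hk
    rw [Nat.cast_mul, Nat.cast_sub hτb] at h3
    exact h3
  refine le_trans ?_ hkr
  obtain ⟨B, hB⟩ : ∃ B : ℝ, B = (2 * h + 1 : ℕ) := ⟨_, rfl⟩
  have hB513 : (513 : ℝ) ≤ B := by
    rw [hB]
    have : 513 ≤ 2 * h + 1 := by omega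
    exact_mod_cast this
  rw [← hB]
  have hpa : 0 < B := by linarith
  have hgr : (0 : ℝ) < g := by
    have : 0 < g := by omega
    exact_mod_cast this
  have hτr : (τ : ℝ) * B ≤ 41 * b := by
    have h3 : τ * (2 * h + 1) ≤ 41 * b := by
      rw [hb]
      calc τ * (2 * h + 1) ≤ (41 * γ) * (2 * h + 1) := Nat.mul_le_mul_right _ hτ
        _ = 41 * ((2 * h + 1) * γ) := by ring
    rw [hB]
    exact_mod_cast h3
  have hnr : (n : ℝ) ≤ b * g := by
    have : n ≤ b * g := by omega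
    exact_mod_cast this
  have hfrac : (τ : ℝ) ≤ 41 * b / B := by
    rw [le_div_iff₀ hpa]
    exact hτr
  have h41 : (41 : ℝ) / B ≤ 1 := by
    rw [div_le_one hpa]
    linarith
  calc (n : ℝ) - 41 * n / B = (1 - 41 / B) * n := by ring
    _ ≤ (1 - 41 / B) * (b * g) := by
        apply mul_le_mul_of_nonneg_left hnr
        linarith
    _ = (b - 41 * b / B) * g := by ring
    _ ≤ (b - τ) * g := by
        apply mul_le_mul_of_nonneg_right _ hgr.le
        linarith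

theorem kappa_ge_nat {n a : ℕ} (h1 : n < 2 ^ (17 * a)) (h2 : 2 ^ (16 * a + 304) ≤ n) :
    (n : ℝ) - 41 * n / 2 ^ a ≤ kappa n := by
  have ha : 304 < a := by
    have h3 : 16 * a + 304 < 17 * a := (Nat.pow_lt_pow_iff_right (by norm_num : 1 < 2)).mp
      (h2.trans_lt h1)
    omega
  have hn : 0 < n := lt_of_lt_of_le (Nat.pow_pos (by norm_num)) h2
  obtain ⟨β, hβ, hβ1, hβ2, hβn⟩ := exists_prime_not_dvd a 17 n hn (by
    rw [← pow_mul, mul_comm a 17]
    exact h1)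
  obtain ⟨γ, hγ, hγ1, hγ2, hγn⟩ := exists_prime_not_dvd (3 * a + 51) 6 n hn (by
    rw [← pow_mul]
    exact h1.trans_le (Nat.pow_le_pow_right (by norm_num) (by omega)))
  have h512 : 512 ≤ 2 ^ a := by
    have : 2 ^ 9 ≤ 2 ^ a := Nat.pow_le_pow_right (by norm_num) (by omega)
    omega
  obtain ⟨h, hh⟩ := hβ.odd_of_ne_two (by omega)
  subst hh
  have hβγ : (2 * h + 1) ^ 3 < γ := by
    have h3 : (2 * h + 1) ^ 3 ≤ (2 ^ (a + 17)) ^ 3 := Nat.pow_le_pow_left hβ2 3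
    rw [← pow_mul] at h3
    have h4 : (a + 17) * 3 = 3 * a + 51 := by ring
    rw [h4] at h3
    omega
  have hb4 : 238 * ((2 * h + 1) * γ) ^ 4 ≤ n := by
    have hb1 : (2 * h + 1) * γ ≤ 2 ^ (4 * a + 74) := by
      have h3 : 4 * a + 74 = (a + 17) + (3 * a + 51 + 6) := by ring
      rw [h3, pow_add]
      exact Nat.mul_le_mul hβ2 hγ2
    have h3 : ((2 * h + 1) * γ) ^ 4 ≤ (2 ^ (4 * a + 74)) ^ 4 := Nat.pow_le_pow_left hb1 4
    have h4 : (2 ^ (4 * a + 74)) ^ 4 * 2 ^ 8 = 2 ^ (16 * a + 304) := by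
      rw [← pow_mul, ← pow_add]
      congr 1
      ring
    obtain ⟨Q, hQ⟩ : ∃ Q, Q = (2 ^ (4 * a + 74)) ^ 4 := ⟨_, rfl⟩
    rw [← hQ] at h3 h4
    rw [← h4] at h2
    have h5 : (2 : ℕ) ^ 8 = 256 := by norm_num
    rw [h5] at h2
    calc 238 * ((2 * h + 1) * γ) ^ 4 ≤ 238 * Q := Nat.mul_le_mul_left _ h3
      _ ≤ Q * 256 := by linarith
      _ ≤ n := h2
  refine le_trans ?_ (kappa_ge_primes hβ hγ hβn hγn (by omega) hβγ hb4)
  have hpa : (0 : ℝ) < 2 ^ a := pow_pos (by norm_num) a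
  have h6 : (2 : ℝ) ^ a ≤ ((2 * h + 1 : ℕ) : ℝ) := by exact_mod_cast hβ1.le
  have h7 : (0 : ℝ) ≤ 41 * n := mul_nonneg (by norm_num) (Nat.cast_nonneg n)
  have h8 := div_le_div_of_nonneg_left h7 hpa h6
  linarith

/-- The lower bound for all large orders. -/
theorem kappa_lower (n : ℕ) (hn : 2 ^ 5440 ≤ n) :
    (n : ℝ) - 41 * (n : ℝ) ^ (16 / 17 : ℝ) ≤ kappa n := by
  have hn0 : n ≠ 0 := by
    rintro rfl
    exact absurd hn (not_le.mpr (Nat.pow_pos (by norm_num)))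
  obtain ⟨L, hL⟩ : ∃ L, L = Nat.log 2 n := ⟨_, rfl⟩
  have hL1 : 5440 ≤ L := by
    rw [hL]
    exact (Nat.le_log_iff_pow_le (by norm_num) hn0).mpr hn
  have hL2 : 2 ^ L ≤ n := by
    rw [hL]
    exact Nat.pow_log_le_self 2 hn0
  have hL3 : n < 2 ^ (L + 1) := by
    rw [hL]
    exact Nat.lt_pow_succ_log_self (by norm_num) n
  have h1 : n < 2 ^ (17 * (L / 17 + 1)) :=
    hL3.trans_le (Nat.pow_le_pow_right (by norm_num) (by omega))
  have h2 : 2 ^ (16 * (L / 17 + 1) + 304) ≤ n :=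
    (Nat.pow_le_pow_right (by norm_num) (by omega)).trans hL2
  refine le_trans ?_ (kappa_ge_nat h1 h2)
  obtain ⟨a, ha⟩ : ∃ a, a = L / 17 + 1 := ⟨_, rfl⟩
  rw [← ha] at h1 ⊢
  have hnr : (0 : ℝ) < n := by
    have : 0 < n := Nat.pos_of_ne_zero hn0
    exact_mod_cast this
  have hpa : (0 : ℝ) < 2 ^ a := by positivity
  have h3 : (n : ℝ) ^ (1 / 17 : ℝ) ≤ 2 ^ a := by
    have h4 : (n : ℝ) ≤ (2 ^ a) ^ (17 : ℝ) := by
      have h5 : (n : ℝ) ≤ ((2 ^ a) ^ 17 : ℝ) := by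
        rw [← pow_mul, mul_comm a 17]
        exact_mod_cast h1.le
      refine h5.trans (le_of_eq ?_)
      rw [← Real.rpow_natCast]
      norm_num
    calc (n : ℝ) ^ (1 / 17 : ℝ) ≤ ((2 ^ a) ^ (17 : ℝ)) ^ (1 / 17 : ℝ) :=
          Real.rpow_le_rpow hnr.le h4 (by norm_num)
      _ = 2 ^ a := by
          rw [← Real.rpow_mul hpa.le]
          norm_num
  have h5 : (n : ℝ) / 2 ^ a ≤ (n : ℝ) ^ (16 / 17 : ℝ) := by
    rw [div_le_iff₀ hpa]
    calc (n : ℝ) = (n : ℝ) ^ (16 / 17 : ℝ) * (n : ℝ) ^ (1 / 17 : ℝ) := by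
          rw [← Real.rpow_add hnr]
          norm_num
      _ ≤ (n : ℝ) ^ (16 / 17 : ℝ) * 2 ^ a :=
          mul_le_mul_of_nonneg_left h3 (Real.rpow_nonneg hnr.le _)
  have h6 : 41 * (n : ℝ) / 2 ^ a = 41 * ((n : ℝ) / 2 ^ a) := by ring
  rw [h6]
  linarith

/-- `κ(n) / n` tends to `1`. -/
theorem tendsto_kappa : Tendsto (fun n : ℕ => (kappa n : ℝ) / n) atTop (nhds 1) := by
  have h1 : Tendsto (fun n : ℕ => 1 - 41 * (n : ℝ) ^ (-(1 / 17) : ℝ)) atTop (nhds 1) := by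
    have h2 : Tendsto (fun n : ℕ => (n : ℝ) ^ (-(1 / 17) : ℝ)) atTop (nhds 0) :=
      (tendsto_rpow_neg_atTop (by norm_num)).comp tendsto_natCast_atTop_atTop
    have h3 := (h2.const_mul 41).const_sub 1
    simpa using h3
  refine tendsto_of_tendsto_of_tendsto_of_le_of_le' h1 tendsto_const_nhds ?_ ?_
  · filter_upwards [eventually_ge_atTop (2 ^ 5440)] with n hn
    have hn0 : (0 : ℝ) < n := by
      have : 0 < n := lt_of_lt_of_le (Nat.pow_pos (by norm_num)) hn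
      exact_mod_cast this
    rw [le_div_iff₀ hn0]
    refine le_trans (le_of_eq ?_) (kappa_lower n hn)
    have h4 : (n : ℝ) ^ (-(1 / 17) : ℝ) * n = (n : ℝ) ^ (16 / 17 : ℝ) := by
      nth_rewrite 2 [← Real.rpow_one (n : ℝ)]
      rw [← Real.rpow_add hn0]
      norm_num
    rw [sub_mul, one_mul, mul_assoc, h4]
  · filter_upwards [eventually_gt_atTop 0] with n hn
    have h1 : (kappa n : ℝ) ≤ n := by exact_mod_cast Near.kappa_le hn
    exact div_le_one_of_le₀ h1 (Nat.cast_nonneg n)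

end Pool.Agent.Lib.MP_185394_co.All
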