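import Pool.Agent.Lib.MP_185394_co.All.IntG
import Pool.Agent.Lib.MP_185394_co.All.Lift

/-!
The numbers of lines left out of the plex in the blocks.
-/

namespace Pool.Agent.Lib.MP_185394_co.All

open Finset Near

set_option linter.unusedSectionVars false

variable {G : Type} [AddCommGroup G] [Fintype G] [DecidableEq G]

/-- the indicator of a proposition, as an integer -/
def ind (p : Prop) [Decidable p] : ℤ := if p then 1 else 0

lemma ind_true {p : Prop} [Decidable p] (h : p) : ind p = 1 := if_pos h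

lemma ind_false {p : Prop} [Decidable p] (h : ¬ p) : ind p = 0 := if_neg h

lemma ind_nonneg (p : Prop) [Decidable p] : 0 ≤ ind p := by
  unfold ind
  split_ifs <;> norm_num

lemma ind_le_one (p : Prop) [Decidable p] : ind p ≤ 1 := by
  unfold ind
  split_ifs <;> norm_num

lemma ind_congr {p q : Prop} [Decidable p] [Decidable q] (h : p ↔ q) : ind p = ind q := by
  by_cases hp : p
  · rw [ind_true hp, ind_true (h.mp hp)]
  · rw [ind_false hp, ind_false (fun hq => hp (h.mpr hq))]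

lemma sum_ind_eq (x : G) : ∑ X, ind (X = x) = 1 := by
  unfold ind
  simp

lemma sum_ind_mem (A : Finset G) : ∑ X, ind (X ∈ A) = A.card := by
  unfold ind
  simp

lemma sum_ind_smul (x : G) : ∑ X, ind (X = x) • X = x := by
  unfold ind
  simp

lemma sum_ind_mem_smul (A : Finset G) : ∑ X, ind (X ∈ A) • X = ∑ X ∈ A, X := by
  unfold ind
  simp [Finset.sum_ite_mem]

/-- the blocks of the deleted rows, columns and symbols -/
def Spec (κ : G) (A : Finset G) (X Y : G) : Prop :=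
  (Y = 0 ∧ X ∈ A) ∨ (X = 0 ∧ Y ∈ A) ∨ (X + Y = κ ∧ X ∈ A)

instance (κ : G) (A : Finset G) (X Y : G) : Decidable (Spec κ A X Y) := by
  unfold Spec
  infer_instance

/-- the numbers of lines left out of the plex -/
structure IsWeight (κ : G) (M : G → G → G) (A : Finset G) (τ s : ℕ) (X0 Y0 Z0 Y1 : G) (g : ℕ)
    (q : G → G → ℤ) : Prop where
  bd : ∀ X Y, 0 ≤ q X Y ∧ q X Y ≤ g
  touched : ∀ X Y, Touched κ M X Y → q X Y = g
  col0 : ∀ X, q X 0 = g * ind (X ∈ A)
  row0 : ∀ Y, q 0 Y = g * ind (Y ∈ A)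
  hole : ∀ X, q X (κ - X) = g * ind (X ∈ A)
  free : q X0 Y1 = 0
  rowSum : ∀ X, ∑ Y, q X Y = g * τ - 2 * s * (1 - ind (X ∈ A))
  colSum : ∀ Y, ∑ X, q X Y = g * τ - 2 * s * (1 - ind (Y ∈ A)) + ind (Y = Y0) - ind (Y = Y1)
  symSum : ∀ Z, ∑ X, q X (Z - X) = g * τ - 2 * s * (1 - ind (Z ∈ A)) + ind (Z = Z0) -
    ind (Z = X0 + Y1)

theorem exists_isWeight {κ : G} {M : G → G → G} (hMne : ∀ X Y, X ≠ 0 → Y ≠ 0 → M X Y ≠ κ)
    (hMrow : ∀ X, X ≠ 0 → ∀ Y Y', Y ≠ 0 → Y' ≠ 0 → M X Y = M X Y' → Y = Y')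
    (hMcol : ∀ Y, Y ≠ 0 → ∀ X X', X ≠ 0 → X' ≠ 0 → M X Y = M X' Y → X = X')
    {nat : G → G → Prop} [∀ x y, Decidable (nat x y)] (hnat : ∀ X Y, nat X Y → M X Y = X + Y)
    {t : ℕ} (hD : Dense κ nat t) (hG : 5 ≤ Fintype.card G) (ht : 40 * t + 1 ≤ Fintype.card G)
    (τ s : ℕ) (A : Finset G) (hA : A.card = τ) (hA0 : (0 : G) ∈ A) (hAκ : κ ∈ A)
    (hA2 : ∑ X ∈ A, X + ∑ X ∈ A, X = τ • κ)
    (hGs : ∑ X : G, X = 0) (X0 Y0 Z0 Y1 : G)
    (hX0 : X0 ≠ 0) (hY0 : Y0 ≠ 0) (hY1 : Y1 ≠ 0) (hZ0 : Z0 ≠ κ) (hXY : X0 + Y1 ≠ κ)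
    (hZ : Z0 = X0 + Y0 + (τ * s) • κ) (hfree : ¬ nat X0 Y1) (hfree' : M X0 Y1 = X0 + Y1)
    (htτ : 8 * t + 38 ≤ τ) (hτG : 2 * (τ + 2 * t + 12) + 1 ≤ Fintype.card G)
    (g : ℕ) (hg : 238 * Fintype.card G ^ 3 ≤ g) (hgs : 2 * s + 1 ≤ g) :
    ∃ q : G → G → ℤ, IsWeight κ M A τ s X0 Y0 Z0 Y1 g q := by
  have hTn : ∀ X Y, Touched κ M X Y → ¬ nat X Y := fun X Y h h' => h.2.2.2 (hnat _ _ h')
  have hTS : ∀ X Y, Touched κ M X Y → ¬ Spec κ A X Y := by
    rintro X Y ⟨h1, h2, h3, -⟩ (h | h | h)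
    · exact h2 h.1
    · exact h1 h.1
    · exact h3 h.1
  have hSn : ∀ X Y, Spec κ A X Y → ¬ nat X Y := by
    rintro X Y (h | h | h) h'
    · exact hD.y0 _ _ h' h.1
    · exact hD.x0 _ _ h' h.1
    · exact hD.zk _ _ h' h.1
  -- the part of the touched and of the special blocks
  obtain ⟨k, hk⟩ : ∃ k : G → G → ℤ, ∀ X Y, k X Y = g * ind (Touched κ M X Y) +
    g * ind (Spec κ A X Y) := ⟨_, fun _ _ => rfl⟩
  obtain ⟨B, hB⟩ : ∃ B : G → ℤ, ∀ X, B X = g * τ - 2 * s * (1 - ind (X ∈ A)) :=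
    ⟨_, fun _ => rfl⟩
  have hgz : (0 : ℤ) ≤ g := by positivity
  have hk0 : ∀ X Y, 0 ≤ k X Y := by
    intro X Y
    rw [hk]
    have := ind_nonneg (Touched κ M X Y)
    have := ind_nonneg (Spec κ A X Y)
    positivity
  -- the sums of the special part
  have hSr0 : ∑ Y, k 0 Y = g * τ := by
    have h1 : ∀ Y, k 0 Y = g * ind (Y ∈ A) := by
      intro Y
      rw [hk, ind_false (fun h : Touched κ M 0 Y => h.1 rfl), mul_zero, zero_add]
      congr 1
      apply ind_congr
      constructor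
      · rintro (h | h | h)
        · rw [h.1]
          exact hA0
        · exact h.2
        · rw [zero_add] at h
          rw [h.1]
          exact hAκ
      · intro h
        exact Or.inr (Or.inl ⟨rfl, h⟩)
    simp only [h1, ← Finset.mul_sum, sum_ind_mem, hA]
  have hSc0 : ∑ X, k X 0 = g * τ := by
    have h1 : ∀ X, k X 0 = g * ind (X ∈ A) := by
      intro X
      rw [hk, ind_false (fun h : Touched κ M X 0 => h.2.1 rfl), mul_zero, zero_add]
      congr 1
      apply ind_congr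
      constructor
      · rintro (h | h | h)
        · exact h.2
        · rw [h.1]
          exact hA0
        · exact h.2
      · intro h
        exact Or.inl ⟨rfl, h⟩
    simp only [h1, ← Finset.mul_sum, sum_ind_mem, hA]
  have hSs0 : ∑ X, k X (κ - X) = g * τ := by
    have h1 : ∀ X, k X (κ - X) = g * ind (X ∈ A) := by
      intro X
      rw [hk, ind_false (fun h : Touched κ M X (κ - X) => h.2.2.1 (add_sub_cancel _ _)), mul_zero,
        zero_add]
      congr 1
      apply ind_congr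
      constructor
      · rintro (h | h | h)
        · exact h.2
        · rw [h.1]
          exact hA0
        · exact h.2
      · intro h
        exact Or.inr (Or.inr ⟨add_sub_cancel _ _, h⟩)
    simp only [h1, ← Finset.mul_sum, sum_ind_mem, hA]
  have hcount : ∀ (p : G → Prop) [DecidablePred p] (n : ℕ), (univ.filter p).card ≤ n →
      ∑ X, ind (p X) ≤ n := by
    intro p _ n h
    unfold ind
    rw [Finset.sum_boole]
    exact_mod_cast h
  have htwo : ∀ (p : G → Prop) [DecidablePred p] (x y : G), (∀ X, p X → X = x ∨ X = y) →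
      (univ.filter p).card ≤ 2 := by
    intro p _ x y h
    refine (Finset.card_le_card (t := {x, y}) ?_).trans Finset.card_le_two
    intro X hX
    rw [Finset.mem_insert, Finset.mem_singleton]
    exact h X (mem_filter.mp hX).2
  have hkr : ∀ X, X ≠ 0 → ∑ Y, k X Y ≤ g * (t + 2) := by
    intro X hX
    simp only [hk, Finset.sum_add_distrib, ← Finset.mul_sum]
    have h1 : ∑ Y, ind (Touched κ M X Y) ≤ t := hcount _ t ((Finset.card_le_card (by
      intro Y hY
      rw [mem_filter] at hY ⊢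
      exact ⟨hY.1, hTn _ _ hY.2⟩)).trans (hD.row X hX))
    have h2 : ∑ Y, ind (Spec κ A X Y) ≤ (2 : ℕ) := hcount _ 2 (htwo _ 0 (κ - X) (by
      rintro Y (h | h | h)
      · exact Or.inl h.1
      · exact absurd h.1 hX
      · right
        rw [← h.1]
        abel))
    rw [← mul_add]
    exact mul_le_mul_of_nonneg_left (add_le_add h1 h2) hgz
  have hkc : ∀ Y, Y ≠ 0 → ∑ X, k X Y ≤ g * (t + 2) := by
    intro Y hY
    simp only [hk, Finset.sum_add_distrib, ← Finset.mul_sum]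
    have h1 : ∑ X, ind (Touched κ M X Y) ≤ t := hcount _ t ((Finset.card_le_card (by
      intro X hX
      rw [mem_filter] at hX ⊢
      exact ⟨hX.1, hTn _ _ hX.2⟩)).trans (hD.col Y hY))
    have h2 : ∑ X, ind (Spec κ A X Y) ≤ (2 : ℕ) := hcount _ 2 (htwo _ 0 (κ - Y) (by
      rintro X (h | h | h)
      · exact absurd h.1 hY
      · exact Or.inl h.1
      · right
        rw [← h.1]
        abel))
    rw [← mul_add]
    exact mul_le_mul_of_nonneg_left (add_le_add h1 h2) hgz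
  have hks : ∀ Z, Z ≠ κ → ∑ X, k X (Z - X) ≤ g * (t + 2) := by
    intro Z hZκ
    simp only [hk, Finset.sum_add_distrib, ← Finset.mul_sum]
    have h1 : ∑ X, ind (Touched κ M X (Z - X)) ≤ t := hcount _ t ((Finset.card_le_card (by
      intro X hX
      rw [mem_filter] at hX ⊢
      exact ⟨hX.1, hTn _ _ hX.2⟩)).trans (hD.sym Z hZκ))
    have h2 : ∑ X, ind (Spec κ A X (Z - X)) ≤ (2 : ℕ) := hcount _ 2 (htwo _ 0 Z (by
      rintro X (h | h | h)
      · right
        exact (sub_eq_zero.mp h.1).symm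
      · exact Or.inl h.1
      · exfalso
        rw [add_sub_cancel] at h
        exact hZκ h.1))
    rw [← mul_add]
    exact mul_le_mul_of_nonneg_left (add_le_add h1 h2) hgz
  have hBb : ∀ X, g * τ - 2 * s ≤ B X ∧ B X ≤ g * τ := by
    intro X
    rw [hB]
    have h1 := ind_nonneg (X ∈ A)
    have h2 := ind_le_one (X ∈ A)
    have h3 : (0 : ℤ) ≤ s := by positivity
    constructor <;> nlinarith
  have hBA : ∀ X, X ∈ A → B X = g * τ := by
    intro X hX
    rw [hB, ind_true hX]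
    ring
  -- the prescribed margins
  obtain ⟨V1, hV1⟩ : ∃ V : G → ℤ, ∀ X, V X = B X - ∑ Y, k X Y := ⟨_, fun _ => rfl⟩
  obtain ⟨V2, hV2⟩ : ∃ V : G → ℤ, ∀ Y, V Y = B Y + ind (Y = Y0) - ind (Y = Y1) -
    ∑ X, k X Y := ⟨_, fun _ => rfl⟩
  obtain ⟨V3, hV3⟩ : ∃ V : G → ℤ, ∀ Z, V Z = B Z + ind (Z = Z0) - ind (Z = X0 + Y1) -
    ∑ X, k X (Z - X) := ⟨_, fun _ => rfl⟩
  have hgs' : (2 * s + 1 : ℤ) ≤ g := by exact_mod_cast hgs
  have hlohi : ∀ (v u a c : ℤ), (g * τ - 2 * s ≤ v ∧ v ≤ g * τ) → 0 ≤ u → u ≤ g * (t + 2) →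
      -1 ≤ a → a ≤ 1 → c = v + a - u → ((τ - (t + 3) : ℤ) * g ≤ c ∧ c ≤ (τ + 2 : ℤ) * g) := by
    rintro v u a c ⟨h1, h2⟩ h3 h4 h5 h6 rfl
    constructor <;> nlinarith
  have hind1 : ∀ (p q : Prop) [Decidable p] [Decidable q], -1 ≤ ind p - ind q ∧
      ind p - ind q ≤ 1 := by
    intro p q _ _
    have h1 := ind_nonneg p
    have h2 := ind_nonneg q
    have h3 := ind_le_one p
    have h4 := ind_le_one q
    constructor <;> linarith
  have hkk : ∑ Z, ∑ X, k X (Z - X) = ∑ X, ∑ Y, k X Y := sum_reindex k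
  have hkc' : ∑ Y, ∑ X, k X Y = ∑ X, ∑ Y, k X Y := Finset.sum_comm
  obtain ⟨y, hy0, hy1, hyr, hyc, hys⟩ := exists_int_G hMne hMrow hMcol hnat hD hG ht g hg V1 V2 V3
    (by rw [hV1, hSr0, hBA _ hA0, sub_self])
    (by rw [hV2, hSc0, hBA _ hA0, ind_false hY0.symm, ind_false hY1.symm]; ring)
    (by rw [hV3, hSs0, hBA _ hAκ, ind_false hZ0.symm, ind_false hXY.symm]; ring)
    (∑ X, B X - ∑ X, ∑ Y, k X Y)
    (by simp only [hV1, Finset.sum_sub_distrib])
    (by
      simp only [hV2, Finset.sum_sub_distrib, Finset.sum_add_distrib, sum_ind_eq, hkc']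
      ring)
    (by
      simp only [hV3, Finset.sum_sub_distrib, Finset.sum_add_distrib, sum_ind_eq, hkk]
      ring)
    (by
      have e1 := label_of_margins k
      have e2 : ∑ X, B X • X = (2 * s : ℤ) • ∑ X ∈ A, X := by
        have h1 : ∀ X, B X • X = ((g * τ - 2 * s : ℤ) • X) + (2 * s : ℤ) • (ind (X ∈ A) • X) := by
          intro X
          rw [hB, ← mul_smul, ← add_smul]
          congr 1
          ring
        have h2 : ∑ X : G, ((g * τ - 2 * s : ℤ) • X) = 0 := by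
          rw [← Finset.smul_sum, hGs, smul_zero]
        have h3 : ∑ X : G, (2 * s : ℤ) • (ind (X ∈ A) • X) = (2 * s : ℤ) • ∑ X ∈ A, X := by
          rw [← Finset.smul_sum, sum_ind_mem_smul]
        simp only [h1, Finset.sum_add_distrib]
        rw [h2, h3, zero_add]
      have e3 : (2 * s : ℤ) • ∑ X ∈ A, X = (τ * s) • κ := by
        have h1 : (2 * s : ℤ) • ∑ X ∈ A, X = (s : ℤ) • ((2 : ℤ) • ∑ X ∈ A, X) := by
          rw [← mul_smul]
          congr 1
          ring
        rw [h1, two_smul, hA2, natCast_zsmul, ← mul_smul, mul_comm s τ]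
      have e4 : ∑ X, V1 X • X = (τ * s) • κ - ∑ X, (∑ Y, k X Y) • X := by
        simp only [hV1, sub_smul, Finset.sum_sub_distrib]
        rw [e2, e3]
      have e5 : ∑ X, V2 X • X = (τ * s) • κ + Y0 - Y1 - ∑ Y, (∑ X, k X Y) • Y := by
        simp only [hV2, sub_smul, add_smul, Finset.sum_sub_distrib, Finset.sum_add_distrib,
          sum_ind_smul]
        rw [e2, e3]
      have e6 : ∑ X, V3 X • X = (τ * s) • κ + Z0 - (X0 + Y1) - ∑ Z, (∑ X, k X (Z - X)) • Z := by
        simp only [hV3, sub_smul, add_smul, Finset.sum_sub_distrib, Finset.sum_add_distrib,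
          sum_ind_smul]
        rw [e2, e3]
      rw [e4, e5, e6, ← e1, hZ]
      abel)
    (τ - (t + 3)) (τ + 2) (by
      have : (38 : ℤ) ≤ τ := by exact_mod_cast (by omega : 38 ≤ τ)
      linarith)
    (by
      have : (8 * t + 38 : ℤ) ≤ τ := by exact_mod_cast htτ
      linarith)
    (by
      have : (2 * (τ + 2 * t + 12) + 1 : ℤ) ≤ Fintype.card G := by exact_mod_cast hτG
      linarith)
    (fun X hX => hlohi (B X) (∑ Y, k X Y) 0 (V1 X) (hBb X)
      (Finset.sum_nonneg fun Y _ => hk0 X Y) (hkr X hX) (by norm_num) (by norm_num)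
      (by rw [hV1]; ring))
    (fun Y hY => hlohi (B Y) (∑ X, k X Y) (ind (Y = Y0) - ind (Y = Y1)) (V2 Y) (hBb Y)
      (Finset.sum_nonneg fun X _ => hk0 X Y) (hkc Y hY) (hind1 _ _).1 (hind1 _ _).2
      (by rw [hV2]; ring))
    (fun Z hZκ => hlohi (B Z) (∑ X, k X (Z - X)) (ind (Z = Z0) - ind (Z = X0 + Y1)) (V3 Z) (hBb Z)
      (Finset.sum_nonneg fun X _ => hk0 X (Z - X)) (hks Z hZκ) (hind1 _ _).1 (hind1 _ _).2
      (by rw [hV3]; ring))
  have hkfree : k X0 Y1 = 0 := by
    rw [hk, ind_false (fun h : Touched κ M X0 Y1 => h.2.2.2 hfree'), ind_false]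
    · ring
    · rintro (h | h | h)
      · exact hY1 h.1
      · exact hX0 h.1
      · exact hXY h.1
  have hspec0 : ∀ X Y, (X = 0 ∨ Y = 0 ∨ X + Y = κ) → y X Y = 0 := by
    intro X Y h
    apply hy0
    intro hn
    rcases h with h | h | h
    · exact hD.x0 _ _ hn h
    · exact hD.y0 _ _ hn h
    · exact hD.zk _ _ hn h
  refine ⟨fun X Y => y X Y + k X Y, ?_, ?_, ?_, ?_, ?_, ?_, ?_, ?_, ?_⟩
  · intro X Y
    show 0 ≤ y X Y + k X Y ∧ y X Y + k X Y ≤ g
    by_cases h1 : Touched κ M X Y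
    · rw [hy0 X Y (hTn _ _ h1), hk, ind_true h1, ind_false (hTS _ _ h1)]
      constructor <;> linarith
    · by_cases h2 : Spec κ A X Y
      · rw [hy0 X Y (hSn _ _ h2), hk, ind_false h1, ind_true h2]
        constructor <;> linarith
      · rw [hk, ind_false h1, ind_false h2]
        by_cases h3 : nat X Y
        · obtain ⟨h4, h5⟩ := hy1 X Y h3
          constructor <;> linarith
        · rw [hy0 X Y h3]
          constructor <;> linarith
  · intro X Y h
    show y X Y + k X Y = g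
    rw [hy0 X Y (hTn _ _ h), hk, ind_true h, ind_false (hTS _ _ h)]
    ring
  · intro X
    show y X 0 + k X 0 = g * ind (X ∈ A)
    rw [hspec0 X 0 (Or.inr (Or.inl rfl)), hk, ind_false (fun h : Touched κ M X 0 => h.2.1 rfl)]
    rw [ind_congr (p := Spec κ A X 0) (q := X ∈ A)]
    · ring
    · constructor
      · rintro (h | h | h)
        · exact h.2
        · rw [h.1]
          exact hA0
        · exact h.2
      · intro h
        exact Or.inl ⟨rfl, h⟩
  · intro Y
    show y 0 Y + k 0 Y = g * ind (Y ∈ A)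
    rw [hspec0 0 Y (Or.inl rfl), hk, ind_false (fun h : Touched κ M 0 Y => h.1 rfl)]
    rw [ind_congr (p := Spec κ A 0 Y) (q := Y ∈ A)]
    · ring
    · constructor
      · rintro (h | h | h)
        · rw [h.1]
          exact hA0
        · exact h.2
        · rw [zero_add] at h
          rw [h.1]
          exact hAκ
      · intro h
        exact Or.inr (Or.inl ⟨rfl, h⟩)
  · intro X
    show y X (κ - X) + k X (κ - X) = g * ind (X ∈ A)
    rw [hspec0 X _ (Or.inr (Or.inr (add_sub_cancel _ _))), hk,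
      ind_false (fun h : Touched κ M X (κ - X) => h.2.2.1 (add_sub_cancel _ _))]
    rw [ind_congr (p := Spec κ A X (κ - X)) (q := X ∈ A)]
    · ring
    · constructor
      · rintro (h | h | h)
        · exact h.2
        · rw [h.1]
          exact hA0
        · exact h.2
      · intro h
        exact Or.inr (Or.inr ⟨add_sub_cancel _ _, h⟩)
  · show y X0 Y1 + k X0 Y1 = 0
    rw [hy0 _ _ hfree, hkfree, add_zero]
  · intro X
    show ∑ Y, (y X Y + k X Y) = _
    rw [Finset.sum_add_distrib, hyr, hV1, hB]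
    ring
  · intro Y
    show ∑ X, (y X Y + k X Y) = _
    rw [Finset.sum_add_distrib, hyc, hV2, hB]
    ring
  · intro Z
    show ∑ X, (y X (Z - X) + k X (Z - X)) = _
    rw [Finset.sum_add_distrib, hys, hV3, hB]
    ring

end Pool.Agent.Lib.MP_185394_co.All
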